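import Pool.Agent.SDG.All

/-!
# SNW, module N12 (helper48): the numerical lemmas N1, N2 of Theorem S (families with cap `2 h`, `h ≥ 2`)
-/

set_option autoImplicit false

noncomputable section

open Finset Pool.Agent.Helper64.Rho
open scoped Classical Pointwise

namespace Pool.Agent.SNW

open Pool.Agent.SDG

theorem cf_le_add (g a x : ℕ) (_hg : 1 ≤ g) : ∀ d, x + d ≤ g * a → cf g (x + d) ≤ cf g x + d * a := by
  intro d
  induction d with
  | zero => intro _; simp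
  | succ d ih =>
    intro h
    have h1 := ih (by omega)
    have h2 := thm_Nm1.1 g (x + d)
    have h3 : (x + d) / g < a := Nat.div_lt_of_lt_mul (by omega)
    have h4 : x + (d + 1) = (x + d) + 1 := by ring
    have h5 : (d + 1) * a = d * a + a := by ring
    rw [h4, h2, h5]
    omega

theorem cf_ge (g t : ℕ) : t + 1 ≤ cf g t := thm_Nm1.2.2.2.2.2 g t

/-- **N1.** -/
theorem thm_N1 (h t a e : ℕ) (hh : 2 ≤ h) (ha : 2 * h * (a - 1) + 2 ≤ t) (ha' : t ≤ 2 * h * a + 1)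
    (ha1 : 1 ≤ a) (he : 2 ≤ e) (he' : e ≤ 2 * a - 1) :
    2 * cf (2 * h) (t - 1) ≤ (e + 1) * cf (2 * h) (t - e) := by
  obtain ⟨b, rfl⟩ : ∃ b, a = b + 1 := ⟨a - 1, by omega⟩
  rw [Nat.add_sub_cancel] at ha
  obtain ⟨d, rfl⟩ : ∃ d, e = d + 1 := ⟨e - 1, by omega⟩
  have h4b : 4 * b ≤ 2 * h * b := Nat.mul_le_mul_right b (by omega)
  obtain ⟨x, hx⟩ : ∃ x, x = t - (d + 1) := ⟨_, rfl⟩
  have hx1 : t - 1 = x + d := by omega
  rw [← hx, hx1]
  have h1 := cf_le_add (2 * h) (b + 1) x (by omega) d (by omega)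
  have h2 := cf_ge (2 * h) x
  have h3 : 2 * b + 2 ≤ cf (2 * h) x := by omega
  have h4 : d * (2 * (b + 1)) ≤ d * cf (2 * h) x := Nat.mul_le_mul_left d (by omega)
  nlinarith

/-- **N2.** -/
theorem thm_N2 (h t a e k R Y X j' : ℕ) (hh : 2 ≤ h) (ha : 2 * h * (a - 1) + 2 ≤ t)
    (ha' : t ≤ 2 * h * a + 1) (ha1 : 1 ≤ a) (hk : 1 ≤ k) (he : 3 ≤ e) (hke : k + e = t)
    (hY : cf (2 * h) k ≤ Y) (hYR : Y ≤ R) (hj' : j' * Y ≤ 2 * a - 1)
    (hR : cf (2 * h) (t - 2) + 1 ≤ R * (2 * a - 1 + j' - 1)) (h1 : (2 * e - 1) * Y ≤ X)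
    (h2 : R * (2 * e - 1) ≤ X + (2 * a - 1) * (R - Y)) : 2 * cf (2 * h) (t - 1) ≤ X := by
  obtain ⟨b, rfl⟩ : ∃ b, a = b + 1 := ⟨a - 1, by omega⟩
  have e1 : 2 * (b + 1) - 1 = 2 * b + 1 := by omega
  rw [e1] at hj' h2 hR
  rw [Nat.add_sub_cancel] at ha
  have e2 : 2 * b + 1 + j' - 1 = 2 * b + j' := by omega
  rw [e2] at hR
  obtain ⟨f, rfl⟩ : ∃ f, e = f + 3 := ⟨e - 3, by omega⟩
  have e3 : 2 * (f + 3) - 1 = 2 * f + 5 := by omega
  rw [e3] at h1 h2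
  have h4b : 4 * b ≤ 2 * h * b := Nat.mul_le_mul_right b (by omega)
  have hYk := cf_ge (2 * h) k
  have hY2 : 2 ≤ Y := by omega
  -- the product bound
  have key1 : (f + 2) * (2 * (b + 1)) ≤ (2 * f + 3) * Y → 2 * cf (2 * h) (t - 1) ≤ X := by
    intro h3
    have hx1 : t - 1 = k + (f + 2) := by omega
    have h4 := cf_le_add (2 * h) (b + 1) k (by omega) (f + 2) (by omega)
    rw [hx1]
    nlinarith
  rcases Nat.lt_or_ge b k with hbk | hbk
  · -- `k ≥ a`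
    apply key1
    rcases Nat.lt_or_ge (3 * Y) (4 * (b + 1)) with h3 | h3
    · have h4 : b + 2 ≤ Y := by omega
      have h5 : 2 * b ≤ 4 * f + 9 := by omega
      have h6 : b + 1 ≤ 2 * f + 4 := by omega
      nlinarith
    · nlinarith
  · -- `k ≤ b`
    have h3 : k + j' ≤ b + 1 := by
      by_contra hcon
      have h4 : b + 2 - k ≤ j' := by omega
      have h5 : (b + 2 - k) * (k + 1) ≤ 2 * b + 1 :=
        (Nat.mul_le_mul h4 (by omega : k + 1 ≤ Y)).trans hj'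
      obtain ⟨c, rfl⟩ : ∃ c, k = c + 1 := ⟨k - 1, by omega⟩
      obtain ⟨d, rfl⟩ : ∃ d, b = c + 1 + d := ⟨b - (c + 1), by omega⟩
      have h6 : c + 1 + d + 2 - (c + 1) = d + 2 := by omega
      rw [h6] at h5
      nlinarith
    -- `2 e - 1 - j ≥ 2 (j + j' - 1)`
    have h4 : 2 * (2 * b + j') + (2 * b + 1) ≤ 2 * f + 5 := by omega
    have h5 : 2 * (cf (2 * h) (t - 2) + 1) ≤ R * (2 * (2 * b + j')) := by nlinarith
    have h6 : R * (2 * (2 * b + j') + (2 * b + 1)) ≤ R * (2 * f + 5) := Nat.mul_le_mul_left R h4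
    have h7 : (2 * b + 1) * (R - Y) + (2 * b + 1) * Y = (2 * b + 1) * R := by
      rw [← Nat.mul_add, Nat.sub_add_cancel hYR]
    have h8 : cf (2 * h) (t - 1) ≤ cf (2 * h) (t - 2) + (b + 1) := by
      have := cf_le_add (2 * h) (b + 1) (t - 2) (by omega) 1 (by omega)
      have h9 : t - 2 + 1 = t - 1 := by omega
      rw [h9] at this
      omega
    nlinarith

end Pool.Agent.SNW
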