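import Pool.Agent.SNW.Lo2

/-!
# SNW, module F1 (helper48): aperiodic sums

`thm_F1`: `M1P G (l0 G - 1)` and the almost full case `NFP G` give `F1P G`.
-/

set_option autoImplicit false

noncomputable section

open Finset Pool.Agent.Helper64.Rho
open scoped Classical Pointwise

namespace Pool.Agent.SNW

open Pool.Agent.SDG

/-- the almost full case -/
def NFP (G : Type) [AddCommGroup G] [Finite G] : Prop :=
  ∀ A : Finset G, (0 : G) ∉ A → 1 ≤ A.card → AddSubgroup.closure (A : Set G) = ⊤ →
    Aper (FS A id) → (FS A id).card < pn A.card →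
      Nat.card G ≤ (FS A id).card + jj A.card * (jj A.card - 1) → bd2 G A.card ≤ (FS A id).card

theorem pn_l0 (m l : ℕ) (hm : 1 ≤ m) (h : cf 2 m + l ≤ pn m) : l + 1 ≤ cf 2 m := by
  unfold pn at h
  by_cases h4 : m = 4
  · subst h4
    have h5 : cf 2 4 = 7 := by simp [cf, Finset.sum_range_succ]
    rw [if_pos rfl] at h
    omega
  · rw [if_neg h4] at h
    by_cases h6 : m = 6
    · subst h6
      have h5 : cf 2 6 = 13 := by simp [cf, Finset.sum_range_succ]
      rw [if_pos rfl] at h
      omega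
    · rw [if_neg h6] at h
      have h1 := thm_Nm1.1 2 (m - 1)
      rw [Nat.sub_add_cancel hm] at h1
      omega

theorem thm_F1x (G : Type) [AddCommGroup G] [Finite G] (hcyc : ¬ IsAddCyclic G)
    (hM : M1P G (l0 G - 1)) (A : Finset G) (h0 : (0 : G) ∉ A) (hA : 1 ≤ A.card)
    (hgen : AddSubgroup.closure (A : Set G) = ⊤) (hAp : Aper (FS A id)) :
    bd2 G A.card ≤ (FS A id).card ∨ ((FS A id).card < pn A.card ∧
      Nat.card G ≤ (FS A id).card + jj A.card * (jj A.card - 1)) := by
  have hbt : (⊥ : AddSubgroup G) ≠ ⊤ := by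
    intro h1
    apply hcyc
    have : Subsingleton G := ⟨fun u v => by
      have h2 : ∀ w : G, w = 0 := fun w => by
        have h3 : w ∈ (⊤ : AddSubgroup G) := AddSubgroup.mem_top w
        rw [← h1] at h3
        exact AddSubgroup.mem_bot.1 h3
      rw [h2 u, h2 v]⟩
    exact isAddCyclic_of_subsingleton
  have hq : ¬ IsAddCyclic (G ⧸ (⊥ : AddSubgroup G)) := by
    intro h1
    obtain ⟨g, hg⟩ := h1.exists_zsmul_surjective
    obtain ⟨x, rfl⟩ := QuotientAddGroup.mk_surjective g
    apply hcyc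
    refine ⟨⟨x, fun z => ?_⟩⟩
    obtain ⟨k, hk⟩ := hg (QuotientAddGroup.mk z : G ⧸ (⊥ : AddSubgroup G))
    simp only at hk
    rw [← QuotientAddGroup.mk_zsmul, QuotientAddGroup.eq, AddSubgroup.mem_bot] at hk
    exact ⟨k, by rw [neg_add_eq_zero] at hk; exact hk⟩
  by_cases hpn : pn A.card ≤ (FS A id).card
  · have h1 : bd2 G A.card ≤ val2 A.card (⊥ : AddSubgroup G) := Nat.sInf_le (Or.inr ⟨⊥, hbt, rfl⟩)
    rw [val2, if_neg hq, if_pos rfl] at h1
    exact Or.inl (h1.trans hpn)
  push Not at hpn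
  rcases hM G A id (fun i hi h1 => h0 (by rw [← show (id i : G) = 0 from h1]; exact hi))
    (cap_id A) hAp (by rw [gen_id]; exact hgen) with h1 | h1
  · have h2 : cf 2 A.card + (l0 G - 1) ≤ (FS A id).card := by
      rcases min_le_iff.1 h1 with h3 | h3
      · omega
      · exact h3
    obtain ⟨L, hL1, hL2⟩ := exp_quot G
    have hl0 : 1 ≤ l0 G := by
      rw [← hL2]
      exact Nat.card_pos
    have hLT : L ≠ ⊤ := by
      rintro rfl
      apply hcyc
      rw [AddSubgroup.card_top] at hL2
      have h4 := l0_mul G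
      have h5 : 0 < Nat.card G := Nat.card_pos
      have h6 : AddMonoid.exponent G = 1 := by
        rw [← hL2] at h4
        nlinarith
      rw [AddMonoid.exp_eq_one_iff] at h6
      exact isAddCyclic_of_subsingleton
    have h3 := bd2_le_cyc A.card L hLT hL1
    rw [hL2] at h3
    refine Or.inl (h3.trans ?_)
    generalize l0 G = l at h2 hl0 ⊢
    rcases Nat.lt_or_ge A.card l with h4 | h4
    · have h5 : max 1 (A.card + 1 - l) = 1 := by omega
      have h6 : cf (2 * l) 1 = 2 := by simp [cf]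
      rw [h5, h6]
      have h7 := pn_l0 A.card l hA (by omega)
      omega
    · have h5 : max 1 (A.card + 1 - l) = A.card + 1 - l := by omega
      rw [h5]
      have h6 := W2_upper 1 l A.card le_rfl hl0 (by omega)
      rw [one_mul, mul_one] at h6
      omega
  · exact Or.inr ⟨hpn, h1⟩

theorem thm_F1 (G : Type) [AddCommGroup G] [Finite G] (hcyc : ¬ IsAddCyclic G)
    (hM : M1P G (l0 G - 1)) (hN : NFP G) : F1P G := by
  intro A h0 hA hgen hAp
  rcases thm_F1x G hcyc hM A h0 hA hgen hAp with h1 | ⟨h1, h2⟩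
  · exact h1
  · exact hN A h0 hA hgen hAp h1 h2

end Pool.Agent.SNW
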