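import Pool.Agent.SNW.Lin

/-!
# SNW, module S (helper48): Theorem S, families with cap `2 h`, `h ≥ 2`, in noncyclic groups

`|T| ≥ min (2 c(h, t - 1), 2 |G| / exp G)` for a family of `t` nonzero elements which generates the
noncyclic group `G` and has an aperiodic set of sums `T`.
-/

set_option autoImplicit false

noncomputable section

open Finset Pool.Agent.Helper64.Rho
open scoped Classical Pointwise

namespace Pool.Agent.SNW

open Pool.Agent.SDG

/-! ### `l0` -/

theorem exp_pos (G : Type) [AddCommGroup G] [Finite G] : 0 < AddMonoid.exponent G :=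
  Nat.pos_of_ne_zero AddMonoid.exponent_ne_zero_of_finite

theorem l0_mul (G : Type) [AddCommGroup G] [Finite G] :
    l0 G * AddMonoid.exponent G = Nat.card G :=
  Nat.div_mul_cancel AddGroup.exponent_dvd_nat_card

theorem l0_le (G : Type) [AddCommGroup G] [Finite G] (r : ℕ)
    (h : Nat.card G ≤ r * AddMonoid.exponent G) : l0 G ≤ r := by
  rw [← l0_mul G] at h
  exact Nat.le_of_mul_le_mul_right h (exp_pos G)

/-! ### numbers -/

theorem S_num3 (r Q X j Y j' μ i l : ℕ) (hj : 1 ≤ j) (hμ : 3 ≤ μ)
    (h1 : μ * i ≤ Q + j' * (μ - 2)) (h2 : r * Q ≤ X + j * (r - Y)) (h3 : X + 1 ≤ 2 * l)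
    (h4 : l ≤ r * i) : l ≤ r * (j + j' - 1) := by
  refine h4.trans (Nat.mul_le_mul_left r ?_)
  have h5 : Q + 1 ≤ 2 * i + j := by
    by_contra hcon
    have h6 : 2 * i + j ≤ Q := by omega
    have h7 := Nat.mul_le_mul_left r h6
    have h8 : j * (r - Y) ≤ j * r := Nat.mul_le_mul_left j (Nat.sub_le _ _)
    nlinarith
  obtain ⟨m, rfl⟩ : ∃ m, μ = m + 3 := ⟨μ - 3, by omega⟩
  have h6 : m + 3 - 2 = m + 1 := by omega
  rw [h6] at h1
  by_contra hcon
  have h7 : j + j' ≤ i := by omega
  obtain ⟨d, rfl⟩ : ∃ d, i = j + j' + d := ⟨i - (j + j'), by omega⟩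
  nlinarith [Nat.zero_le (m * (j + d))]

/-! ### the theorem -/

/-- a subgroup generated by members -/
theorem gen_self {G ι : Type} [AddCommGroup G] (s : Finset ι) (f : ι → G) (u : Finset ι)
    (hu : u ⊆ s) : gen (s.filter fun i => f i ∈ gen u f) f = gen u f := by
  refine le_antisymm (P1_gen_le s f _) ?_
  conv_lhs => unfold gen
  rw [AddSubgroup.closure_le]
  rintro _ ⟨i, hi, rfl⟩
  exact P1_mem_gen (mem_filter.2 ⟨hu (mem_coe.1 hi), P1_mem_gen (mem_coe.1 hi)⟩)

/-- a candidate of maximal order -/
theorem max_cand {G ι : Type} [AddCommGroup G] [Finite G] {s : Finset ι} {f : ι → G}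
    (h0 : ∀ i ∈ s, f i ≠ 0) (hA : Aper (FS s f)) (hG : (⊥ : AddSubgroup G) ≠ ⊤) :
    ∃ R : AddSubgroup G, Cd s f R ∧ ∀ i ∈ s, f i ∉ R → ∀ g : G,
      ∃ a ∈ FS s f, g - a ∈ gen (insert i (s.filter fun k => f k ∈ R)) f := by
  have : Nonempty {P : AddSubgroup G // Cd s f P} := ⟨⟨⊥, Cd_bot h0 hA hG⟩⟩
  obtain ⟨⟨R, hR⟩, hmax⟩ := Finite.exists_max
    (fun P : {P : AddSubgroup G // Cd s f P} => Nat.card P.1)
  refine ⟨R, hR, ?_⟩
  intro i hi hiR g
  obtain ⟨P, hLP, hP, hcase⟩ := Cd_exists s f _ (gen_self s f (insert i (s.filter fun k => f k ∈ R))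
    (insert_subset hi (filter_subset _ _)))
  have hsub : gen (s.filter fun k => f k ∈ R) f ≤
      gen (insert i (s.filter fun k => f k ∈ R)) f := by
    conv_lhs => unfold gen
    rw [AddSubgroup.closure_le]
    rintro _ ⟨k, hk, rfl⟩
    exact P1_mem_gen (mem_insert_of_mem (mem_coe.1 hk))
  have hiP : f i ∈ P := hLP (P1_mem_gen (mem_insert_self i _))
  rcases hcase with htop | hC
  · have h3 : g ∈ P := by rw [htop]; trivial
    have h4 : (0 : G) ∈ st (FS s f) (gen (insert i (s.filter fun k => f k ∈ R)) f) :=
      P1_mem_st.2 ⟨0, zero_mem_FS s f, by rw [sub_self]; exact AddSubgroup.zero_mem _⟩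
    have h5 := (hP g).1 h3 0 h4
    rw [zero_add] at h5
    exact P1_mem_st.1 h5
  · exfalso
    have hRP : R ≤ P := by
      intro y hy
      rw [hP]
      intro x hx
      obtain ⟨a, ha, hxa⟩ := P1_mem_st.1 hx
      have h6 : a ∈ st (FS s f) (gen (s.filter fun k => f k ∈ R) f) :=
        P1_mem_st.2 ⟨a, ha, by rw [sub_self]; exact AddSubgroup.zero_mem _⟩
      obtain ⟨b, hb, hab⟩ := P1_mem_st.1 ((hR.2 y).1 hy a h6)
      refine P1_mem_st.2 ⟨b, hb, ?_⟩
      have h7 : x + y - b = (x - a) + (a + y - b) := by abel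
      rw [h7]
      exact AddSubgroup.add_mem _ hxa (hsub hab)
    have h8 : Nat.card P ≤ Nat.card R := hmax ⟨P, hC⟩
    have h9 : R = P := by
      apply SetLike.coe_injective
      exact Set.eq_of_subset_of_ncard_le (fun x hx => hRP hx) h8 (Set.toFinite _)
    exact hiR (h9 ▸ hiP)

theorem one_member_cyc {H ι : Type} [AddCommGroup H] (s : Finset ι) (f : ι → H)
    (h : s.card ≤ 1) (hg : gen s f = ⊤) : IsAddCyclic H := by
  rcases Nat.lt_or_ge s.card 1 with h1 | h1
  · have h2 : s = ∅ := by
      rw [← Finset.card_eq_zero]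
      omega
    apply cyc_of_le (0 : H)
    rw [← hg, h2]
    simp [gen]
  · obtain ⟨k, hk⟩ := Finset.card_eq_one.1 (by omega : s.card = 1)
    apply cyc_of_le (f k)
    rw [← hg, hk]
    unfold gen
    rw [AddSubgroup.closure_le]
    rintro _ ⟨i, hi, rfl⟩
    rw [mem_coe, mem_singleton] at hi
    subst hi
    exact AddSubgroup.mem_zmultiples _

/-- **Theorem S.** -/
theorem thm_S (h : ℕ) (hh : 2 ≤ h) (t : ℕ) : ∀ (G ι : Type) [AddCommGroup G] [Finite G]
    (s : Finset ι) (f : ι → G), s.card = t → (∀ i ∈ s, f i ≠ 0) → Cap (2 * h) s f →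
    Aper (FS s f) → gen s f = ⊤ → ¬ IsAddCyclic G →
      2 * cf (2 * h) (t - 1) ≤ (FS s f).card ∨ 2 * l0 G ≤ (FS s f).card := by
  induction t with
  | zero =>
    intro G ι _ _ s f hs _ _ _ hg hcyc
    exact absurd (one_member_cyc s f (by omega) hg) hcyc
  | succ t ih =>
    intro G ι _ _ s f hs h0 hcap hA hg hcyc
    by_contra hcon
    push Not at hcon
    obtain ⟨hc1, hc2⟩ := hcon
    rw [Nat.add_sub_cancel] at hc1
    have hcard : ∀ i ∈ s, (s.erase i).card = t := by
      intro i hi
      rw [card_erase_of_mem hi, hs, Nat.add_sub_cancel]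
    have hAe : ∀ i, Aper (FS (s.erase i) f) := fun i =>
      (all_Ba1 G ι f).2.1 s (s.erase i) (erase_subset _ _) hA
    have h0e : ∀ i, ∀ k ∈ s.erase i, f k ≠ 0 := fun i k hk => h0 k (erase_subset _ _ hk)
    have hce : ∀ i, Cap (2 * h) (s.erase i) f := fun i x =>
      (card_le_card (filter_subset_filter _ (erase_subset _ _))).trans (hcap x)
    have hge : ∀ i ∈ s, gen (s.erase i) f = ⊤ := by
      intro i hi
      rw [← hg]
      apply (all_Ba1 G ι f).2.2.2.2.2.1 s i hi
      by_contra hne
      have h3 := (all_Ba1 G ι f).2.2.2.1 s i hi hne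
      have h4 := (all_main t).2 h hh G ι (s.erase i) f (hcard i hi) (h0e i) (hce i) (hAe i)
      omega
    have hbt : (⊥ : AddSubgroup G) ≠ ⊤ := by
      intro hbt
      apply hcyc
      apply cyc_of_le (0 : G)
      rw [← hbt]
      exact bot_le
    have hs2 : 2 ≤ s.card := (two_le_card hbt hge hg).trans (card_le_card (filter_subset _ _))
    have hmono : ∀ i, (FS (s.erase i) f).card ≤ (FS s f).card := fun i =>
      card_le_card (FS_mono (erase_subset _ _) f)
    have hlow : ∀ i ∈ s, 2 * cf (2 * h) (t - 1) ≤ (FS (s.erase i) f).card := by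
      intro i hi
      rcases ih G ι (s.erase i) f (hcard i hi) (h0e i) (hce i) (hAe i) (hge i hi) hcyc with h5 | h5
      · exact h5
      · have := hmono i
        omega
    obtain ⟨a, ha⟩ : ∃ a, a = (t - 1) / (2 * h) + 1 := ⟨_, rfl⟩
    have hstep : cf (2 * h) t = cf (2 * h) (t - 1) + a := by
      have h1 := thm_Nm1.1 (2 * h) (t - 1)
      rw [Nat.sub_add_cancel (by omega)] at h1
      rw [h1, ha]
      ring
    have ha0 : 2 * h * (a - 1) + 2 ≤ t + 1 := by
      rw [ha, Nat.add_sub_cancel]
      have := Nat.mul_div_le (t - 1) (2 * h)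
      omega
    have ha1 : t + 1 ≤ 2 * h * a + 1 := by
      have h1 := Nat.lt_mul_div_succ (t - 1) (by omega : 0 < 2 * h)
      rw [← ha] at h1
      omega
    have ha2 : 1 ≤ a := by
      rw [ha]
      exact Nat.le_add_left 1 _
    have hlam : ∀ i ∈ s, lam (FS s f) (f i) ≤ 2 * a - 1 := by
      intro i hi
      have h3 := (all_Ba1 G ι f).2.2.1 s i hi
      have h4 := hlow i hi
      omega
    obtain ⟨R, hC, hR⟩ := max_cand h0 hA hbt
    obtain ⟨i, hi⟩ : (s.filter fun i => f i ∉ R).Nonempty := by
      rw [← card_pos]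
      have := two_le_card hC.1 hge hg
      omega
    obtain ⟨his, hiR⟩ := mem_filter.1 hi
    have hfull := hR i his hiR
    by_cases hbot : R = ⊥
    · -- `T + ⟨f i⟩` is everything
      subst hbot
      have h2 : (s.filter fun k => f k ∈ (⊥ : AddSubgroup G)) = ∅ := by
        rw [Finset.filter_eq_empty_iff]
        intro k hk h
        exact h0 k hk ((AddSubgroup.mem_bot).1 h)
      rw [h2] at hfull
      have hLs := gen_self s f (insert i ∅) (insert_subset his (empty_subset _))
      obtain ⟨-, h3⟩ := all_Pc G ι s f (gen (insert i ∅) f) (2 * a - 1) h0 hA hLs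
        (fun k hk _ => hlam k hk)
      have h4 : (st (FS s f) (gen (insert i ∅) f)).card = Nat.card G := by
        have := Fintype.ofFinite G
        rw [Nat.card_eq_fintype_card, ← Finset.card_univ]
        congr 1
        rw [Finset.eq_univ_iff_forall]
        intro g
        exact P1_mem_st.2 (hfull g)
      have h5 : Nat.card (gen (insert i ∅) f) ≤ AddMonoid.exponent G := by
        have h6 : gen (insert i ∅) f ≤ AddSubgroup.zmultiples (f i) := by
          unfold gen
          rw [AddSubgroup.closure_le]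
          rintro _ ⟨k, hk, rfl⟩
          rw [mem_coe, mem_insert] at hk
          rcases hk with rfl | hk
          · exact AddSubgroup.mem_zmultiples _
          · exact absurd hk (notMem_empty _)
        refine (AddSubgroup.card_le_of_le h6).trans ?_
        rw [Nat.card_zmultiples]
        exact Nat.le_of_dvd (exp_pos G) (AddMonoid.addOrder_dvd_exponent _)
      have h6 : 2 ≤ (FS (s.filter fun k => f k ∈ gen (insert i ∅) f) f).card := by
        have h7 := (all_Sm G ι (s.filter fun k => f k ∈ gen (insert i ∅) f) f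
          (fun k hk => h0 k (filter_subset _ _ hk))
          ((all_Ba1 G ι f).2.1 s _ (filter_subset _ _) hA)).1
        have h8 : 1 ≤ (s.filter fun k => f k ∈ gen (insert i ∅) f).card :=
          card_pos.2 ⟨i, mem_filter.2 ⟨his, P1_mem_gen (mem_insert_self i ∅)⟩⟩
        omega
      rw [h4, ← l0_mul G] at h3
      have h9 : l0 G * AddMonoid.exponent G * 2 ≤ AddMonoid.exponent G * (FS s f).card :=
        (Nat.mul_le_mul_left _ h6).trans (h3.trans (Nat.mul_le_mul_right _ h5))
      have h10 : AddMonoid.exponent G * (2 * l0 G) ≤ AddMonoid.exponent G * (FS s f).card := by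
        refine le_trans (le_of_eq ?_) h9
        ring
      have h11 := Nat.le_of_mul_le_mul_left h10 (exp_pos G)
      omega
    · obtain ⟨H, _, _, π, hπs, hπk, hπc⟩ := q_exists G R
      obtain ⟨d1, d2, d3, d4, d5⟩ := Cd_data hπs hπk hC h0 hA (2 * a - 1) hlam
      obtain ⟨d6, d7⟩ := d5 hbot
      have hu := two_le_card hC.1 hge hg
      have huv : (s.filter fun i => f i ∉ R).card + (s.filter fun i => f i ∈ R).card = t + 1 := by
        rw [← hs, add_comm]
        exact Finset.card_filter_add_card_filter_not (s := s) (fun i => f i ∈ R)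
      have hsubR : (s.filter fun i => f i ∈ R) ⊆ s := filter_subset _ _
      have hAR : Aper (FS (s.filter fun i => f i ∈ R) f) := (all_Ba1 G ι f).2.1 _ _ hsubR hA
      have hYR : cf (2 * h) (s.filter fun i => f i ∈ R).card ≤
          (FS (s.filter fun i => f i ∈ R) f).card :=
        (all_main _).2 h hh G ι (s.filter fun i => f i ∈ R) f rfl (fun k hk => h0 k (hsubR hk))
          (fun x => (card_le_card (filter_subset_filter _ hsubR)).trans (hcap x)) hAR
      have hqg : gen (s.filter fun i => f i ∉ R) (fun i => π (f i)) = ⊤ := q_gen s f hπs hπk hg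
      have hqn := q_ne s f hπk
      -- the names
      obtain ⟨u, hu'⟩ : ∃ u, u = (s.filter fun i => f i ∉ R).card := ⟨_, rfl⟩
      obtain ⟨v, hv'⟩ : ∃ v, v = (s.filter fun i => f i ∈ R).card := ⟨_, rfl⟩
      obtain ⟨Y, hY'⟩ : ∃ Y, Y = (FS (s.filter fun i => f i ∈ R) f).card := ⟨_, rfl⟩
      obtain ⟨Q, hQ'⟩ : ∃ Q, Q = (FS (s.filter fun i => f i ∉ R) (fun i => π (f i))).card :=
        ⟨_, rfl⟩
      obtain ⟨r, hr'⟩ : ∃ r, r = Nat.card R := ⟨_, rfl⟩
      have hSm := (all_Sm H ι (s.filter fun i => f i ∉ R) (fun i => π (f i)) hqn d1).1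
      rw [← hY', ← hQ', ← hr'] at d2
      rw [← hY', ← hQ'] at d3
      rw [← hv', ← hY'] at d4
      rw [← hv'] at d6
      rw [← hY', ← hr'] at d7
      rw [← hu'] at hu hSm
      rw [← hu', ← hv'] at huv
      rw [← hv', ← hY'] at hYR
      rw [← hQ'] at hSm
      rw [← hr'] at hπc
      by_cases hHc : IsAddCyclic H
      · -- cyclic quotient
        have h1 : l0 G ≤ r := by
          apply l0_le
          rw [hπc]
          refine Nat.mul_le_mul_left r ?_
          rw [← IsAddCyclic.exponent_eq_card (α := H)]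
          exact Nat.le_of_dvd (exp_pos G) (AddMonoidHom.exponent_dvd hπs)
        rcases Nat.lt_or_ge (2 * a - 1) u with h2 | h2
        · have h3 : r * (u + 1) ≤ (FS s f).card + (u - 1) * r := by
            refine (Nat.mul_le_mul_left r hSm).trans (d2.trans ?_)
            refine Nat.add_le_add_left ?_ _
            exact Nat.mul_le_mul (by omega) (Nat.sub_le _ _)
          have h4 : r * (u + 1) = (u - 1) * r + 2 * r := by
            obtain ⟨w, rfl⟩ : ∃ w, u = w + 1 := ⟨u - 1, by omega⟩
            rw [Nat.add_sub_cancel]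
            ring
          omega
        · have h3 := thm_N1 h (t + 1) a u hh ha0 ha1 ha2 hu h2
          have h4 : t + 1 - u = v := by omega
          rw [h4, Nat.add_sub_cancel] at h3
          have h5 : (u + 1) * cf (2 * h) v ≤ Q * Y := Nat.mul_le_mul hSm hYR
          omega
      · -- noncyclic quotient
        have hu3 : 3 ≤ u := by
          by_contra hcon
          apply hHc
          have h1 := q_gen (s.erase i) f hπs hπk (hge i his)
          refine one_member_cyc _ _ ?_ h1
          have h2 : ((s.erase i).filter fun k => f k ∉ R) = (s.filter fun k => f k ∉ R).erase i := by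
            ext k
            simp only [mem_filter, mem_erase]
            tauto
          rw [h2, card_erase_of_mem hi]
          omega
        have hL2 := thm_Lin2 H ι (s.filter fun i => f i ∉ R) (fun i => π (f i)) hqn d1 hqg hHc
        rw [← hu', ← hQ'] at hL2
        -- the quotient
        have hYpos : 0 < Y := by omega
        have hlam' : ∀ k ∈ s.filter (fun i => f i ∉ R),
            lam (FS (s.filter fun i => f i ∉ R) (fun i => π (f i))) (π (f k)) ≤ (2 * a - 1) / Y := by
          intro k hk
          rw [Nat.le_div_iff_mul_le hYpos, hY']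
          exact (q_lam s f hπk (f k)).trans (hlam k (mem_filter.1 hk).1)
        have hL'g : gen ((s.filter fun i => f i ∉ R).filter fun k =>
            π (f k) ∈ AddSubgroup.zmultiples (π (f i))) (fun i => π (f i)) =
            AddSubgroup.zmultiples (π (f i)) := by
          refine le_antisymm (P1_gen_le _ _ _) ?_
          rw [AddSubgroup.zmultiples_le]
          exact P1_mem_gen (f := fun i => π (f i))
            (mem_filter.2 ⟨hi, AddSubgroup.mem_zmultiples _⟩)
        obtain ⟨hp1, -⟩ := all_Pc H ι (s.filter fun i => f i ∉ R) (fun i => π (f i))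
          (AddSubgroup.zmultiples (π (f i))) ((2 * a - 1) / Y) hqn d1 hL'g
          (fun k hk _ => hlam' k hk)
        have hst : (st (FS (s.filter fun i => f i ∉ R) (fun i => π (f i)))
            (AddSubgroup.zmultiples (π (f i)))).card = Nat.card H := by
          have := Fintype.ofFinite H
          rw [Nat.card_eq_fintype_card, ← Finset.card_univ]
          congr 1
          rw [Finset.eq_univ_iff_forall]
          intro y
          obtain ⟨g, rfl⟩ := hπs y
          obtain ⟨b, hb, hgb⟩ := hfull g
          refine P1_mem_st.2 ⟨π b, ?_, ?_⟩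
          · rw [q_image s f hπk]
            exact mem_image_of_mem π hb
          · rw [← map_sub]
            have h1 : gen (insert i (s.filter fun k => f k ∈ R)) f ≤
                (AddSubgroup.zmultiples (π (f i))).comap π := by
              unfold gen
              rw [AddSubgroup.closure_le]
              rintro _ ⟨k, hk, rfl⟩
              rw [mem_coe, mem_insert, mem_filter] at hk
              rw [SetLike.mem_coe, AddSubgroup.mem_comap]
              rcases hk with rfl | ⟨-, hk⟩
              · exact AddSubgroup.mem_zmultiples _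
              · rw [(hπk _).2 hk]
                exact AddSubgroup.zero_mem _
            exact h1 hgb
        rw [hst, ← hQ'] at hp1
        -- the order of the member of the quotient
        have hLb : AddSubgroup.zmultiples (π (f i)) ≠ ⊥ := by
          intro hb
          have h1 : π (f i) ∈ AddSubgroup.zmultiples (π (f i)) := AddSubgroup.mem_zmultiples _
          rw [hb, AddSubgroup.mem_bot] at h1
          exact hqn i hi h1
        obtain ⟨Y', hY''⟩ : ∃ Y', Y' = (FS ((s.filter fun i => f i ∉ R).filter fun k =>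
            π (f k) ∈ AddSubgroup.zmultiples (π (f i))) (fun i => π (f i))).card := ⟨_, rfl⟩
        have hsub' : ((s.filter fun i => f i ∉ R).filter fun k =>
            π (f k) ∈ AddSubgroup.zmultiples (π (f i))) ⊆ s.filter fun i => f i ∉ R :=
          filter_subset _ _
        have hA' := (all_Ba1 H ι (fun i => π (f i))).2.1 _ _ hsub' d1
        have hY2 : 2 ≤ Y' := by
          have h7 := (all_Sm H ι _ (fun i => π (f i)) (fun k hk => hqn k (hsub' hk)) hA').1
          have h8 : 1 ≤ ((s.filter fun i => f i ∉ R).filter fun k =>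
            π (f k) ∈ AddSubgroup.zmultiples (π (f i))).card :=
            card_pos.2 ⟨i, mem_filter.2 ⟨hi, AddSubgroup.mem_zmultiples _⟩⟩
          rw [hY'']
          omega
        have hY3 : Y' + 1 ≤ Nat.card (AddSubgroup.zmultiples (π (f i))) := by
          rw [hY'']
          exact (all_Kn H).2.2.2 _ _ ⟨0, zero_mem_FS _ _⟩ hLb
            (fun x hx => FS_subset_of_mem (fun k hk => (mem_filter.1 hk).2) hx) hA'
        rw [← hY''] at hp1
        obtain ⟨μ, hμ⟩ : ∃ μ, μ = Nat.card (AddSubgroup.zmultiples (π (f i))) := ⟨_, rfl⟩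
        rw [← hμ] at hp1 hY3
        obtain ⟨m, hm⟩ := AddSubgroup.card_addSubgroup_dvd_card (AddSubgroup.zmultiples (π (f i)))
        rw [← hμ] at hm
        have hμe : μ ≤ AddMonoid.exponent G := by
          rw [hμ, Nat.card_zmultiples]
          exact Nat.le_of_dvd (exp_pos G) ((AddMonoid.addOrder_dvd_exponent _).trans
            (AddMonoidHom.exponent_dvd hπs))
        have hl : l0 G ≤ r * m := by
          apply l0_le
          rw [hπc, hm]
          calc r * (μ * m) = r * m * μ := by ring
            _ ≤ r * m * AddMonoid.exponent G := Nat.mul_le_mul_left _ hμe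
        have h1 : μ * m ≤ Q + (2 * a - 1) / Y * (μ - 2) := by
          rw [← hm]
          exact hp1.trans (Nat.add_le_add_left (Nat.mul_le_mul_left _ (by omega)) _)
        have h2 := S_num3 r Q (FS s f).card (2 * a - 1) Y ((2 * a - 1) / Y) μ m (l0 G)
          (by omega) (by omega) h1 d2 (by omega) hl
        have h3 : cf (2 * h) (t - 1) < l0 G := by
          have h4 := hlow i his
          have h5 := hmono i
          omega
        have h4 := thm_N2 h (t + 1) a u v r Y (FS s f).card ((2 * a - 1) / Y) hh ha0 ha1 ha2 d6 hu3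
          (by omega) hYR (by omega) (Nat.div_mul_le_self _ _)
          (by
            have h6 : t + 1 - 2 = t - 1 := by omega
            rw [h6]
            omega)
          ((Nat.mul_le_mul_right Y (by omega : 2 * u - 1 ≤ Q)).trans d3)
          ((Nat.mul_le_mul_left r (by omega : 2 * u - 1 ≤ Q)).trans d2)
        rw [Nat.add_sub_cancel] at h4
        omega

end Pool.Agent.SNW
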