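import Pool.Agent.SNW.N12

/-!
# SNW, module Up1 (helper48): finite abelian groups with two generators

`pair_basis`: such a group is `⟨x⟩ ⊕ ⟨y⟩` with `x` of order the exponent.
`pair_cyc`: if `G / H` is cyclic then some pair of generators has a member in `H`.
-/

set_option autoImplicit false

noncomputable section

open Finset
open scoped Classical Pointwise

namespace Pool.Agent.SNW

theorem pow_dvd_lcm_iff {p k a b : ℕ} (hp : p.Prime) (h : p ^ k ∣ Nat.lcm a b) :
    p ^ k ∣ a ∨ p ^ k ∣ b := by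
  rcases Nat.eq_zero_or_pos a with rfl | ha
  · exact Or.inl (dvd_zero _)
  rcases Nat.eq_zero_or_pos b with rfl | hb
  · exact Or.inr (dvd_zero _)
  rw [hp.pow_dvd_iff_le_factorization (Nat.lcm_ne_zero ha.ne' hb.ne'),
    Nat.factorization_lcm ha.ne' hb.ne', Finsupp.sup_apply, le_sup_iff] at h
  rcases h with h | h
  · exact Or.inl ((hp.pow_dvd_iff_le_factorization ha.ne').2 h)
  · exact Or.inr ((hp.pow_dvd_iff_le_factorization hb.ne').2 h)

theorem mem_pair {K : Type} [AddCommGroup K] {x y : K} (h : AddSubgroup.closure {x, y} = ⊤)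
    (z : K) : ∃ i j : ℤ, i • x + j • y = z :=
  AddSubgroup.mem_closure_pair.1 (h ▸ AddSubgroup.mem_top z)

theorem pair_add {K : Type} [AddCommGroup K] {x y : K} (h : AddSubgroup.closure {x, y} = ⊤)
    (k : ℤ) : AddSubgroup.closure {x + k • y, y} = ⊤ := by
  rw [eq_top_iff, ← h, AddSubgroup.closure_le]
  have hy : y ∈ AddSubgroup.closure {x + k • y, y} := AddSubgroup.subset_closure (by simp)
  have hx : x + k • y ∈ AddSubgroup.closure {x + k • y, y} := AddSubgroup.subset_closure (by simp)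
  intro z hz
  rcases hz with rfl | hz
  · have := AddSubgroup.sub_mem _ hx (AddSubgroup.zsmul_mem _ hy k)
    rwa [add_sub_cancel_right] at this
  · rw [Set.mem_singleton_iff] at hz
    rw [hz]
    exact hy

theorem pair_swap {K : Type} [AddCommGroup K] {x y : K} (h : AddSubgroup.closure {x, y} = ⊤) :
    AddSubgroup.closure {y, x} = ⊤ := by
  rw [Set.pair_comm]
  exact h

/-- a generating pair whose first member has order the exponent -/
theorem pair_exp (K : Type) [AddCommGroup K] [Finite K] (a b : K)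
    (h : AddSubgroup.closure {a, b} = ⊤) :
    ∃ x y : K, AddSubgroup.closure {x, y} = ⊤ ∧ addOrderOf x = AddMonoid.exponent K := by
  have : Nonempty {p : K × K // AddSubgroup.closure {p.1, p.2} = ⊤} := ⟨⟨(a, b), h⟩⟩
  obtain ⟨⟨⟨x, y⟩, hxy⟩, hmax⟩ := Finite.exists_max
    fun p : {p : K × K // AddSubgroup.closure {p.1, p.2} = ⊤} => addOrderOf p.1.1
  simp only at hxy hmax
  refine ⟨x, y, hxy, ?_⟩
  have hox : 0 < addOrderOf x := addOrderOf_pos x
  have hoy : 0 < addOrderOf y := addOrderOf_pos y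
  have hexp : AddMonoid.exponent K ∣ Nat.lcm (addOrderOf x) (addOrderOf y) := by
    refine AddMonoid.exponent_dvd_of_forall_nsmul_eq_zero fun z => ?_
    obtain ⟨i, j, rfl⟩ := mem_pair hxy z
    have h1 : Nat.lcm (addOrderOf x) (addOrderOf y) • x = 0 :=
      addOrderOf_dvd_iff_nsmul_eq_zero.1 (Nat.dvd_lcm_left _ _)
    have h2 : Nat.lcm (addOrderOf x) (addOrderOf y) • y = 0 :=
      addOrderOf_dvd_iff_nsmul_eq_zero.1 (Nat.dvd_lcm_right _ _)
    rw [nsmul_add, smul_comm _ i x, smul_comm _ j y, h1, h2, smul_zero, smul_zero, add_zero]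
  by_contra hne
  have hnd : ¬ AddMonoid.exponent K ∣ addOrderOf x :=
    fun h1 => hne (Nat.dvd_antisymm (AddMonoid.addOrder_dvd_exponent x) h1)
  -- a prime power that divides the order of `y` but not that of `x`
  have hnd' : ¬ addOrderOf y ∣ addOrderOf x := fun h1 =>
    hnd (hexp.trans (Nat.lcm_dvd dvd_rfl h1))
  rw [Nat.dvd_iff_prime_pow_dvd_dvd] at hnd'
  push Not at hnd'
  obtain ⟨p, k, hp, hk1, hk2⟩ := hnd'
  obtain ⟨w, m, hm, hw⟩ := Nat.exists_eq_pow_mul_and_not_dvd hoy.ne' p hp.ne_one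
  obtain ⟨u, m', hm', hu⟩ := Nat.exists_eq_pow_mul_and_not_dvd hox.ne' p hp.ne_one
  have hkw : k ≤ w := by
    by_contra hcon
    push Not at hcon
    have h1 : p ^ (w + 1) ∣ addOrderOf y := (pow_dvd_pow p hcon).trans hk1
    rw [hw, pow_succ] at h1
    exact hm (Nat.dvd_of_mul_dvd_mul_left (pow_pos hp.pos w) h1)
  have hwx : ¬ p ^ w ∣ addOrderOf x := fun h1 => hk2 ((pow_dvd_pow p hkw).trans h1)
  have huw : u < w := by
    by_contra hcon
    push Not at hcon
    exact hwx ((pow_dvd_pow p hcon).trans ⟨m', hu⟩)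
  have hm0 : 0 < m := Nat.pos_of_ne_zero fun h1 => hm (h1 ▸ dvd_zero p)
  have hm0' : 0 < m' := Nat.pos_of_ne_zero fun h1 => hm' (h1 ▸ dvd_zero p)
  -- `z = m y` has order `p ^ w`
  have hz : addOrderOf (m • y) = p ^ w := by
    rw [addOrderOf_nsmul_of_dvd hm0.ne' ⟨p ^ w, by rw [hw, mul_comm]⟩, hw,
      Nat.mul_div_cancel _ hm0]
  have hx' := pair_add hxy (m : ℤ)
  rw [natCast_zsmul] at hx'
  have hle := hmax ⟨(x + m • y, y), hx'⟩
  simp only at hle
  obtain ⟨N, hN⟩ : ∃ N, N = addOrderOf (x + m • y) := ⟨_, rfl⟩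
  rw [← hN] at hle
  have hN0 : 0 < N := hN ▸ addOrderOf_pos _
  have h1 : addOrderOf x ∣ Nat.lcm N (p ^ w) := by
    have h2 := (AddCommute.all (x + m • y) (-(m • y))).addOrderOf_add_dvd_lcm
    rw [add_neg_cancel_right, addOrderOf_neg, hz, ← hN] at h2
    exact h2
  have h2 : p ^ w ∣ Nat.lcm N (addOrderOf x) := by
    have h3 := (AddCommute.all (x + m • y) (-x)).addOrderOf_add_dvd_lcm
    rw [add_neg_cancel_comm, addOrderOf_neg, hz, ← hN] at h3
    exact h3
  have h3 : p ^ w ∣ N := (pow_dvd_lcm_iff hp h2).resolve_right hwx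
  have hcop : Nat.Coprime m' (p ^ w) :=
    (Nat.Coprime.pow_left w ((Nat.Prime.coprime_iff_not_dvd hp).2 hm')).symm
  have h4 : m' ∣ N := by
    have h5 : m' ∣ Nat.lcm N (p ^ w) := (Dvd.intro_left (p ^ u) hu.symm).trans h1
    exact hcop.dvd_of_dvd_mul_right (h5.trans (Nat.lcm_dvd_mul _ _))
  have h5 : m' * p ^ w ∣ N := hcop.mul_dvd_of_dvd_of_dvd h4 h3
  have h6 := Nat.le_of_dvd hN0 h5
  have h7 : p ^ u < p ^ w := Nat.pow_lt_pow_right hp.one_lt huw
  have h8 : m' * p ^ u < m' * p ^ w := Nat.mul_lt_mul_of_pos_left h7 hm0'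
  have h9 : addOrderOf x = m' * p ^ u := by rw [hu, mul_comm]
  omega

/-- a basis -/
theorem pair_basis (K : Type) [AddCommGroup K] [Finite K] (a b : K)
    (h : AddSubgroup.closure {a, b} = ⊤) :
    ∃ x y : K, AddSubgroup.closure {x, y} = ⊤ ∧ addOrderOf x = AddMonoid.exponent K ∧
      addOrderOf x * addOrderOf y = Nat.card K ∧
      ∀ i j : ℤ, i • x + j • y = 0 → i • x = 0 ∧ j • y = 0 := by
  obtain ⟨x, y, hxy, hox⟩ := pair_exp K a b h
  obtain ⟨X, hX⟩ : ∃ X, X = AddSubgroup.zmultiples x := ⟨_, rfl⟩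
  obtain ⟨l, hl⟩ : ∃ l, l = addOrderOf (QuotientAddGroup.mk y : K ⧸ X) := ⟨_, rfl⟩
  have hl0 : 0 < l := hl ▸ addOrderOf_pos _
  have hly : (l : ℤ) • y ∈ X := by
    rw [← QuotientAddGroup.eq_zero_iff, QuotientAddGroup.mk_zsmul, natCast_zsmul, hl]
    exact addOrderOf_nsmul_eq_zero _
  rw [hX, AddSubgroup.mem_zmultiples_iff] at hly
  obtain ⟨s, hs⟩ := hly
  have he0 : 0 < addOrderOf x := addOrderOf_pos x
  have hdvd : ∀ j : ℤ, j • y ∈ X → (l : ℤ) ∣ j := by
    intro j hj
    rw [← QuotientAddGroup.eq_zero_iff, QuotientAddGroup.mk_zsmul] at hj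
    rw [hl]
    exact addOrderOf_dvd_iff_zsmul_eq_zero.2 hj
  have hley : l ∣ addOrderOf x := by
    rw [hox]
    have h1 : ((AddMonoid.exponent K : ℕ) : ℤ) • y ∈ X := by
      rw [natCast_zsmul, AddMonoid.exponent_nsmul_eq_zero]
      exact AddSubgroup.zero_mem _
    exact Int.natCast_dvd_natCast.1 (hdvd _ h1)
  obtain ⟨q, hq⟩ := hley
  have hq0 : 0 < q := Nat.pos_of_ne_zero fun h1 => by rw [h1, mul_zero] at hq; omega
  obtain ⟨s', hs'⟩ : (l : ℤ) ∣ s := by
    have h1 : ((q : ℤ) * s) • x = 0 := by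
      rw [mul_smul, hs, ← mul_smul]
      have h2 : (q : ℤ) * l = ((AddMonoid.exponent K : ℕ) : ℤ) := by
        rw [← hox, hq]
        push_cast
        ring
      rw [h2, natCast_zsmul, AddMonoid.exponent_nsmul_eq_zero]
    have h2 := addOrderOf_dvd_iff_zsmul_eq_zero.2 h1
    rw [hq] at h2
    push_cast at h2
    rw [mul_comm] at h2
    exact Int.dvd_of_mul_dvd_mul_left (by exact_mod_cast hq0.ne') h2
  have hy' : AddSubgroup.closure {x, y + (-s') • x} = ⊤ :=
    pair_swap (pair_add (pair_swap hxy) (-s'))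
  have hly' : (l : ℤ) • (y + (-s') • x) = 0 := by
    rw [smul_add, ← hs, ← mul_smul, ← add_smul, hs']
    have : (l : ℤ) * s' + l * -s' = 0 := by ring
    rw [this, zero_smul]
  have hind : ∀ i j : ℤ, i • x + j • (y + (-s') • x) = 0 →
      i • x = 0 ∧ j • (y + (-s') • x) = 0 := by
    intro i j hij
    have h1 : j • y ∈ X := by
      have h2 : j • y = -(i - j * s') • x := by
        rw [smul_add, ← mul_smul] at hij
        rw [neg_smul, sub_smul, eq_neg_iff_add_eq_zero]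
        rw [mul_neg, neg_smul] at hij
        rw [← hij]
        abel
      rw [h2, hX]
      exact AddSubgroup.zsmul_mem_zmultiples x _
    obtain ⟨r, hr⟩ := hdvd j h1
    have h2 : j • (y + (-s') • x) = 0 := by
      rw [hr, mul_comm, mul_smul, hly', smul_zero]
    rw [h2, add_zero] at hij
    exact ⟨hij, h2⟩
  have hoy : addOrderOf (y + (-s') • x) = l := by
    refine Nat.dvd_antisymm ?_ ?_
    · exact Int.natCast_dvd_natCast.1 (addOrderOf_dvd_iff_zsmul_eq_zero.2 hly')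
    · have h1 : ((addOrderOf (y + (-s') • x) : ℕ) : ℤ) • (y + (-s') • x) = 0 := by
        rw [natCast_zsmul]
        exact addOrderOf_nsmul_eq_zero _
      have h2 : ((addOrderOf (y + (-s') • x) : ℕ) : ℤ) • y ∈ X := by
        have h3 : ((addOrderOf (y + (-s') • x) : ℕ) : ℤ) • y =
            (((addOrderOf (y + (-s') • x) : ℕ) : ℤ) * s') • x := by
          generalize ((addOrderOf (y + (-s') • x) : ℕ) : ℤ) = c at h1
          rw [smul_add, ← mul_smul, mul_neg, neg_smul, ← sub_eq_add_neg, sub_eq_zero] at h1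
          exact h1
        rw [h3, hX]
        exact AddSubgroup.zsmul_mem_zmultiples x _
      exact Int.natCast_dvd_natCast.1 (hdvd _ h2)
  refine ⟨x, y + (-s') • x, hy', hox, ?_, hind⟩
  rw [hoy]
  have h1 := AddSubgroup.card_eq_card_quotient_mul_card_addSubgroup X
  have h2 : Nat.card X = addOrderOf x := by rw [hX, Nat.card_zmultiples]
  have h3 : Nat.card (K ⧸ X) = l := by
    rw [hl, ← Nat.card_zmultiples]
    have h4 : AddSubgroup.zmultiples (QuotientAddGroup.mk y : K ⧸ X) = ⊤ := by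
      rw [eq_top_iff]
      intro z _
      obtain ⟨w, rfl⟩ := QuotientAddGroup.mk_surjective z
      obtain ⟨i, j, rfl⟩ := mem_pair hxy w
      rw [QuotientAddGroup.mk_add, QuotientAddGroup.mk_zsmul, QuotientAddGroup.mk_zsmul]
      have h5 : (QuotientAddGroup.mk x : K ⧸ X) = 0 := by
        rw [QuotientAddGroup.eq_zero_iff, hX]
        exact AddSubgroup.mem_zmultiples x
      rw [h5, smul_zero, zero_add]
      exact AddSubgroup.zsmul_mem_zmultiples _ _
    rw [h4, AddSubgroup.card_top]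
  rw [h1, h2, h3, mul_comm]

/-- if `G / H` is cyclic then some generating pair of `G` has a member in `H` -/
theorem pair_cyc (G : Type) [AddCommGroup G] [Finite G] (a b : G)
    (h : AddSubgroup.closure {a, b} = ⊤) (H : AddSubgroup G) (hc : IsAddCyclic (G ⧸ H)) :
    ∃ x y : G, AddSubgroup.closure {x, y} = ⊤ ∧ y ∈ H := by
  obtain ⟨g, hg⟩ := hc.exists_zsmul_surjective
  have hex : ∃ n : ℕ, 0 < n ∧ ∃ x y : G, AddSubgroup.closure {x, y} = ⊤ ∧
      (QuotientAddGroup.mk y : G ⧸ H) = (n : ℤ) • g := by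
    obtain ⟨j, hj⟩ := hg (QuotientAddGroup.mk b : G ⧸ H)
    simp only at hj
    have hN : 0 < Nat.card (G ⧸ H) := Nat.card_pos
    have hjN : 0 ≤ j % (Nat.card (G ⧸ H) : ℤ) := Int.emod_nonneg _ (by exact_mod_cast hN.ne')
    refine ⟨(j % (Nat.card (G ⧸ H) : ℤ)).toNat + Nat.card (G ⧸ H), by omega, a, b, h, ?_⟩
    push_cast
    rw [Int.toNat_of_nonneg hjN, add_smul, natCast_zsmul, card_nsmul_eq_zero', add_zero, ← hj]
    have h1 : j = Nat.card (G ⧸ H) * (j / Nat.card (G ⧸ H)) + j % Nat.card (G ⧸ H) :=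
      (Int.mul_ediv_add_emod _ _).symm
    conv_lhs => rw [h1]
    rw [add_smul, mul_comm, mul_smul, natCast_zsmul, card_nsmul_eq_zero', smul_zero, zero_add]
  obtain ⟨hn0, x, y, hxy, hy⟩ := Nat.find_spec hex
  have hmin : ∀ n < Nat.find hex, ¬ (0 < n ∧ ∃ x y : G, AddSubgroup.closure {x, y} = ⊤ ∧
      (QuotientAddGroup.mk y : G ⧸ H) = (n : ℤ) • g) := fun n hn => Nat.find_min hex hn
  generalize Nat.find hex = n at hn0 hy hmin
  obtain ⟨i, hi⟩ := hg (QuotientAddGroup.mk x : G ⧸ H)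
  simp only at hi
  have hr0 : 0 ≤ i % (n : ℤ) := Int.emod_nonneg _ (by exact_mod_cast hn0.ne')
  have hr1 : i % (n : ℤ) < n := Int.emod_lt_of_pos _ (by exact_mod_cast hn0)
  have hcl : (QuotientAddGroup.mk (x + (-(i / (n : ℤ))) • y) : G ⧸ H) = (i % (n : ℤ)) • g := by
    rw [QuotientAddGroup.mk_add, QuotientAddGroup.mk_zsmul, hy, ← hi, ← mul_smul, ← add_smul]
    congr 1
    have := Int.mul_ediv_add_emod i n
    linarith
  have hgen := pair_swap (pair_add hxy (-(i / (n : ℤ))))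
  refine ⟨y, x + (-(i / (n : ℤ))) • y, hgen, ?_⟩
  rw [← QuotientAddGroup.eq_zero_iff, hcl]
  have h0 : i % (n : ℤ) = 0 := by
    by_contra hne
    refine hmin (i % (n : ℤ)).toNat (by omega) ⟨by omega, y, x + (-(i / (n : ℤ))) • y, hgen, ?_⟩
    rw [hcl, Int.toNat_of_nonneg hr0]
  rw [h0, zero_smul]

end Pool.Agent.SNW
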