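import Pool.Agent.SNW.F1
import Pool.Agent.SNS.Sx

/-!
# SNW, module Fx (helper48): groups with two generators, with the five exceptional pairs

`bd3 G m = bd2 G m`, except `bd3 G m = |G| - 1` for `(|G|, exp G, m)` in the list `exl`.
`thm_Fin3`: the final statement from `M1P` for the noncyclic quotients and `NFP3`.
-/

set_option autoImplicit false

noncomputable section

open Finset Pool.Agent.Helper64.Rho
open scoped Classical Pointwise

namespace Pool.Agent.SNW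

open Pool.Agent.SDG

/-- `(|G|, exp G, m)` for the five exceptions `Z_2 × Z_4, Z_3 × Z_3, Z_4 × Z_4, Z_3 × Z_6, Z_4 × Z_8` -/
def exl (n e m : ℕ) : Prop :=
  (n = 8 ∧ e = 4 ∧ m = 4) ∨ (n = 9 ∧ e = 3 ∧ m = 4) ∨ (n = 16 ∧ e = 4 ∧ m = 6) ∨
    (n = 18 ∧ e = 6 ∧ m = 7) ∨ (n = 32 ∧ e = 8 ∧ m = 10)

/-- the bound with the exceptions -/
def bd3 (G : Type) [AddCommGroup G] (m : ℕ) : ℕ :=
  if exl (Nat.card G) (AddMonoid.exponent G) m then Nat.card G - 1 else bd2 G m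

theorem cf_le_cf {g a b : ℕ} (h : a ≤ b) : cf g a ≤ cf g b := all_Nm1.2.2.2.1 _ _ _ h

/-- in the exceptional cases all values are at least `|G|` -/
theorem ex_val (n l m d : ℕ) (hn : (n = 8 ∧ l = 2 ∧ m = 4) ∨ (n = 9 ∧ l = 3 ∧ m = 4) ∨
    (n = 16 ∧ l = 4 ∧ m = 6) ∨ (n = 18 ∧ l = 3 ∧ m = 7) ∨ (n = 32 ∧ l = 4 ∧ m = 10))
    (hd : d ∣ n) (hdn : d ≠ n) :
    (l ≤ d → n ≤ d * cf (2 * d) (max 1 (m + 1 - d))) ∧
      (2 ≤ d → n ≤ 2 * d * cf (2 * d) (max 1 (m - d))) ∧ n ≤ pn m := by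
  have hd2 : d ≤ n := Nat.le_of_dvd (by omega) hd
  rcases hn with ⟨rfl, rfl, rfl⟩ | ⟨rfl, rfl, rfl⟩ | ⟨rfl, rfl, rfl⟩ | ⟨rfl, rfl, rfl⟩ |
    ⟨rfl, rfl, rfl⟩
  · interval_cases d <;> revert hd hdn <;> decide
  · interval_cases d <;> revert hd hdn <;> decide
  · interval_cases d <;> revert hd hdn <;> decide
  · interval_cases d <;> revert hd hdn <;> decide
  · interval_cases d <;> revert hd hdn <;> decide

theorem ex_bd2 (G : Type) [AddCommGroup G] [Finite G] (m : ℕ)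
    (h : exl (Nat.card G) (AddMonoid.exponent G) m) : bd2 G m = Nat.card G := by
  apply le_antisymm (bd2_le_card m)
  refine le_csInf ⟨_, Or.inl rfl⟩ ?_
  rintro v (rfl | ⟨H, hH, rfl⟩)
  · exact le_rfl
  have hl : Nat.card G = 8 ∧ l0 G = 2 ∧ m = 4 ∨ Nat.card G = 9 ∧ l0 G = 3 ∧ m = 4 ∨
    Nat.card G = 16 ∧ l0 G = 4 ∧ m = 6 ∨ Nat.card G = 18 ∧ l0 G = 3 ∧ m = 7 ∨
      Nat.card G = 32 ∧ l0 G = 4 ∧ m = 10 := by
    unfold l0
    rcases h with ⟨h1, h2, h3⟩ | ⟨h1, h2, h3⟩ | ⟨h1, h2, h3⟩ | ⟨h1, h2, h3⟩ | ⟨h1, h2, h3⟩ <;>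
      simp [h1, h2, h3]
  have hdn : Nat.card H ≠ Nat.card G := by
    intro h1
    exact hH (AddSubgroup.eq_top_of_card_eq H h1)
  obtain ⟨h1, h2, h3⟩ := ex_val _ _ _ _ hl (AddSubgroup.card_addSubgroup_dvd_card H) hdn
  unfold val2
  by_cases hc : IsAddCyclic (G ⧸ H)
  · rw [if_pos hc]
    refine h1 ?_
    have h4 := AddSubgroup.card_eq_card_quotient_mul_card_addSubgroup H
    obtain ⟨g, hg⟩ := hc.exists_zsmul_surjective
    have h5 : addOrderOf g = Nat.card (G ⧸ H) := addOrderOf_eq_card_of_forall_mem_zmultiples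
      (fun x => by
        obtain ⟨k, hk⟩ := hg x
        exact ⟨k, hk⟩)
    obtain ⟨x, rfl⟩ := QuotientAddGroup.mk_surjective g
    have h6 : Nat.card (G ⧸ H) ∣ AddMonoid.exponent G := by
      rw [← h5]
      apply addOrderOf_dvd_of_nsmul_eq_zero
      rw [← QuotientAddGroup.mk_nsmul, AddMonoid.exponent_nsmul_eq_zero]
      rfl
    have h7 : Nat.card (G ⧸ H) ≤ AddMonoid.exponent G := Nat.le_of_dvd (exp_pos G) h6
    unfold l0
    rw [h4]
    have h8 : Nat.card (G ⧸ H) * Nat.card H / AddMonoid.exponent G ≤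
        AddMonoid.exponent G * Nat.card H / AddMonoid.exponent G :=
      Nat.div_le_div_right (Nat.mul_le_mul_right _ h7)
    rwa [Nat.mul_div_cancel_left _ (exp_pos G)] at h8
  · rw [if_neg hc]
    by_cases hb : H = ⊥
    · rw [if_pos hb]
      exact h3
    · rw [if_neg hb]
      refine h2 ?_
      have h5 : Nat.card H ≠ 1 := fun h6 => hb (AddSubgroup.eq_bot_of_card_eq H h6)
      have h6 : 0 < Nat.card H := Nat.card_pos
      omega

theorem bd3_le_bd2 (G : Type) [AddCommGroup G] [Finite G] (m : ℕ) : bd3 G m ≤ bd2 G m := by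
  unfold bd3
  by_cases h : exl (Nat.card G) (AddMonoid.exponent G) m
  · rw [if_pos h, ex_bd2 G m h]
    omega
  · rw [if_neg h]

/-- the almost full case, with the exceptions -/
def NFP3 (G : Type) [AddCommGroup G] [Finite G] : Prop :=
  ∀ A : Finset G, (0 : G) ∉ A → 1 ≤ A.card → AddSubgroup.closure (A : Set G) = ⊤ →
    Aper (FS A id) → (FS A id).card < pn A.card →
      Nat.card G ≤ (FS A id).card + jj A.card * (jj A.card - 1) → bd3 G A.card ≤ (FS A id).card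

theorem thm_Lo3 (G : Type) [AddCommGroup G] [Finite G]
    (hM : ∀ P : AddSubgroup G, ¬ IsAddCyclic (G ⧸ P) → M1P (G ⧸ P) (l0 (G ⧸ P) - 1))
    (hM1 : ¬ IsAddCyclic G → M1P G (l0 G - 1))
    (hF : ¬ IsAddCyclic G → NFP3 G) (A : Finset G) (h0 : (0 : G) ∉ A) (hA : 1 ≤ A.card)
    (hgen : AddSubgroup.closure (A : Set G) = ⊤) : bd3 G A.card ≤ (FS A id).card := by
  by_cases hn : ¬ IsAddCyclic G ∧ Aper (FS A id)
  · rcases thm_F1x G hn.1 (hM1 hn.1) A h0 hA hgen hn.2 with h1 | ⟨h1, h2⟩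
    · exact (bd3_le_bd2 G _).trans h1
    · exact hF hn.1 A h0 hA hgen hn.2 h1 h2
  · exact (bd3_le_bd2 G _).trans
      (thm_Lo2x G hM A (fun h1 h2 => absurd ⟨h1, h2⟩ hn) h0 hA hgen)

/-- the five sporadic sets -/
theorem ex_up (G : Type) [AddCommGroup G] [Finite G] (a b : G)
    (hab : AddSubgroup.closure {a, b} = ⊤) (m : ℕ)
    (h : exl (Nat.card G) (AddMonoid.exponent G) m) :
    ∃ A : Finset G, (0 : G) ∉ A ∧ A.card = m ∧ AddSubgroup.closure (A : Set G) = ⊤ ∧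
      (FS A id).card = Nat.card G - 1 := by
  obtain ⟨d, e, hd, he, hde, hee, hn, ⟨i⟩⟩ := Pool.Agent.SNS.pair_iso G a b hab
  rcases h with ⟨h1, h2, h3⟩ | ⟨h1, h2, h3⟩ | ⟨h1, h2, h3⟩ | ⟨h1, h2, h3⟩ | ⟨h1, h2, h3⟩ <;>
    rw [h2] at hee <;> subst hee <;> rw [h1] at hn <;> subst h3 <;> rw [h1]
  · obtain rfl : d = 2 := by omega
    exact Pool.Agent.SNS.ex_2_4 G i
  · obtain rfl : d = 3 := by omega
    exact Pool.Agent.SNS.ex_3_3 G i
  · obtain rfl : d = 4 := by omega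
    exact Pool.Agent.SNS.ex_4_4 G i
  · obtain rfl : d = 3 := by omega
    exact Pool.Agent.SNS.ex_3_6 G i
  · obtain rfl : d = 4 := by omega
    exact Pool.Agent.SNS.ex_4_8 G i

/-- **The final statement** from `M1P` and `NFP3`. -/
theorem thm_Fin3 (G : Type) [AddCommGroup G] [Finite G] (a b : G)
    (hab : AddSubgroup.closure {a, b} = ⊤)
    (hM : ∀ P : AddSubgroup G, ¬ IsAddCyclic (G ⧸ P) → M1P (G ⧸ P) (l0 (G ⧸ P) - 1))
    (hM1 : ¬ IsAddCyclic G → M1P G (l0 G - 1))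
    (hF : ¬ IsAddCyclic G → NFP3 G) (m : ℕ) (hm : 1 ≤ m) :
    ((sizes G m).Nonempty ↔ m < Nat.card G ∧ (¬ IsAddCyclic G → 2 ≤ m)) ∧
      (m < Nat.card G → (¬ IsAddCyclic G → 2 ≤ m) → rho G m = bd3 G m) := by
  have hlow : ∀ k ∈ sizes G m, bd3 G m ≤ k := by
    rintro k ⟨A, h0, hA, hgen, rfl⟩
    rw [ncard_subsetSums]
    subst hA
    exact thm_Lo3 G hM hM1 hF A h0 hm hgen
  refine ⟨⟨?_, ?_⟩, ?_⟩
  · rintro ⟨k, A, h0, hA, hgen, -⟩
    constructor
    · have := Fintype.ofFinite G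
      rw [← hA, Nat.card_eq_fintype_card]
      exact Finset.card_lt_univ_of_notMem h0
    · intro hnc
      by_contra h1
      refine hnc (one_member_cyc A (id : G → G) (by omega) ?_)
      rw [gen_id]
      exact hgen
  · rintro ⟨h1, h2⟩
    exact (rho_le_bd2 G a b hab m hm h1 h2).1
  · intro h1 h2
    obtain ⟨h3, h4⟩ := rho_le_bd2 G a b hab m hm h1 h2
    refine le_antisymm ?_ (hlow _ (Nat.sInf_mem h3))
    by_cases hx : exl (Nat.card G) (AddMonoid.exponent G) m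
    · obtain ⟨A, hA0, hAm, hAg, hA⟩ := ex_up G a b hab m hx
      have h5 : (subsetSums A).ncard ∈ sizes G m := ⟨A, hA0, hAm, hAg, rfl⟩
      have h6 : rho G m ≤ (subsetSums A).ncard := Nat.sInf_le h5
      rw [ncard_subsetSums, hA] at h6
      unfold bd3
      rwa [if_pos hx]
    · unfold bd3
      rwa [if_neg hx]

end Pool.Agent.SNW
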