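import Pool.Agent.SNW.Up3

/-!
# SNW, module Eq (helper48): a cyclic quotient whose order is the exponent
-/

set_option autoImplicit false

noncomputable section

open Finset
open scoped Classical Pointwise

namespace Pool.Agent.SNW

open Pool.Agent.SDG

/-- Every finite abelian group has a cyclic quotient whose order is the exponent. -/
theorem exp_quot (K : Type) [AddCommGroup K] [Finite K] :
    ∃ L : AddSubgroup K, IsAddCyclic (K ⧸ L) ∧ Nat.card L = l0 K := by
  obtain ⟨x, hx⟩ := AddMonoid.exists_addOrderOf_eq_exponent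
    (AddMonoid.ExponentExists.of_finite (G := K))
  obtain ⟨e, he⟩ : ∃ e, e = AddMonoid.exponent K := ⟨_, rfl⟩
  have he0 : 0 < e := he ▸ exp_pos K
  -- a maximal complement
  have hne : Nonempty {L : AddSubgroup K // ∀ z ∈ L, z ∈ AddSubgroup.zmultiples x → z = 0} :=
    ⟨⟨⊥, fun z hz _ => (AddSubgroup.mem_bot).1 hz⟩⟩
  obtain ⟨⟨L, hL⟩, hmax⟩ := Finite.exists_max
    fun L : {L : AddSubgroup K // ∀ z ∈ L, z ∈ AddSubgroup.zmultiples x → z = 0} =>
      Nat.card L.1
  simp only at hL hmax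
  have hsup : AddSubgroup.zmultiples x ⊔ L = ⊤ := by
    by_contra hcon
    obtain ⟨z, hz⟩ : ∃ z, z ∉ AddSubgroup.zmultiples x ⊔ L := by
      by_contra h1
      push Not at h1
      exact hcon (eq_top_iff.2 fun z _ => h1 z)
    -- the least `n` with `n z` in the sum
    have hex : ∃ n : ℕ, 0 < n ∧ n • z ∈ AddSubgroup.zmultiples x ⊔ L :=
      ⟨addOrderOf z, addOrderOf_pos z, by
        rw [addOrderOf_nsmul_eq_zero]; exact AddSubgroup.zero_mem _⟩
    obtain ⟨hn0, hn⟩ := Nat.find_spec hex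
    have hmin : ∀ k < Nat.find hex, ¬ (0 < k ∧ k • z ∈ AddSubgroup.zmultiples x ⊔ L) :=
      fun k hk => Nat.find_min hex hk
    generalize Nat.find hex = n at hn0 hn hmin
    -- divisibility
    have hdvd : ∀ k : ℤ, k • z ∈ AddSubgroup.zmultiples x ⊔ L → (n : ℤ) ∣ k := by
      intro k hk
      have h1 : 0 ≤ k % (n : ℤ) := Int.emod_nonneg _ (by exact_mod_cast hn0.ne')
      have h2 : k % (n : ℤ) < n := Int.emod_lt_of_pos _ (by exact_mod_cast hn0)
      have h3 : (k % (n : ℤ)) • z ∈ AddSubgroup.zmultiples x ⊔ L := by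
        have h4 : k % (n : ℤ) = k - (k / n) * n := by
          have := Int.mul_ediv_add_emod k n
          linarith
        rw [h4, sub_smul, mul_smul, natCast_zsmul]
        exact AddSubgroup.sub_mem _ hk (AddSubgroup.zsmul_mem _ hn _)
      by_contra h4
      have h5 : k % (n : ℤ) ≠ 0 := fun h6 => h4 (Int.dvd_of_emod_eq_zero h6)
      refine hmin (k % (n : ℤ)).toNat (by omega) ⟨by omega, ?_⟩
      rw [← natCast_zsmul, Int.toNat_of_nonneg h1]
      exact h3
    have hne : (n : ℤ) ∣ e := hdvd e (by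
      rw [natCast_zsmul, he, AddMonoid.exponent_nsmul_eq_zero]
      exact AddSubgroup.zero_mem _)
    obtain ⟨q, hq⟩ := hne
    rw [AddSubgroup.mem_sup] at hn
    obtain ⟨y, hy, l, hl, hyl⟩ := hn
    obtain ⟨k, rfl⟩ := AddSubgroup.mem_zmultiples_iff.1 hy
    have hez : (e : ℤ) • z = 0 := by
      rw [natCast_zsmul, he, AddMonoid.exponent_nsmul_eq_zero]
    have hqk : q • (k • x) = 0 := by
      refine hL _ ?_ ?_
      · have h1 : q • (k • x) = -(q • l) := by
          have h2 : q • (n • z) = 0 := by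
            rw [← natCast_zsmul z n, ← mul_smul, mul_comm, ← hq, hez]
          rw [← hyl, smul_add] at h2
          exact eq_neg_of_add_eq_zero_left h2
        rw [h1]
        exact AddSubgroup.neg_mem _ (AddSubgroup.zsmul_mem _ hl q)
      · exact AddSubgroup.zsmul_mem _ (AddSubgroup.zsmul_mem_zmultiples x k) q
    have hnk : (n : ℤ) ∣ k := by
      rw [← mul_smul] at hqk
      have h1 := addOrderOf_dvd_iff_zsmul_eq_zero.2 hqk
      rw [hx, ← he, hq, mul_comm] at h1
      have hq0 : q ≠ 0 := by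
        rintro rfl
        rw [mul_zero] at hq
        omega
      exact Int.dvd_of_mul_dvd_mul_left hq0 h1
    obtain ⟨k', rfl⟩ := hnk
    obtain ⟨w, hw⟩ : ∃ w, w = z - k' • x := ⟨_, rfl⟩
    have hnw : (n : ℤ) • w = l := by
      rw [hw, smul_sub, natCast_zsmul, ← hyl, mul_smul]
      abel
    have hwn : w ∉ AddSubgroup.zmultiples x ⊔ L := by
      intro h1
      apply hz
      have h2 : z = w + k' • x := by rw [hw]; abel
      rw [h2]
      exact AddSubgroup.add_mem _ h1
        ((le_sup_left : AddSubgroup.zmultiples x ≤ _) (AddSubgroup.zsmul_mem_zmultiples x k'))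
    have hnew : ∀ u ∈ L ⊔ AddSubgroup.zmultiples w, u ∈ AddSubgroup.zmultiples x → u = 0 := by
      intro u hu hux
      rw [AddSubgroup.mem_sup] at hu
      obtain ⟨a, ha, b, hb, rfl⟩ := hu
      obtain ⟨j, rfl⟩ := AddSubgroup.mem_zmultiples_iff.1 hb
      have h1 : j • z ∈ AddSubgroup.zmultiples x ⊔ L := by
        have h2 : j • z = (a + j • w + (j * k') • x) + -a := by
          rw [hw, smul_sub, mul_smul]
          abel
        rw [h2]
        refine AddSubgroup.add_mem _ ((le_sup_left : AddSubgroup.zmultiples x ≤ _)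
          (AddSubgroup.add_mem _ hux (AddSubgroup.zsmul_mem_zmultiples x _)))
          ((le_sup_right : L ≤ _) (AddSubgroup.neg_mem _ ha))
      obtain ⟨i, rfl⟩ := hdvd j h1
      have h3 : ((n : ℤ) * i) • w ∈ L := by
        rw [mul_comm, mul_smul, hnw]
        exact AddSubgroup.zsmul_mem _ hl i
      exact hL _ (AddSubgroup.add_mem _ ha h3) hux
    have h1 : Nat.card (L ⊔ AddSubgroup.zmultiples w : AddSubgroup K) ≤ Nat.card L :=
      hmax ⟨_, hnew⟩
    have h2 : L = L ⊔ AddSubgroup.zmultiples w := by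
      apply SetLike.coe_injective
      exact Set.eq_of_subset_of_ncard_le
        (fun x hx => (le_sup_left : L ≤ L ⊔ AddSubgroup.zmultiples w) hx) h1 (Set.toFinite _)
    apply hwn
    refine (le_sup_right : L ≤ _) ?_
    rw [h2]
    exact (le_sup_right : AddSubgroup.zmultiples w ≤ _) (AddSubgroup.mem_zmultiples w)
  have hgen : ∀ z : K, ∃ k : ℤ, z - k • x ∈ L := by
    intro z
    have hz : z ∈ AddSubgroup.zmultiples x ⊔ L := hsup ▸ AddSubgroup.mem_top z
    rw [AddSubgroup.mem_sup] at hz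
    obtain ⟨y, hy, l, hl, rfl⟩ := hz
    obtain ⟨k, rfl⟩ := AddSubgroup.mem_zmultiples_iff.1 hy
    exact ⟨k, by rw [add_sub_cancel_left]; exact hl⟩
  refine ⟨L, cyc_gen L x hgen, ?_⟩
  have h1 := ord_gen L x hgen
  have h2 : addOrderOf (QuotientAddGroup.mk x : K ⧸ L) = e := by
    refine Nat.dvd_antisymm ?_ ?_
    · rw [he, ← hx]
      have h3 : ((addOrderOf x : ℕ) : ℤ) • (QuotientAddGroup.mk x : K ⧸ L) = 0 := by
        rw [← QuotientAddGroup.mk_zsmul, natCast_zsmul, addOrderOf_nsmul_eq_zero,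
          QuotientAddGroup.mk_zero]
      exact Int.natCast_dvd_natCast.1 (addOrderOf_dvd_iff_zsmul_eq_zero.2 h3)
    · rw [he, ← hx]
      have h3 : ((addOrderOf (QuotientAddGroup.mk x : K ⧸ L) : ℕ) : ℤ) • x = 0 := by
        refine hL _ ?_ (AddSubgroup.zsmul_mem_zmultiples x _)
        rw [← QuotientAddGroup.eq_zero_iff, QuotientAddGroup.mk_zsmul, natCast_zsmul,
          addOrderOf_nsmul_eq_zero]
      exact Int.natCast_dvd_natCast.1 (addOrderOf_dvd_iff_zsmul_eq_zero.2 h3)
  have h3 := AddSubgroup.card_eq_card_quotient_mul_card_addSubgroup L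
  rw [← h1, h2] at h3
  unfold l0
  rw [h3, ← he, Nat.mul_div_cancel_left _ he0]

end Pool.Agent.SNW
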