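import Pool.Agent.SNW.Up5
import Pool.Agent.SNW.Eq
import Pool.Agent.SSE.Main

/-!
# SNW, module Lo2 (helper48): the lower bound `bd2`, assembly

`thm_Lo2`: from `M1P K (l0 K - 1)` for the noncyclic quotients `K` of `G` and from the case of aperiodic sums
(`F1P G`, if `G` is not cyclic) every generating set `A` of nonzero elements has at least `bd2 G |A|` sums.
-/

set_option autoImplicit false

noncomputable section

open Finset Pool.Agent.Helper64.Rho
open scoped Classical Pointwise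

namespace Pool.Agent.SNW

open Pool.Agent.SDG

/-- the case of aperiodic sums -/
def F1P (G : Type) [AddCommGroup G] [Finite G] : Prop :=
  ∀ A : Finset G, (0 : G) ∉ A → 1 ≤ A.card → AddSubgroup.closure (A : Set G) = ⊤ →
    Aper (FS A id) → bd2 G A.card ≤ (FS A id).card

/-- the group of the periods of a finite set -/
def per {G : Type} [AddCommGroup G] (X : Finset G) : AddSubgroup G where
  carrier := {g | ∀ x ∈ X, x + g ∈ X}
  add_mem' := by
    intro a b ha hb x hx
    have := hb _ (ha x hx)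
    rwa [add_assoc] at this
  zero_mem' := by
    intro x hx
    simpa using hx
  neg_mem' := by
    intro g hg x hx
    have h1 : X.image (· + g) = X := by
      apply eq_of_subset_of_card_le
      · intro y hy
        obtain ⟨z, hz, rfl⟩ := mem_image.1 hy
        exact hg z hz
      · rw [card_image_of_injective _ (add_left_injective g)]
    rw [← h1] at hx
    obtain ⟨z, hz, rfl⟩ := mem_image.1 hx
    simpa using hz

theorem mem_per {G : Type} [AddCommGroup G] {X : Finset G} {g : G} :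
    g ∈ per X ↔ ∀ x ∈ X, x + g ∈ X := Iff.rfl

theorem st_per {G : Type} [AddCommGroup G] [Finite G] (X : Finset G) : st X (per X) = X := by
  ext x
  simp only [st, Set.Finite.mem_toFinset, Set.mem_ofPred_eq]
  constructor
  · rintro ⟨a, ha, hxa⟩
    have := mem_per.1 hxa a ha
    rwa [add_sub_cancel] at this
  · intro hx
    exact ⟨x, hx, by rw [sub_self]; exact AddSubgroup.zero_mem _⟩

/-- comap of a subgroup of a quotient -/
theorem comap_data {G : Type} [AddCommGroup G] [Finite G] (P : AddSubgroup G)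
    (L : AddSubgroup (G ⧸ P)) (hc : IsAddCyclic ((G ⧸ P) ⧸ L)) (hL : L ≠ ⊤) :
    ∃ Q : AddSubgroup G, Q ≠ ⊤ ∧ IsAddCyclic (G ⧸ Q) ∧ Nat.card Q = Nat.card P * Nat.card L := by
  refine ⟨L.comap (QuotientAddGroup.mk' P), ?_, ?_, ?_⟩
  · intro h1
    apply hL
    rw [eq_top_iff]
    intro z _
    obtain ⟨w, rfl⟩ := QuotientAddGroup.mk_surjective z
    have h2 : w ∈ L.comap (QuotientAddGroup.mk' P) := h1 ▸ AddSubgroup.mem_top w
    exact h2
  · obtain ⟨g, hg⟩ := hc.exists_zsmul_surjective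
    obtain ⟨g, rfl⟩ := QuotientAddGroup.mk_surjective g
    obtain ⟨x, rfl⟩ := QuotientAddGroup.mk_surjective g
    refine cyc_gen _ x fun z => ?_
    obtain ⟨k, hk⟩ := hg (QuotientAddGroup.mk (QuotientAddGroup.mk z : G ⧸ P) : (G ⧸ P) ⧸ L)
    simp only at hk
    refine ⟨k, ?_⟩
    rw [AddSubgroup.mem_comap, QuotientAddGroup.mk'_apply]
    rw [← QuotientAddGroup.mk_zsmul, QuotientAddGroup.eq, neg_add_eq_sub,
      ← QuotientAddGroup.mk_zsmul, ← QuotientAddGroup.mk_sub] at hk
    exact hk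
  · have h1 := Nat.card_congr (QuotientAddGroup.preimageMkEquivAddSubgroupProdSet P (L : Set (G ⧸ P)))
    rw [Nat.card_prod] at h1
    exact h1

theorem cap_id {G : Type} [AddCommGroup G] (A : Finset G) : Cap 2 A (id : G → G) := by
  intro x
  refine (card_le_card (t := {x, -x}) ?_).trans card_le_two
  intro y hy
  rw [mem_filter] at hy
  rw [mem_insert, mem_singleton]
  exact hy.2

theorem gen_id {G : Type} [AddCommGroup G] (A : Finset G) :
    gen A (id : G → G) = AddSubgroup.closure (A : Set G) := by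
  unfold gen
  rw [Set.image_id]

/-- from the value of a subgroup `Q` with cyclic quotient -/
theorem bd2_le_cyc {G : Type} [AddCommGroup G] (m : ℕ) (Q : AddSubgroup G) (hQ : Q ≠ ⊤)
    (hc : IsAddCyclic (G ⧸ Q)) :
    bd2 G m ≤ Nat.card Q * cf (2 * Nat.card Q) (max 1 (m + 1 - Nat.card Q)) := by
  have h1 : bd2 G m ≤ val2 m Q := Nat.sInf_le (Or.inr ⟨Q, hQ, rfl⟩)
  rwa [val2, if_pos hc] at h1

theorem bd2_le_card {G : Type} [AddCommGroup G] (m : ℕ) : bd2 G m ≤ Nat.card G :=
  Nat.sInf_le (Or.inl rfl)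

/-- the value of a subgroup of `G` over `P` for a cyclic quotient of `G / P` of order the exponent -/
theorem bd2_le_l0 {G : Type} [AddCommGroup G] [Finite G] (m : ℕ) (P : AddSubgroup G)
    (hc : ¬ IsAddCyclic (G ⧸ P)) :
    bd2 G m ≤ Nat.card P * l0 (G ⧸ P) *
      cf (2 * (Nat.card P * l0 (G ⧸ P))) (max 1 (m + 1 - Nat.card P * l0 (G ⧸ P))) := by
  obtain ⟨L, hL1, hL2⟩ := exp_quot (G ⧸ P)
  have hLT : L ≠ ⊤ := by
    rintro rfl
    rw [AddSubgroup.card_top] at hL2
    have h1 := l0_mul (G ⧸ P)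
    have h2 : 0 < Nat.card (G ⧸ P) := Nat.card_pos
    have h3 : AddMonoid.exponent (G ⧸ P) = 1 := by
      rw [← hL2] at h1
      nlinarith
    apply hc
    rw [AddMonoid.exp_eq_one_iff] at h3
    exact isAddCyclic_of_subsingleton
  obtain ⟨Q, hQ1, hQ2, hQ3⟩ := comap_data P L hL1 hLT
  have := bd2_le_cyc m Q hQ1 hQ2
  rwa [hQ3, hL2] at this

/-- the quotient by the periods, abstract form -/
theorem Lo2_quot (G K : Type) [AddCommGroup G] [Finite G] [AddCommGroup K] [Finite K]
    (π : G →+ K) (P : AddSubgroup G) (hs : Function.Surjective π) (hk : ∀ x, π x = 0 ↔ x ∈ P)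
    (A : Finset G) (hgen : AddSubgroup.closure (A : Set G) = ⊤)
    (hP : P = per (FS A (id : G → G))) (hP2 : 2 ≤ Nat.card P) :
    ∃ X, Nat.card P * X = (FS A (id : G → G)).card ∧
      cf (2 * Nat.card P) (A.filter fun a => a ∉ P).card ≤ X ∧
      (¬ IsAddCyclic K → 2 ≤ (A.filter fun a => a ∉ P).card ∧
        (2 * cf (2 * Nat.card P) ((A.filter fun a => a ∉ P).card - 1) ≤ X ∨
        (2 * l0 K ≤ X ∧ ∀ l, 1 ≤ l → M1P K (l - 1) →
          Nat.card P * (l - 1) + 1 ≤ (A.filter fun a => a ∉ P).card →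
            l * cf (2 * (Nat.card P * l)) ((A.filter fun a => a ∉ P).card + Nat.card P -
              Nat.card P * l) ≤ X))) := by
  have hPm : ∀ g, g ∈ P ↔ ∀ x ∈ FS A (id : G → G), x + g ∈ FS A (id : G → G) :=
    fun g => by rw [hP]; exact mem_per
  have hst : st (FS A (id : G → G)) P = FS A (id : G → G) := by
    conv_lhs => rw [hP]
    exact st_per _
  have hq1 := q_card A (id : G → G) hk
  rw [hst] at hq1
  have hq2 := q_aper A (id : G → G) hs hk (by
    rw [hst]
    intro g hg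
    exact (hPm g).2 hg)
  have hq3 := q_ne A (id : G → G) hk
  have hq4 := q_cap A (id : G → G) hs hk 2 (cap_id A)
  have hq5 := q_gen A (id : G → G) hs hk (by rw [gen_id]; exact hgen)
  obtain ⟨t, ht⟩ : ∃ t, t = (A.filter fun a => a ∉ P).card := ⟨_, rfl⟩
  have hq6 : (A.filter fun i => (id i : G) ∉ P).card = t := by rw [ht]; rfl
  rw [← ht]
  refine ⟨_, hq1, (all_main t).2 (Nat.card P) hP2 K G _ _ hq6 hq3 hq4 hq2, ?_⟩
  intro hqc
  have ht2 : 2 ≤ t := by
    by_contra h1
    exact hqc (one_member_cyc _ _ (by rw [hq6]; omega) hq5)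
  refine ⟨ht2, ?_⟩
  rcases thm_S (Nat.card P) hP2 t K G _ _ hq6 hq3 hq4 hq2 hq5 hqc with h1 | h1
  · exact Or.inl h1
  · refine Or.inr ⟨h1, ?_⟩
    intro l hl hM htl
    have h7 := thm_W2 K G l hl hM (Nat.card P) hP2 _ _ hq3 hq4 hq2 hq5 (by rw [hq6]; exact htl)
    rwa [hq6] at h7

/-- **The lower bound**, for one set. -/
theorem thm_Lo2x (G : Type) [AddCommGroup G] [Finite G]
    (hM : ∀ P : AddSubgroup G, ¬ IsAddCyclic (G ⧸ P) → M1P (G ⧸ P) (l0 (G ⧸ P) - 1))
    (A : Finset G) (hF : ¬ IsAddCyclic G → Aper (FS A id) → bd2 G A.card ≤ (FS A id).card)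
    (h0 : (0 : G) ∉ A) (hA : 1 ≤ A.card)
    (hgen : AddSubgroup.closure (A : Set G) = ⊤) : bd2 G A.card ≤ (FS A id).card := by
  obtain ⟨T, hT⟩ : ∃ T, T = FS A (id : G → G) := ⟨_, rfl⟩
  obtain ⟨P, hP⟩ : ∃ P, P = per T := ⟨_, rfl⟩
  have hPm : ∀ g, g ∈ P ↔ ∀ x ∈ T, x + g ∈ T := fun g => by rw [hP]; exact mem_per
  have h0T : (0 : G) ∈ T := hT ▸ zero_mem_FS _ _
  rw [← hT]
  by_cases hPT : P = ⊤
  · refine (bd2_le_card _).trans ?_
    have := Fintype.ofFinite G
    rw [Nat.card_eq_fintype_card, ← card_univ]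
    refine card_le_card fun g _ => ?_
    have h3 : g ∈ P := by rw [hPT]; trivial
    simpa using (hPm g).1 h3 0 h0T
  have hPc : 1 ≤ Nat.card P := Nat.card_pos
  have hcard : 2 ≤ Nat.card G := by
    have h1 := two_le_index P hPT
    have h2 := AddSubgroup.card_eq_card_quotient_mul_card_addSubgroup P
    rw [h2]
    exact h1.trans (Nat.le_mul_of_pos_right _ hPc)
  -- the members outside `P`
  obtain ⟨t, ht⟩ : ∃ t, t = (A.filter fun a => a ∉ P).card := ⟨_, rfl⟩
  have htm : A.card + 1 ≤ t + Nat.card P := by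
    obtain ⟨HF, hHF, hHc⟩ := fin_exists P
    have h3 : (A.filter fun a => a ∈ P).card + 1 ≤ Nat.card P := by
      rw [← hHc]
      have h4 : (0 : G) ∉ A.filter fun a => a ∈ P := fun h => h0 (mem_filter.1 h).1
      rw [← card_insert_of_notMem h4]
      refine card_le_card fun x hx => ?_
      rw [hHF]
      rcases mem_insert.1 hx with rfl | hx
      · exact P.zero_mem
      · exact (mem_filter.1 hx).2
    have h5 : (A.filter fun a => a ∈ P).card + (A.filter fun a => a ∉ P).card =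
        A.card := card_filter_add_card_filter_not _
    omega
  have ht1 : 1 ≤ t := by
    rw [ht, Nat.one_le_iff_ne_zero]
    intro h
    rw [card_eq_zero, filter_eq_empty_iff] at h
    apply hPT
    rw [eq_top_iff, ← hgen, AddSubgroup.closure_le]
    intro a ha
    by_contra hna
    exact h ha hna
  by_cases hcyc : IsAddCyclic G
  · -- `G` cyclic
    have hq : IsAddCyclic (G ⧸ P) := isAddCyclic_of_surjective (QuotientAddGroup.mk' P)
      (QuotientAddGroup.mk'_surjective _)
    refine (bd2_le_cyc _ P hPT hq).trans ?_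
    have h1 := (Pool.Agent.SSE.all_FnE G hcyc hcard).1 A P h0 (by rw [← hT]; exact hPm) hPT
    rw [← hT, ← ht] at h1
    refine le_trans (Nat.mul_le_mul_left _ (all_Nm1.2.2.2.1 _ _ _ ?_)) h1
    omega
  -- `G` not cyclic
  rcases Nat.lt_or_ge (Nat.card P) 2 with hP1 | hP2
  · -- aperiodic
    have hPb : P = ⊥ := AddSubgroup.eq_bot_of_card_eq P (by omega)
    rw [hT]
    refine hF hcyc ?_
    rw [← hT]
    intro g hg
    have h1 : g ∈ P := (hPm g).2 hg
    rw [hPb] at h1
    exact AddSubgroup.mem_bot.1 h1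
  · -- the quotient
    obtain ⟨X, hX1, hX2, hX3⟩ := Lo2_quot G (G ⧸ P) (QuotientAddGroup.mk' P) P
      (QuotientAddGroup.mk'_surjective P) (fun x => QuotientAddGroup.eq_zero_iff x) A hgen
      (by rw [← hT]; exact hP) hP2
    rw [← ht] at hX2 hX3
    rw [hT, ← hX1]
    by_cases hqc : IsAddCyclic (G ⧸ P)
    · refine (bd2_le_cyc _ P hPT hqc).trans (Nat.mul_le_mul_left _ ?_)
      exact (all_Nm1.2.2.2.1 _ _ _ (by omega)).trans hX2
    · obtain ⟨ht2, h1 | ⟨h1, h1'⟩⟩ := hX3 hqc
      · have h2 : bd2 G A.card ≤ val2 A.card P := Nat.sInf_le (Or.inr ⟨P, hPT, rfl⟩)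
        have hPb : P ≠ ⊥ := by
          intro h3
          rw [h3, AddSubgroup.card_bot] at hP2
          omega
        rw [val2, if_neg hqc, if_neg hPb] at h2
        have h3 : cf (2 * Nat.card P) (max 1 (A.card - Nat.card P)) ≤
            cf (2 * Nat.card P) (t - 1) := all_Nm1.2.2.2.1 _ _ _ (by omega)
        have h4 : 2 * cf (2 * Nat.card P) (max 1 (A.card - Nat.card P)) ≤ X := by omega
        calc bd2 G A.card ≤ 2 * Nat.card P * cf (2 * Nat.card P) (max 1 (A.card - Nat.card P)) := h2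
          _ = Nat.card P * (2 * cf (2 * Nat.card P) (max 1 (A.card - Nat.card P))) := by ring
          _ ≤ Nat.card P * X := Nat.mul_le_mul_left _ h4
      · refine (bd2_le_l0 A.card P hqc).trans ?_
        rw [mul_assoc]
        refine Nat.mul_le_mul_left _ ?_
        have hl1 : 1 ≤ l0 (G ⧸ P) := by
          have h3 := l0_mul (G ⧸ P)
          have h4 : 0 < Nat.card (G ⧸ P) := Nat.card_pos
          rcases Nat.eq_zero_or_pos (l0 (G ⧸ P)) with h5 | h5
          · rw [h5] at h3
            omega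
          · exact h5
        have h7 := h1' (l0 (G ⧸ P)) hl1 (hM P hqc)
        generalize l0 (G ⧸ P) = l at h1 h7 hl1 ⊢
        rcases Nat.lt_or_ge A.card (Nat.card P * l + 1) with h3 | h3
        · have h4 : max 1 (A.card + 1 - Nat.card P * l) = 1 := by omega
          have h5 : cf (2 * (Nat.card P * l)) 1 = 2 := by simp [cf]
          rw [h4, h5]
          omega
        · have h6 : Nat.card P * l = Nat.card P * (l - 1) + Nat.card P := by
            obtain ⟨k, rfl⟩ : ∃ k, l = k + 1 := ⟨l - 1, by omega⟩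
            rw [Nat.add_sub_cancel, Nat.mul_succ]
          have h8 := h7 (by omega)
          refine le_trans (Nat.mul_le_mul_left _ (all_Nm1.2.2.2.1 _ _ _ ?_)) h8
          omega

/-- **The lower bound.** -/
theorem thm_Lo2 (G : Type) [AddCommGroup G] [Finite G]
    (hM : ∀ P : AddSubgroup G, ¬ IsAddCyclic (G ⧸ P) → M1P (G ⧸ P) (l0 (G ⧸ P) - 1))
    (hF : ¬ IsAddCyclic G → F1P G) (A : Finset G) (h0 : (0 : G) ∉ A) (hA : 1 ≤ A.card)
    (hgen : AddSubgroup.closure (A : Set G) = ⊤) : bd2 G A.card ≤ (FS A id).card :=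
  thm_Lo2x G hM A (fun h1 h2 => hF h1 A h0 hA hgen h2) h0 hA hgen

/-- the final statement from the two hypotheses -/
theorem thm_Fin2 (G : Type) [AddCommGroup G] [Finite G] (a b : G)
    (hab : AddSubgroup.closure {a, b} = ⊤)
    (hM : ∀ P : AddSubgroup G, ¬ IsAddCyclic (G ⧸ P) → M1P (G ⧸ P) (l0 (G ⧸ P) - 1))
    (hF : ¬ IsAddCyclic G → F1P G) (m : ℕ) (hm : 1 ≤ m) :
    ((sizes G m).Nonempty ↔ m < Nat.card G ∧ (¬ IsAddCyclic G → 2 ≤ m)) ∧
      (m < Nat.card G → (¬ IsAddCyclic G → 2 ≤ m) → rho G m = bd2 G m) := by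
  have hlow : ∀ k ∈ sizes G m, bd2 G m ≤ k := by
    rintro k ⟨A, h0, hA, hgen, rfl⟩
    rw [ncard_subsetSums]
    subst hA
    exact thm_Lo2 G hM hF A h0 hm hgen
  refine ⟨⟨?_, ?_⟩, ?_⟩
  · rintro ⟨k, A, h0, hA, hgen, -⟩
    constructor
    · have := Fintype.ofFinite G
      rw [← hA, Nat.card_eq_fintype_card]
      exact Finset.card_lt_univ_of_notMem h0
    · intro hnc
      by_contra h1
      refine hnc (one_member_cyc A (id : G → G) (by omega) ?_)
      rw [gen_id]
      exact hgen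
  · rintro ⟨h1, h2⟩
    exact (rho_le_bd2 G a b hab m hm h1 h2).1
  · intro h1 h2
    obtain ⟨h3, h4⟩ := rho_le_bd2 G a b hab m hm h1 h2
    exact le_antisymm h4 (hlow _ (Nat.sInf_mem h3))

end Pool.Agent.SNW
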