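import Pool.Agent.SDG.All

/-!
# SNW, module W2 (helper48): families with at most `2 h` members `± x`, `h ≥ 2`, in noncyclic groups

`M1P G g` is the cap 2 statement: a family (at most two members `± x`) which generates `G` has at least
`min (pn t) (cf 2 t + g)` sums or is near-full.  `thm_W2`: if `M1P G (l - 1)` then every family with
`Cap (2 h)`, `h ≥ 2`, which generates `G` and has `t ≥ h (l - 1) + 1` members and an aperiodic set of
sums has at least `l * cf (2 h l) (t + h - h l)` sums.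
-/

set_option autoImplicit false

noncomputable section

open Finset Pool.Agent.Helper64.Rho
open scoped Classical Pointwise

namespace Pool.Agent.SNW

open Pool.Agent.SDG

/-- the least number of subset sums with one independent member, cap 2 -/
def pn (t : ℕ) : ℕ := if t = 4 then 9 else if t = 6 then 19 else 2 * cf 2 (t - 1)

/-- the cap 2 statement with gain `g` for families which generate `G` -/
def M1P (G : Type) [AddCommGroup G] [Finite G] (g : ℕ) : Prop :=
  ∀ (ι : Type) (s : Finset ι) (f : ι → G), (∀ i ∈ s, f i ≠ 0) → Cap 2 s f → Aper (FS s f) →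
    gen s f = ⊤ → min (pn s.card) (cf 2 s.card + g) ≤ (FS s f).card ∨
      Nat.card G ≤ (FS s f).card + jj s.card * (jj s.card - 1)

/-! ### numbers -/

theorem W2_tan (h p t : ℕ) (hh : 1 ≤ h) :
    (p : ℤ) * t ≤ (cf (2 * h) t : ℤ) - 1 + h * p * (p - 1) := by
  have hr : t % (2 * h) ≤ 2 * h := (Nat.mod_lt _ (by omega)).le
  have hu : 2 * h * (t / (2 * h)) + t % (2 * h) = t := Nat.div_add_mod t _
  have h1 := thm_Nm1.2.1 (2 * h) (t / (2 * h)) (t % (2 * h)) (by omega) hr
  rw [hu] at h1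
  generalize t / (2 * h) = b at h1 hu
  generalize t % (2 * h) = r at h1 hu hr
  have h2 : (2 : ℤ) * cf (2 * h) t = 2 + 2 * h * b * (b + 1) + 2 * r * (b + 1) := by
    exact_mod_cast h1
  have h3 : (2 : ℤ) * h * b + r = t := by exact_mod_cast hu
  have hr' : (r : ℤ) ≤ 2 * h := by exact_mod_cast hr
  have hr0 : (0 : ℤ) ≤ r := Int.natCast_nonneg r
  have hh' : (1 : ℤ) ≤ h := by exact_mod_cast hh
  have h4 : (0 : ℤ) ≤ ((b : ℤ) + 1 - p) * (h * ((b : ℤ) - p) + r) := by
    rcases lt_trichotomy ((b : ℤ) + 1 - p) 0 with h5 | h5 | h5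
    · have h6 : (h : ℤ) * ((b : ℤ) - p) + r ≤ 0 := by nlinarith
      exact mul_nonneg_of_nonpos_of_nonpos h5.le h6
    · rw [h5, zero_mul]
    · exact mul_nonneg h5.le (by nlinarith)
  rw [← h3]
  nlinarith

theorem W2_lin (g s : ℕ) (hg : 1 ≤ g) (hs : s ≤ g) : cf g s = 1 + s := by
  have h1 := thm_Nm1.2.1 g 0 s hg hs
  simp only [mul_zero, zero_add, mul_one, add_zero] at h1
  omega

/-- `l c(hl, t + h - hl) ≤ c(h, t) + l - 1` -/
theorem W2_upper (h l t : ℕ) (hh : 1 ≤ h) (hl : 1 ≤ l) (ht : h * l ≤ t + h) :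
    l * cf (2 * (h * l)) (t + h - h * l) + 1 ≤ cf (2 * h) t + l := by
  obtain ⟨u, hu⟩ : ∃ u, u = t + h - h * l := ⟨_, rfl⟩
  rw [← hu]
  have hu' : u + h * l = t + h := by omega
  have hg : 1 ≤ 2 * (h * l) := by
    have := Nat.mul_le_mul hh hl
    omega
  have hr : u % (2 * (h * l)) ≤ 2 * (h * l) := (Nat.mod_lt _ (by omega)).le
  have hv : 2 * (h * l) * (u / (2 * (h * l))) + u % (2 * (h * l)) = u := Nat.div_add_mod u _
  have h1 := thm_Nm1.2.1 (2 * (h * l)) (u / (2 * (h * l))) (u % (2 * (h * l))) hg hr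
  rw [hv] at h1
  generalize u / (2 * (h * l)) = b at h1 hv
  generalize u % (2 * (h * l)) = r at h1 hv hr
  have h2 := W2_tan h (l * (b + 1)) t hh
  have h3 : (2 : ℤ) * cf (2 * (h * l)) u = 2 + 2 * (h * l) * b * (b + 1) + 2 * r * (b + 1) := by
    exact_mod_cast h1
  have h4 : (2 : ℤ) * (h * l) * b + r = u := by exact_mod_cast hv
  have h5 : (u : ℤ) + h * l = t + h := by exact_mod_cast hu'
  have h6 : (l : ℤ) * cf (2 * (h * l)) u + 1 ≤ cf (2 * h) t + l := by
    push_cast at h2
    have h7 : (r : ℤ) = u - 2 * (h * l) * b := by linarith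
    have h8 : (u : ℤ) = t + h - h * l := by linarith
    have h9 : (l : ℤ) * (2 * cf (2 * (h * l)) u) =
        l * (2 + 2 * (h * l) * b * (b + 1) + 2 * r * (b + 1)) := by rw [h3]
    rw [h7, h8] at h9
    nlinarith
  exact_mod_cast h6


theorem W2_NC (h l t : ℕ) (hh : 2 ≤ h) (hl : 3 ≤ l) (ht : h * l ≤ t + h) (ht' : t ≤ h * l) :
    l * cf (2 * (h * l)) (t + h - h * l) ≤ cf (2 * h) t := by
  obtain ⟨u, hu⟩ : ∃ u, u = t + h - h * l := ⟨_, rfl⟩
  rw [← hu]
  have hu' : u + h * l = t + h := by omega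
  have hhl : h ≤ h * l := Nat.le_mul_of_pos_right _ (by omega)
  rw [W2_lin (2 * (h * l)) u (by omega) (by omega)]
  obtain ⟨m, rfl⟩ : ∃ m, l = m + 3 := ⟨l - 3, by omega⟩
  obtain ⟨k, rfl⟩ : ∃ k, h = k + 2 := ⟨h - 2, by omega⟩
  have h2 := W2_tan (k + 2) (m + 2) t (by omega)
  have h5 : (u : ℤ) + (k + 2) * (m + 3) = t + (k + 2) := by exact_mod_cast hu'
  have h6 : (t : ℤ) ≤ (k + 2) * (m + 3) := by exact_mod_cast ht'
  have h7 : ((m : ℤ) + 3) * (1 + u) ≤ cf (2 * (k + 2)) t := by
    push_cast at h2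
    have h8 : (u : ℤ) = t + (k + 2) - (k + 2) * (m + 3) := by linarith
    rw [h8]
    have h9 : (0 : ℤ) ≤ (k : ℤ) * m := by positivity
    nlinarith
  exact_mod_cast h7

theorem W2_ND (h t : ℕ) (hh : 2 ≤ h) (ht : h * 4 ≤ t + h) (ht' : t ≤ h * 5) :
    4 * cf (2 * (h * 4)) (t + h - h * 4) ≤ cf (2 * h) t + 1 := by
  obtain ⟨u, hu⟩ : ∃ u, u = t + h - h * 4 := ⟨_, rfl⟩
  rw [← hu]
  have hu' : u + h * 4 = t + h := by omega
  rw [W2_lin (2 * (h * 4)) u (by omega) (by omega)]
  have h2 := W2_tan h 3 t (by omega)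
  have h7 : (4 : ℤ) * (1 + u) ≤ cf (2 * h) t + 1 := by
    push_cast at h2
    have h8 : (u : ℤ) = t + h - h * 4 := by omega
    have h9 : (t : ℤ) ≤ h * 5 := by exact_mod_cast ht'
    have h10 : (2 : ℤ) ≤ h := by exact_mod_cast hh
    rw [h8]
    linarith
  exact_mod_cast h7

theorem W2_pn (q : ℕ) (hq : 1 ≤ q) (h3 : q ≠ 3) (h4 : q ≠ 4) : cf 2 q + (q - 1) ≤ pn q := by
  unfold pn
  rw [if_neg h4]
  by_cases h6 : q = 6
  · subst h6
    simp [cf, Finset.sum_range_succ]
  · rw [if_neg h6]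
    have e1 := thm_Nm1.2.2.1 q
    have e2 := thm_Nm1.2.2.1 (q - 1)
    rw [Nat.sub_add_cancel hq] at e2
    rw [e1, e2]
    rcases Nat.even_or_odd' q with ⟨b, rfl | rfl⟩
    · have f1 : (2 * b + 1) ^ 2 = 4 * (b * b + b) + 1 := by ring
      have f2 : (4 * (b * b + b) + 1) / 4 = b * b + b := by omega
      have f3 : (2 * b) ^ 2 = 4 * (b * b) := by ring
      have f4 : 4 * (b * b) / 4 = b * b := by omega
      rw [f1, f2, f3, f4]
      obtain ⟨c, rfl⟩ : ∃ c, b = c + 1 := ⟨b - 1, by omega⟩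
      rcases Nat.eq_zero_or_pos c with rfl | hc
      · norm_num
      · obtain ⟨d, rfl⟩ : ∃ d, c = d + 1 := ⟨c - 1, by omega⟩
        have : 2 * (d + 1 + 1) - 1 = 2 * d + 3 := by omega
        rw [this]
        nlinarith
    · have f1 : (2 * b + 1) ^ 2 = 4 * (b * b + b) + 1 := by ring
      have f2 : (4 * (b * b + b) + 1) / 4 = b * b + b := by omega
      have f3 : (2 * b + 1 + 1) ^ 2 = 4 * (b * b + 2 * b + 1) := by ring
      have f4 : 4 * (b * b + 2 * b + 1) / 4 = b * b + 2 * b + 1 := by omega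
      rw [f1, f2, f3, f4, Nat.add_sub_cancel]
      rcases Nat.eq_zero_or_pos b with rfl | hb
      · norm_num
      · obtain ⟨c, rfl⟩ : ∃ c, b = c + 2 := ⟨b - 2, by omega⟩
        nlinarith

theorem W2_num1 (h l t q X : ℕ) (hh : 2 ≤ h) (hl : 1 ≤ l) (ht : h * (l - 1) + 1 ≤ t)
    (hq : 1 ≤ q) (hq' : t ≤ h * q) (hX : min (pn q) (cf 2 q + (l - 1)) ≤ X) :
    l * cf (2 * (h * l)) (t + h - h * l) + cf 2 q ≤ cf (2 * h) t + X := by
  obtain ⟨m, rfl⟩ : ∃ m, l = m + 1 := ⟨l - 1, by omega⟩
  rw [Nat.add_sub_cancel] at ht hX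
  have ht1 : h * (m + 1) ≤ t + h := by
    rw [mul_add, mul_one]
    omega
  have h1 := W2_upper h (m + 1) t (by omega) hl ht1
  have hlq : m + 1 ≤ q := by
    by_contra hcon
    have h2 : q ≤ m := by omega
    have h3 := Nat.mul_le_mul_left h h2
    omega
  rcases min_le_iff.1 hX with h2 | h2
  · by_cases h3 : q = 3
    · subst h3
      have h4 : pn 3 = 6 := by simp [pn, cf, Finset.sum_range_succ]
      have h5 : cf 2 3 = 5 := by simp [cf, Finset.sum_range_succ]
      rw [h4] at h2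
      rw [h5]
      by_cases h6 : m = 2
      · subst h6
        have := W2_NC h 3 t hh le_rfl ht1 hq'
        have h7 : 2 + 1 = 3 := rfl
        rw [h7]
        omega
      · omega
    · by_cases h4 : q = 4
      · subst h4
        have h4 : pn 4 = 9 := by simp [pn]
        have h5 : cf 2 4 = 7 := by simp [cf, Finset.sum_range_succ]
        rw [h4] at h2
        rw [h5]
        by_cases h6 : m = 3
        · subst h6
          have := W2_NC h 4 t hh (by norm_num) ht1 hq'
          have h7 : 3 + 1 = 4 := rfl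
          rw [h7]
          omega
        · omega
      · have := W2_pn q hq h3 h4
        omega
  · omega

theorem W2_num2 (h l t q : ℕ) (hh : 2 ≤ h) (hl : 1 ≤ l) (ht : h * (l - 1) + 1 ≤ t)
    (hq : 1 ≤ q) (hq' : t ≤ h * q) :
    l * cf (2 * (h * l)) (t + h - h * l) + jj q ≤ cf (2 * h) t + cf 4 (q - 1) := by
  obtain ⟨m, rfl⟩ : ∃ m, l = m + 1 := ⟨l - 1, by omega⟩
  rw [Nat.add_sub_cancel] at ht
  have ht1 : h * (m + 1) ≤ t + h := by
    rw [mul_add, mul_one]
    omega
  have h1 := W2_upper h (m + 1) t (by omega) hl ht1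
  have hlq : m + 1 ≤ q := by
    by_contra hcon
    have h2 : q ≤ m := by omega
    have h3 := Nat.mul_le_mul_left h h2
    omega
  by_cases hq8 : 8 ≤ q
  · have h2 : (q - 1) + jj q ≤ cf 4 (q - 1) := by
      rcases Nat.lt_or_ge q 9 with h3 | h3
      · have : q = 8 := by omega
        subst this
        simp [cf, jj, Finset.sum_range_succ]
      · have h4 := (thm_Nm2 thm_Nm1).2 (q - 1)
        unfold jj
        obtain ⟨b, rfl⟩ : ∃ b, q = b + 9 := ⟨q - 9, by omega⟩
        have h5 : b + 9 - 1 = b + 8 := by omega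
        rw [h5] at h4 ⊢
        have h6 : 2 * ((b + 9 + 1) / 2) ≤ b + 10 := by omega
        nlinarith
    omega
  · have c0 : cf 4 0 = 1 := by simp [cf]
    have c1 : cf 4 1 = 2 := by simp [cf, Finset.sum_range_succ]
    have c2 : cf 4 2 = 3 := by simp [cf, Finset.sum_range_succ]
    have c3 : cf 4 3 = 4 := by simp [cf, Finset.sum_range_succ]
    have c4 : cf 4 4 = 5 := by simp [cf, Finset.sum_range_succ]
    have c5 : cf 4 5 = 7 := by simp [cf, Finset.sum_range_succ]
    have c6 : cf 4 6 = 9 := by simp [cf, Finset.sum_range_succ]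
    by_cases hd : m + 1 = q ∧ 3 ≤ q
    · obtain ⟨hd1, hd2⟩ := hd
      have h2 := W2_NC h (m + 1) t hh (by omega) ht1 (by rw [hd1]; exact hq')
      have h3 : jj q ≤ cf 4 (q - 1) := by
        have : q = 3 ∨ q = 4 ∨ q = 5 ∨ q = 6 ∨ q = 7 := by omega
        unfold jj
        rcases this with rfl | rfl | rfl | rfl | rfl <;> norm_num [c2, c3, c4, c5, c6]
      omega
    · by_cases he : m = 3 ∧ q = 5
      · obtain ⟨rfl, rfl⟩ := he
        have h2 := W2_ND h t hh ht1 hq'
        have h3 : jj 5 = 3 := rfl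
        have h4 : 3 + 1 = 4 := rfl
        have h5 : 5 - 1 = 4 := rfl
        rw [h3, h5, c4, h4]
        omega
      · unfold jj
        have : q = 1 ∨ q = 2 ∨ q = 3 ∨ q = 4 ∨ q = 5 ∨ q = 6 ∨ q = 7 := by omega
        rcases this with rfl | rfl | rfl | rfl | rfl | rfl | rfl
        · have h5 : 1 - 1 = 0 := rfl
          rw [h5, c0]
          omega
        · have h5 : 2 - 1 = 1 := rfl
          rw [h5, c1]
          omega
        · have h5 : 3 - 1 = 2 := rfl
          rw [h5, c2]
          omega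
        · have h5 : 4 - 1 = 3 := rfl
          rw [h5, c3]
          omega
        · have h5 : 5 - 1 = 4 := rfl
          rw [h5, c4]
          omega
        · have h5 : 6 - 1 = 5 := rfl
          rw [h5, c5]
          omega
        · have h5 : 7 - 1 = 6 := rfl
          rw [h5, c6]
          omega

theorem W2_full (q : ℕ) (hq : 1 ≤ q) : jj q * (jj q - 1) < cf 2 (q - 1) := by
  have e2 := thm_Nm1.2.2.1 (q - 1)
  rw [Nat.sub_add_cancel hq] at e2
  rw [e2]
  unfold jj
  rcases Nat.even_or_odd' q with ⟨b, rfl | rfl⟩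
  · have f3 : (2 * b) ^ 2 = 4 * (b * b) := by ring
    have f4 : 4 * (b * b) / 4 = b * b := by omega
    have f5 : (2 * b + 1) / 2 = b := by omega
    rw [f3, f4, f5]
    have := Nat.mul_le_mul_left b (Nat.sub_le b 1)
    omega
  · have f1 : (2 * b + 1) ^ 2 = 4 * (b * b + b) + 1 := by ring
    have f2 : (4 * (b * b + b) + 1) / 4 = b * b + b := by omega
    have f5 : (2 * b + 1 + 1) / 2 = b + 1 := by omega
    rw [f1, f2, f5, Nat.add_sub_cancel]
    have : (b + 1) * b = b * b + b := by ring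
    omega

/-! ### colourings -/

/-- a balanced colouring, cap 2, without violating classes -/
theorem W2_col (h : ℕ) (hh : 2 ≤ h) (G ι : Type) [AddCommGroup G] [Finite G] (s : Finset ι)
    (f : ι → G) (hf : ∀ i ∈ s, f i ≠ 0) (hcap : Cap (2 * h) s f) (hap : Aper (FS s f)) :
    ∃ c : ι → Fin h, T5_good s f c ∧ ∀ k, ¬ Vio (s.filter fun i => c i = k) f := by
  obtain ⟨c0, hc0⟩ := all_Co G ι s f h (by omega) hcap
  have hex : ∃ n : ℕ, ∃ c : ι → Fin h, T5_good s f c ∧ (T5_vio s f c).card = n :=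
    ⟨_, c0, hc0, rfl⟩
  obtain ⟨c, hc, hn⟩ := Nat.find_spec hex
  have hmin : ∀ c' : ι → Fin h, T5_good s f c' → ¬ (T5_vio s f c').card < (T5_vio s f c).card := by
    intro c' hc' hlt
    rw [hn] at hlt
    exact Nat.find_min hex hlt ⟨c', hc', rfl⟩
  refine ⟨c, hc, ?_⟩
  intro k hk
  have hfk : ∀ i ∈ s.filter fun i => c i = k, f i ≠ 0 := fun i hi => hf i (Finset.mem_filter.1 hi).1
  have h2 := T5_small hfk hk
  obtain ⟨l, hl⟩ : ∃ l : Fin h, l ≠ k := by
    have : Nontrivial (Fin h) := Fin.nontrivial_iff_two_le.2 hh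
    exact exists_ne k
  have hd : Disjoint (s.filter fun i => c i = k) (s.filter fun i => c i = l) := by
    rw [Finset.disjoint_left]
    intro i h1 h3
    exact hl ((Finset.mem_filter.1 h3).2.symm.trans (Finset.mem_filter.1 h1).2)
  have hsub : (s.filter fun i => c i = k) ∪ (s.filter fun i => c i = l) ⊆ s :=
    Finset.union_subset (Finset.filter_subset _ _) (Finset.filter_subset _ _)
  have hle : (s.filter fun i => c i = k).card + (s.filter fun i => c i = l).card ≤ s.card := by
    rw [← Finset.card_union_of_disjoint hd]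
    exact Finset.card_le_card hsub
  have hb1 := hc.2 k l
  have hb2 := hc.2 l k
  have hUne : (s.filter fun i => c i = l).Nonempty := by
    rw [← Finset.card_pos]
    omega
  have hf' : ∀ i ∈ (s.filter fun i => c i = k) ∪ (s.filter fun i => c i = l), f i ≠ 0 :=
    fun i hi => hf i (hsub hi)
  have hap' : Aper (FS ((s.filter fun i => c i = k) ∪ (s.filter fun i => c i = l)) f) :=
    (all_Ba1 G ι f).2.1 _ _ hsub hap
  by_cases hgen : ∀ i ∈ (s.filter fun i => c i = l), f i ∈ gen (s.filter fun i => c i = k) f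
  · obtain ⟨V', U', g1, g2, g3, g4, g5, g6, g7⟩ := all_T2 s.card
      (fun n _ => (all_main n).2 2 le_rfl) (fun n _ => (all_main n).1) G ι _ _ f hd hle hb1 hb2
      hUne hf' (hc.1 k) (hc.1 l) hap' hk hgen
    obtain ⟨c', hc', hlt⟩ := T5_step s f c hc k l hl.symm V' U' g1 g2 g3 g4 g5 hk g6 (fun _ => g7)
    exact hmin c' hc' hlt
  · push Not at hgen
    obtain ⟨z, hz, hzg⟩ := hgen
    obtain ⟨V', U', g1, g2, g3, g4, g5, g6, g7⟩ := all_T3 s.card
      (fun n _ => (all_main n).2 2 le_rfl) (fun n _ => (all_main n).1) G ι _ _ f z hd hle hb1 hb2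
      hz hf' (hc.1 k) (hc.1 l) hap' hk hzg
    obtain ⟨c', hc', hlt⟩ := T5_step s f c hc k l hl.symm V' U' g1 g2 g3 g4 g5 hk g6
      (fun h => absurd h g7)
    exact hmin c' hc' hlt

/-- Kneser over the classes of a colouring, in terms of a lower bound for the classes -/
theorem W2_sum {G ι : Type} [AddCommGroup G] [Finite G] {h : ℕ} (s : Finset ι) (f : ι → G)
    (c : ι → Fin h) (hap : Aper (FS s f)) :
    1 + ∑ k : Fin h, ((FS (s.filter fun i => c i = k) f).card - 1) ≤ (FS s f).card := by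
  have h3 := all_Kp G ι (Fin h) s f c Finset.univ (fun i _ => Finset.mem_univ _) hap
  refine le_trans (le_of_eq ?_) h3
  exact congrArg (fun z => 1 + z) (Finset.sum_congr rfl fun k _ => T5_card s f c k _ _)

theorem W2_size {ι : Type} {h : ℕ} (s : Finset ι) (c : ι → Fin h) :
    ∑ k : Fin h, (s.filter fun i => c i = k).card = s.card :=
  (Finset.card_eq_sum_card_fiberwise fun _ _ => Finset.mem_coe.2 (Finset.mem_univ _)).symm

theorem W2_Nm3 {ι : Type} {h : ℕ} (hh : 1 ≤ h) (s : Finset ι) (c : ι → Fin h) :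
    cf (2 * h) s.card ≤ 1 + ∑ k : Fin h, (cf 2 (s.filter fun i => c i = k).card - 1) := by
  have h1 := all_Nm3 (Fin h) Finset.univ (fun k => (s.filter fun i => c i = k).card)
    (by rw [Finset.card_univ, Fintype.card_fin]; omega)
  rw [Finset.card_univ, Fintype.card_fin, W2_size] at h1
  exact h1

theorem W2_Aper {G ι : Type} [AddCommGroup G] (d1 d2 : DecidableEq G) (s : Finset ι) (f : ι → G)
    (h : Aper (@FS ι G _ d1 s f)) : Aper (@FS ι G _ d2 s f) := by
  rw [Subsingleton.elim d2 d1]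
  exact h

/-- all classes generate `G` -/
theorem W2_A (G ι : Type) [AddCommGroup G] [Finite G] (g : ℕ) (hM : M1P G g) (h : ℕ)
    (hh : 2 ≤ h) (s : Finset ι) (f : ι → G) (hf : ∀ i ∈ s, f i ≠ 0) (hap : Aper (FS s f))
    (c : ι → Fin h) (hc : T5_good s f c) (hv : ∀ k, ¬ Vio (s.filter fun i => c i = k) f)
    (k : Fin h) (_hk : ∀ l, (s.filter fun i => c i = l).card ≤ (s.filter fun i => c i = k).card)
    (hk1 : 1 ≤ (s.filter fun i => c i = k).card)
    (hg : ∀ l, gen (s.filter fun i => c i = l) f = ⊤) :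
    ∃ X, min (pn (s.filter fun i => c i = k).card) (cf 2 (s.filter fun i => c i = k).card + g) ≤ X ∧
      cf (2 * h) s.card + X ≤ (FS s f).card + cf 2 (s.filter fun i => c i = k).card := by
  obtain ⟨l, hl⟩ : ∃ l : Fin h, l ≠ k := by
    have : Nontrivial (Fin h) := Fin.nontrivial_iff_two_le.2 hh
    exact exists_ne k
  have hsubk : (s.filter fun i => c i = k) ⊆ s := Finset.filter_subset _ _
  have hsubl : (s.filter fun i => c i = l) ⊆ s := Finset.filter_subset _ _
  have hd : Disjoint (s.filter fun i => c i = k) (s.filter fun i => c i = l) := by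
    rw [Finset.disjoint_left]
    intro i h1 h3
    exact hl ((Finset.mem_filter.1 h3).2.symm.trans (Finset.mem_filter.1 h1).2)
  have hapk : Aper (FS (s.filter fun i => c i = k) f) := (all_Ba1 G ι f).2.1 _ _ hsubk hap
  have hapkl : Aper (FS (s.filter fun i => c i = k) f + FS (s.filter fun i => c i = l) f) := by
    rw [← (all_Ba1 G ι f).1 _ _ hd]
    exact (all_Ba1 G ι f).2.1 _ _ (Finset.union_subset hsubk hsubl) hap
  obtain ⟨i0, hi0⟩ := Finset.card_pos.1 (by omega : 0 < (s.filter fun i => c i = k).card)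
  have htop : (⊤ : AddSubgroup G) ≠ ⊥ := by
    intro h1
    have h2 : f i0 ∈ (⊤ : AddSubgroup G) := AddSubgroup.mem_top _
    rw [h1, AddSubgroup.mem_bot] at h2
    exact hf i0 (hsubk hi0) h2
  have h1 := (all_Kn G).2.1 (FS (s.filter fun i => c i = k) f) (FS (s.filter fun i => c i = l) f) ⊤
    ⟨0, zero_mem_FS _ _⟩ ⟨0, zero_mem_FS _ _⟩ htop (fun _ _ => AddSubgroup.mem_top _)
    (fun _ _ => AddSubgroup.mem_top _) hapkl
  rw [AddSubgroup.card_top] at h1
  have h2 : cf 2 (s.filter fun i => c i = l).card ≤ (FS (s.filter fun i => c i = l) f).card :=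
    not_lt.1 (hv l)
  have h3 : cf 2 ((s.filter fun i => c i = k).card - 1) ≤ cf 2 (s.filter fun i => c i = l).card :=
    all_Nm1.2.2.2.1 2 _ _ (by have := hc.2 k l; omega)
  have h4 := W2_full _ hk1
  have h5 : min (pn (s.filter fun i => c i = k).card) (cf 2 (s.filter fun i => c i = k).card + g) ≤
      (FS (s.filter fun i => c i = k) f).card := by
    rcases hM ι (s.filter fun i => c i = k) f (fun i hi => hf i (hsubk hi)) (hc.1 k) hapk (hg k)
      with h6 | h6
    · exact h6
    · omega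
  refine ⟨_, h5, ?_⟩
  have h6 := W2_sum s f c hap
  have h7 := W2_Nm3 (by omega) s c
  have h8 := Finset.add_sum_erase Finset.univ
    (fun m : Fin h => (FS (s.filter fun i => c i = m) f).card - 1) (Finset.mem_univ k)
  have h9 := Finset.add_sum_erase Finset.univ
    (fun m : Fin h => cf 2 (s.filter fun i => c i = m).card - 1) (Finset.mem_univ k)
  have h10 : ∑ m ∈ Finset.univ.erase k, (cf 2 (s.filter fun i => c i = m).card - 1) ≤
      ∑ m ∈ Finset.univ.erase k, ((FS (s.filter fun i => c i = m) f).card - 1) :=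
    Finset.sum_le_sum fun m _ => Nat.sub_le_sub_right (not_lt.1 (hv m)) 1
  have h11 : 1 ≤ (FS (s.filter fun i => c i = k) f).card := Finset.card_pos.2 ⟨0, zero_mem_FS _ _⟩
  have h12 : 1 ≤ cf 2 (s.filter fun i => c i = k).card := by
    have := all_Nm1.2.2.2.2.2 2 (s.filter fun i => c i = k).card
    omega
  omega

/-- some class does not generate `G` -/
theorem W2_B (G ι : Type) [AddCommGroup G] [Finite G] (h : ℕ) (hh : 2 ≤ h) (s : Finset ι)
    (f : ι → G) (hf : ∀ i ∈ s, f i ≠ 0) (hap : Aper (FS s f)) (hgs : gen s f = ⊤)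
    (c : ι → Fin h) (hc : T5_good s f c) (hv : ∀ k, ¬ Vio (s.filter fun i => c i = k) f)
    (q : ℕ) (hq1 : ∀ l, (s.filter fun i => c i = l).card ≤ q)
    (hq2 : ∀ l, q ≤ (s.filter fun i => c i = l).card + 1) (k : Fin h)
    (hg : gen (s.filter fun i => c i = k) f ≠ ⊤) :
    cf (2 * h) s.card + cf 4 (q - 1) ≤ (FS s f).card + jj q := by
  obtain ⟨z, hz, hzg⟩ : ∃ z ∈ s, f z ∉ gen (s.filter fun i => c i = k) f := by
    by_contra hcon
    push Not at hcon
    apply hg
    rw [eq_top_iff, ← hgs]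
    unfold gen
    rw [AddSubgroup.closure_le]
    rintro _ ⟨i, hi, rfl⟩
    exact hcon i (Finset.mem_coe.1 hi)
  obtain ⟨m, hm⟩ : ∃ m, m = c z := ⟨_, rfl⟩
  have hmem : ∀ i ∈ (s.filter fun i => c i = k), f i ∈ gen (s.filter fun i => c i = k) f :=
    fun i hi => AddSubgroup.subset_closure ⟨i, Finset.mem_coe.2 hi, rfl⟩
  have hzk : z ∉ s.filter fun i => c i = k := fun h1 => hzg (hmem z h1)
  have hmk : m ≠ k := by
    intro h1
    exact hzk (Finset.mem_filter.2 ⟨hz, by rw [← hm, h1]⟩)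
  have hzm : z ∈ s.filter fun i => c i = m := Finset.mem_filter.2 ⟨hz, hm.symm⟩
  obtain ⟨A, hA⟩ : ∃ A, A = s.filter fun i => c i = k := ⟨_, rfl⟩
  obtain ⟨B, hB⟩ : ∃ B, B = s.filter fun i => c i = m := ⟨_, rfl⟩
  have hAs : A ⊆ s := by rw [hA]; exact Finset.filter_subset _ _
  have hBs : B ⊆ s := by rw [hB]; exact Finset.filter_subset _ _
  rw [← hA] at hzk hzg hmem
  rw [← hB] at hzm
  have hAB : Disjoint A B := by
    rw [hA, hB, Finset.disjoint_left]
    intro i h1 h3
    exact hmk ((Finset.mem_filter.1 h3).2.symm.trans (Finset.mem_filter.1 h1).2)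
  have hd : Disjoint (insert z A) (B.erase z) := by
    rw [Finset.disjoint_insert_left]
    exact ⟨Finset.notMem_erase z B, Finset.disjoint_of_subset_right (Finset.erase_subset _ _) hAB⟩
  have hu : insert z A ∪ B.erase z = A ∪ B := by
    ext i
    simp only [Finset.mem_union, Finset.mem_insert, Finset.mem_erase]
    constructor
    · rintro ((rfl | h1) | ⟨-, h1⟩)
      · exact Or.inr hzm
      · exact Or.inl h1
      · exact Or.inr h1
    · rintro (h1 | h1)
      · exact Or.inl (Or.inr h1)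
      · by_cases h2 : i = z
        · exact Or.inl (Or.inl h2)
        · exact Or.inr ⟨h2, h1⟩
  have hu' : insert z A ∪ B.erase z = (s.filter fun i => c i = k) ∪ (s.filter fun i => c i = m) := by
    rw [hu, hA, hB]
  obtain ⟨e1, e2, e3⟩ := T5_class s c k m hmk.symm (insert z A) (B.erase z) hd hu'
  obtain ⟨c', hc'⟩ : ∃ c', c' = T5_col c k m (insert z A) (B.erase z) := ⟨_, rfl⟩
  rw [← hc'] at e1 e2 e3
  -- the two new classes
  have hins : insert z A ⊆ s := Finset.insert_subset hz hAs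
  have herA : (insert z A).erase z = A := Finset.erase_insert hzk
  have g1 : (FS (insert z A) f).card = 2 * (FS A f).card := by
    have h1 := (all_Ba1 G ι f).2.2.2.1 (insert z A) z (Finset.mem_insert_self z A)
      (by rw [herA]; exact hzg)
    rw [herA] at h1
    exact h1
  have g2 : cf 4 (B.card - 1) ≤ (FS (B.erase z) f).card := by
    have h1 : (B.erase z).card = B.card - 1 := Finset.card_erase_of_mem hzm
    have hsub : B.erase z ⊆ s := (Finset.erase_subset _ _).trans hBs
    have h2 := (all_main (B.card - 1)).2 2 le_rfl G ι (B.erase z) f h1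
      (fun i hi => hf i (hsub hi)) (fun x => by
        have h3 := hc.1 m x
        rw [← hB] at h3
        exact ((Finset.card_le_card (Finset.filter_subset_filter _
          (Finset.erase_subset z B))).trans h3).trans (by norm_num))
      (W2_Aper _ _ _ _ ((all_Ba1 G ι f).2.1 s _ hsub hap))
    exact h2
  have g3 : cf 2 A.card ≤ (FS A f).card := by
    have h1 := hv k
    rw [← hA] at h1
    exact not_lt.1 h1
  -- sums
  have h6 := W2_sum s f c' hap
  have h7 := W2_Nm3 (by omega) s c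
  have h8 := Finset.add_sum_erase Finset.univ
    (fun l : Fin h => (FS (s.filter fun i => c' i = l) f).card - 1) (Finset.mem_univ k)
  have h8' := Finset.add_sum_erase (Finset.univ.erase k)
    (fun l : Fin h => (FS (s.filter fun i => c' i = l) f).card - 1)
    (Finset.mem_erase.2 ⟨hmk, Finset.mem_univ m⟩)
  have h9 := Finset.add_sum_erase Finset.univ
    (fun l : Fin h => cf 2 (s.filter fun i => c i = l).card - 1) (Finset.mem_univ k)
  have h9' := Finset.add_sum_erase (Finset.univ.erase k)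
    (fun l : Fin h => cf 2 (s.filter fun i => c i = l).card - 1)
    (Finset.mem_erase.2 ⟨hmk, Finset.mem_univ m⟩)
  have h10 : ∑ l ∈ (Finset.univ.erase k).erase m, (cf 2 (s.filter fun i => c i = l).card - 1) ≤
      ∑ l ∈ (Finset.univ.erase k).erase m, ((FS (s.filter fun i => c' i = l) f).card - 1) := by
    refine Finset.sum_le_sum fun l hl => Nat.sub_le_sub_right ?_ 1
    have hlm := (Finset.mem_erase.1 hl).1
    have hlk := (Finset.mem_erase.1 (Finset.mem_erase.1 hl).2).1
    rw [e3 l hlk hlm]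
    exact not_lt.1 (hv l)
  rw [e1] at h8
  rw [e2] at h8'
  rw [← hA] at h9
  rw [← hB] at h9'
  rw [g1] at h8
  have h12 : 1 ≤ cf 2 A.card := by
    have := all_Nm1.2.2.2.2.2 2 A.card
    omega
  have h13 : 1 ≤ cf 2 B.card := by
    have := all_Nm1.2.2.2.2.2 2 B.card
    omega
  have h14 : 1 ≤ (FS (B.erase z) f).card := Finset.card_pos.2 ⟨0, zero_mem_FS _ _⟩
  -- numbers
  have ha1 := hq1 k
  have ha2 := hq2 k
  have hb1 := hq1 m
  have hb2 := hq2 m
  rw [← hA] at ha1 ha2
  rw [← hB] at hb1 hb2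
  have hB0 : 1 ≤ B.card := Finset.card_pos.2 ⟨z, hzm⟩
  have hnum : cf 2 B.card + cf 4 (q - 1) ≤ cf 2 A.card + cf 4 (B.card - 1) + jj q := by
    obtain ⟨a, ha⟩ : ∃ a, a = A.card := ⟨_, rfl⟩
    obtain ⟨b, hb⟩ : ∃ b, b = B.card := ⟨_, rfl⟩
    rw [← ha, ← hb]
    rw [← ha] at ha1 ha2
    rw [← hb] at hb1 hb2 hB0
    have hstep2 : ∀ x, cf 2 (x + 1) = cf 2 x + x / 2 + 1 := fun x => all_Nm1.1 2 x
    have hstep4 : ∀ x, cf 4 (x + 1) = cf 4 x + x / 4 + 1 := fun x => all_Nm1.1 4 x
    have hmono : cf 2 b ≤ cf 2 a + jj q ∧ (b + 1 ≤ q → cf 2 b ≤ cf 2 a) := by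
      constructor
      · rcases Nat.lt_or_ge a b with h1 | h1
        · have : b = a + 1 := by omega
          subst this
          have := hstep2 a
          unfold jj
          omega
        · have := all_Nm1.2.2.2.1 2 b a h1
          omega
      · intro h1
        exact all_Nm1.2.2.2.1 2 b a (by omega)
    rcases Nat.lt_or_ge b q with h1 | h1
    · have h2 := hmono.2 h1
      have h3 : q - 1 = (b - 1) + 1 := by omega
      have h4 := hstep4 (b - 1)
      rw [h3, h4]
      unfold jj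
      omega
    · have h2 := hmono.1
      have h3 : q = b := by omega
      rw [h3] at h2 ⊢
      omega
  omega

/-- **W2.** -/
theorem thm_W2 (G ι : Type) [AddCommGroup G] [Finite G] (l : ℕ) (hl : 1 ≤ l)
    (hM : M1P G (l - 1)) (h : ℕ) (hh : 2 ≤ h) (s : Finset ι) (f : ι → G)
    (hf : ∀ i ∈ s, f i ≠ 0) (hcap : Cap (2 * h) s f) (hap : Aper (FS s f)) (hgs : gen s f = ⊤)
    (ht : h * (l - 1) + 1 ≤ s.card) :
    l * cf (2 * (h * l)) (s.card + h - h * l) ≤ (FS s f).card := by
  obtain ⟨c, hc, hv⟩ := W2_col h hh G ι s f hf hcap hap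
  have : NeZero h := ⟨by omega⟩
  obtain ⟨k, hk⟩ := Finite.exists_max fun l : Fin h => (s.filter fun i => c i = l).card
  obtain ⟨q, hq⟩ : ∃ q, q = (s.filter fun i => c i = k).card := ⟨_, rfl⟩
  have hsz := W2_size s c
  have hle : s.card ≤ h * q := by
    rw [← hsz, hq]
    calc ∑ l : Fin h, (s.filter fun i => c i = l).card
        ≤ ∑ _l : Fin h, (s.filter fun i => c i = k).card := Finset.sum_le_sum fun l _ => hk l
      _ = h * (s.filter fun i => c i = k).card := by
          rw [Finset.sum_const, Finset.card_univ, Fintype.card_fin, smul_eq_mul]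
  have hq1 : 1 ≤ q := by
    rcases Nat.eq_zero_or_pos q with h1 | h1
    · rw [h1, mul_zero] at hle
      omega
    · exact h1
  by_cases hall : ∀ l, gen (s.filter fun i => c i = l) f = ⊤
  · obtain ⟨X, hX1, hX2⟩ := W2_A G ι (l - 1) hM h hh s f hf hap c hc hv k hk
      (by rw [← hq]; exact hq1) hall
    rw [← hq] at hX1 hX2
    have h1 := W2_num1 h l s.card q X hh hl ht hq1 hle hX1
    omega
  · push Not at hall
    obtain ⟨m, hm⟩ := hall
    have h1 := W2_B G ι h hh s f hf hap hgs c hc hv q (fun l => by rw [hq]; exact hk l)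
      (fun l => by rw [hq]; exact hc.2 k l) m hm
    have h2 := W2_num2 h l s.card q hh hl ht hq1 hle
    omega

end Pool.Agent.SNW
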