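import Pool.Agent.SNW.Up4

/-!
# SNW, module Up5 (helper48): the upper bound, final form
-/

set_option autoImplicit false

noncomputable section

open Finset Pool.Agent.Helper64.Rho
open scoped Classical Pointwise

namespace Pool.Agent.SNW

open Pool.Agent.SDG

theorem Up_triv2 (G : Type) [AddCommGroup G] [Finite G] (a b : G)
    (hab : AddSubgroup.closure {a, b} = ⊤) (m : ℕ) (hm : 2 ≤ m) (hmn : m < Nat.card G) :
    ∃ A : Finset G, (0 : G) ∉ A ∧ A.card = m ∧ AddSubgroup.closure (A : Set G) = ⊤ ∧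
      (FS A id).card ≤ Nat.card G := by
  have hsub : ({a, b} : Finset G).erase 0 ⊆ Hs (⊤ : AddSubgroup G) := by
    intro z hz
    rw [mem_Hs]
    exact ⟨(mem_erase.1 hz).1, AddSubgroup.mem_top z⟩
  have hle : (({a, b} : Finset G).erase 0).card ≤ m :=
    (card_le_card (erase_subset _ _)).trans (card_le_two.trans hm)
  obtain ⟨A, hA1, hA2, hA3⟩ := Finset.exists_subsuperset_card_eq hsub hle
    (by rw [card_Hs, AddSubgroup.card_top]; omega)
  refine ⟨A, fun h1 => ((mem_Hs _ _).1 (hA2 h1)).1 rfl, hA3, ?_, ?_⟩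
  · rw [eq_top_iff, ← hab, AddSubgroup.closure_le]
    intro z hz
    by_cases h1 : z = 0
    · rw [h1]
      exact AddSubgroup.zero_mem _
    · refine AddSubgroup.subset_closure ?_
      have h2 : z ∈ ({a, b} : Finset G).erase 0 := by
        rw [mem_erase, mem_insert, mem_singleton]
        exact ⟨h1, hz⟩
      exact_mod_cast hA1 h2
  · have := Fintype.ofFinite G
    rw [Nat.card_eq_fintype_card]
    exact card_le_univ _

theorem bot_cyc (G : Type) [AddCommGroup G] (h : ¬ IsAddCyclic (G ⧸ (⊥ : AddSubgroup G))) :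
    ¬ IsAddCyclic G := by
  intro h1
  exact h (isAddCyclic_of_surjective (QuotientAddGroup.mk' (⊥ : AddSubgroup G))
    (QuotientAddGroup.mk'_surjective _))

theorem U3_low (G : Type) [AddCommGroup G] [Finite G] (x y : G) (hnc : ¬ IsAddCyclic G)
    (hxy : AddSubgroup.closure {x, y} = ⊤) (hy : addOrderOf y = 2) (m v : ℕ) (hm : 2 ≤ m)
    (hv : 2 * cf 4 (m - 1) ≤ v) (hvn : v ≤ Nat.card G) :
    ∃ A : Finset G, (0 : G) ∉ A ∧ A.card = m ∧ AddSubgroup.closure (A : Set G) = ⊤ ∧
      (FS A id).card ≤ v := by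
  have hH : Nat.card (AddSubgroup.zmultiples y) = 2 := by rw [Nat.card_zmultiples, hy]
  have hT : AddSubgroup.zmultiples y ≠ ⊤ := by
    intro h1
    apply hnc
    refine ⟨⟨y, fun z => ?_⟩⟩
    have h2 : z ∈ AddSubgroup.zmultiples y := h1 ▸ AddSubgroup.mem_top z
    exact AddSubgroup.mem_zmultiples_iff.1 h2
  have hc : IsAddCyclic (G ⧸ AddSubgroup.zmultiples y) := by
    refine cyc_gen _ x fun z => ?_
    obtain ⟨i, j, rfl⟩ := mem_pair hxy z
    refine ⟨i, ?_⟩
    rw [add_sub_cancel_left]
    exact AddSubgroup.zsmul_mem_zmultiples y j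
  have hmax : max 1 (m + 1 - 2) = m - 1 := by omega
  have h1 := U1 G (AddSubgroup.zmultiples y) hT hc x y hxy m hm
  rw [hH, hmax] at h1
  obtain ⟨A, hA1, hA2, hA3, hA4⟩ := h1 (hv.trans hvn)
  exact ⟨A, hA1, hA2, hA3, hA4.trans hv⟩

/-- **The upper bound for all finite abelian groups with two generators.** -/
theorem thm_Up2 (G : Type) [AddCommGroup G] [Finite G] (a b : G)
    (hab : AddSubgroup.closure {a, b} = ⊤) (m : ℕ) (hm : 1 ≤ m) (hmn : m < Nat.card G)
    (hm2 : ¬ IsAddCyclic G → 2 ≤ m) :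
    ∃ A : Finset G, (0 : G) ∉ A ∧ A.card = m ∧ AddSubgroup.closure (A : Set G) = ⊤ ∧
      (FS A id).card ≤ bd2 G m := by
  have hmem : bd2 G m ∈ ({Nat.card G} ∪ {v | ∃ H : AddSubgroup G, H ≠ ⊤ ∧ v = val2 m H} : Set ℕ) :=
    Nat.sInf_mem ⟨Nat.card G, Or.inl rfl⟩
  rcases Nat.lt_or_ge m 2 with h1 | h1
  · -- one element
    have hm1 : m = 1 := by omega
    subst hm1
    have hcyc : IsAddCyclic G := by
      by_contra h2
      have := hm2 h2
      omega
    obtain ⟨g, hg⟩ := hcyc.exists_zsmul_surjective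
    have hg0 : g ≠ 0 := by
      rintro rfl
      have h2 : ∀ z : G, z = 0 := by
        intro z
        obtain ⟨k, hk⟩ := hg z
        simp only [smul_zero] at hk
        exact hk.symm
      have h3 : Subsingleton G := ⟨fun u v => by rw [h2 u, h2 v]⟩
      have := Finite.card_le_one_iff_subsingleton.2 h3
      omega
    have h2le : 2 ≤ bd2 G 1 := by
      rcases hmem with h2 | ⟨H, hH, h2⟩
      · rw [Set.mem_singleton_iff] at h2
        omega
      · have hq : IsAddCyclic (G ⧸ H) := isAddCyclic_of_surjective (QuotientAddGroup.mk' H)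
          (QuotientAddGroup.mk'_surjective _)
        have h3 : 0 < Nat.card H := Nat.card_pos
        have h4 : max 1 (1 + 1 - Nat.card H) = 1 := by omega
        have h5 : cf (2 * Nat.card H) 1 = 2 := by simp [cf]
        rw [h2, val2, if_pos hq, h4, h5]
        omega
    refine ⟨{g}, ?_, card_singleton g, ?_, ?_⟩
    · rw [mem_singleton]
      exact hg0.symm
    · rw [eq_top_iff]
      intro z _
      obtain ⟨k, hk⟩ := hg z
      simp only at hk
      rw [← hk]
      exact AddSubgroup.zsmul_mem _ (AddSubgroup.subset_closure (by simp)) k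
    · refine le_trans ?_ h2le
      have h3 : FS ({g} : Finset G) id ⊆ {0, g} := by
        intro z hz
        obtain ⟨B, hB, rfl⟩ := mem_FS.1 hz
        rcases subset_singleton_iff.1 hB with rfl | rfl
        · simp
        · simp
      exact (card_le_card h3).trans card_le_two
  · obtain ⟨A, hA0, hAm, hAg, hAn⟩ := Up_triv2 G a b hab m h1 hmn
    by_cases hbn : Nat.card G ≤ bd2 G m
    · exact ⟨A, hA0, hAm, hAg, hAn.trans hbn⟩
    push Not at hbn
    rcases hmem with h2 | ⟨H, hH, h2⟩
    · rw [Set.mem_singleton_iff] at h2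
      omega
    rw [h2] at hbn ⊢
    unfold val2 at hbn ⊢
    by_cases hc : IsAddCyclic (G ⧸ H)
    · rw [if_pos hc] at hbn ⊢
      exact U1 G H hH hc a b hab m h1 hbn.le
    rw [if_neg hc] at hbn ⊢
    by_cases hb : H = ⊥
    · rw [if_pos hb] at hbn ⊢
      subst hb
      have hnc := bot_cyc G hc
      by_cases hm46 : m = 4 ∨ m = 6
      · obtain ⟨x, y, hxy, hox, hoxy, hind⟩ := pair_basis G a b hab
        have hyx : addOrderOf y ≤ addOrderOf x := by
          rw [hox]
          exact Nat.le_of_dvd (exp_pos G) (AddMonoid.addOrder_dvd_exponent _)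
        have hy0 : addOrderOf y ≠ 0 := (addOrderOf_pos y).ne'
        have hy1 : addOrderOf y ≠ 1 := by
          intro h3
          rw [AddMonoid.addOrderOf_eq_one_iff] at h3
          subst h3
          apply hnc
          refine ⟨⟨x, fun z => ?_⟩⟩
          obtain ⟨i, j, rfl⟩ := mem_pair hxy z
          exact ⟨i, by simp⟩
        by_cases hy2 : addOrderOf y = 2
        · refine U3_low G x y hnc hxy hy2 m (pn m) h1 ?_ hbn.le
          rcases hm46 with rfl | rfl
          · simp [pn, cf, Finset.sum_range_succ]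
          · simp [pn, cf, Finset.sum_range_succ]
        · rcases hm46 with rfl | rfl
          · have h3 : pn 4 = 9 := by simp [pn]
            rw [h3]
            exact U3_four G x y hxy (by omega) (by omega) hind
          · have h3 : pn 6 = 19 := by simp [pn]
            rw [h3]
            exact U3_six G x y hxy (by omega) (by omega) hind
      · have h3 : pn m = 2 * Nat.card (⊥ : AddSubgroup G) *
            cf (2 * Nat.card (⊥ : AddSubgroup G)) (max 1 (m - Nat.card (⊥ : AddSubgroup G))) := by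
          have h4 : max 1 (m - 1) = m - 1 := by omega
          unfold pn
          rw [if_neg (by tauto), if_neg (by tauto), AddSubgroup.card_bot, h4]
        rw [h3] at hbn ⊢
        exact U2 G ⊥ hc a b hab m h1 hbn.le
    · rw [if_neg hb] at hbn ⊢
      exact U2 G H hc a b hab m h1 hbn.le

theorem ncard_subsetSums {G : Type} [AddCommGroup G] [Finite G] (A : Finset G) :
    (subsetSums A).ncard = (FS A id).card := by
  have h1 : subsetSums A = ((FS A id : Finset G) : Set G) := by
    ext x
    simp only [subsetSums, Set.mem_setOf_eq, mem_coe, mem_FS, id]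
  rw [h1, Set.ncard_coe_finset]

/-- in terms of `rho` -/
theorem rho_le_bd2 (G : Type) [AddCommGroup G] [Finite G] (a b : G)
    (hab : AddSubgroup.closure {a, b} = ⊤) (m : ℕ) (hm : 1 ≤ m) (hmn : m < Nat.card G)
    (hm2 : ¬ IsAddCyclic G → 2 ≤ m) :
    (sizes G m).Nonempty ∧ rho G m ≤ bd2 G m := by
  obtain ⟨A, hA0, hAm, hAg, hA⟩ := thm_Up2 G a b hab m hm hmn hm2
  have h1 : (subsetSums A).ncard ∈ sizes G m := ⟨A, hA0, hAm, hAg, rfl⟩
  refine ⟨⟨_, h1⟩, (Nat.sInf_le h1).trans ?_⟩
  rw [ncard_subsetSums]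
  exact hA

end Pool.Agent.SNW
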