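import Pool.Agent.SNW.Fx
import Pool.Agent.SNT.M1
import Pool.Agent.SDX.All

/-!
# SNW, module FinR2 (helper48): the exact value for all groups with two generators
-/

set_option autoImplicit false

noncomputable section

open Finset Pool.Agent.Helper64.Rho
open scoped Classical Pointwise

namespace Pool.Agent.SNW

open Pool.Agent.SDG

theorem two_quot (G : Type) [AddCommGroup G] (a b : G)
    (hab : AddSubgroup.closure {a, b} = ⊤) (P : AddSubgroup G) :
    AddSubgroup.closure {(QuotientAddGroup.mk a : G ⧸ P), QuotientAddGroup.mk b} = ⊤ := by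
  have h := AddMonoidHom.map_closure (QuotientAddGroup.mk' P) {a, b}
  rw [hab, AddSubgroup.map_top_of_surjective _ (QuotientAddGroup.mk'_surjective P),
    Set.image_pair] at h
  exact h.symm

/-- the almost full case in all noncyclic groups with two generators -/
theorem all_NFP3_R2 (G : Type) [AddCommGroup G] [Finite G] (a b : G)
    (hab : AddSubgroup.closure {a, b} = ⊤) (hc : ¬ IsAddCyclic G) : NFP3 G :=
  Pool.Agent.SDX.all_NFP3 G (Pool.Agent.SNT.R2_of_two G a b hab) hc
    (Pool.Agent.SNT.all_M1P2 G a b hab hc)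

/-- **The exact value for all groups with two generators.** -/
theorem all_Fin3 (G : Type) [AddCommGroup G] [Finite G] (a b : G)
    (hab : AddSubgroup.closure {a, b} = ⊤) (m : ℕ) (hm : 1 ≤ m) :
    ((sizes G m).Nonempty ↔ m < Nat.card G ∧ (¬ IsAddCyclic G → 2 ≤ m)) ∧
      (m < Nat.card G → (¬ IsAddCyclic G → 2 ≤ m) → rho G m = bd3 G m) :=
  thm_Fin3 G a b hab
    (fun P hP => Pool.Agent.SNT.all_M1P2 (G ⧸ P) _ _ (two_quot G a b hab P) hP)
    (fun hc => Pool.Agent.SNT.all_M1P2 G a b hab hc)
    (fun hc => all_NFP3_R2 G a b hab hc) m hm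

end Pool.Agent.SNW
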