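import Pool.Agent.SNW.N12

/-!
# SNW, module Cd (helper48): candidates and quotients of families
-/

set_option autoImplicit false

noncomputable section

open Finset Pool.Agent.Helper64.Rho
open scoped Classical Pointwise

namespace Pool.Agent.SNW

open Pool.Agent.SDG

/-- `|G| / exp G` -/
def l0 (G : Type) [AddCommGroup G] : ℕ := Nat.card G / AddMonoid.exponent G

/-! ### quotients -/

theorem q_exists (G : Type) [AddCommGroup G] [Finite G] (P : AddSubgroup G) :
    ∃ (H : Type) (_ : AddCommGroup H) (_ : Finite H) (π : G →+ H), Function.Surjective π ∧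
      (∀ x, π x = 0 ↔ x ∈ P) ∧ Nat.card G = Nat.card P * Nat.card H := by
  refine ⟨G ⧸ P, inferInstance, inferInstance, QuotientAddGroup.mk' P,
    QuotientAddGroup.mk'_surjective P, fun x => QuotientAddGroup.eq_zero_iff x, ?_⟩
  rw [AddSubgroup.card_eq_card_quotient_mul_card_addSubgroup P, mul_comm]

section quot

variable {G H ι : Type} [AddCommGroup G] [Finite G] [AddCommGroup H] [Finite H]
  (s : Finset ι) (f : ι → G) (P : AddSubgroup G) (π : G →+ H)

theorem fin_exists (L : AddSubgroup G) :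
    ∃ F : Finset G, (∀ x, x ∈ F ↔ x ∈ L) ∧ F.card = Nat.card L := by
  refine ⟨(Set.toFinite (L : Set G)).toFinset, fun x => by simp, ?_⟩
  rw [← Set.ncard_eq_toFinset_card]
  rfl

variable {s f P π}

theorem q_eq (hk : ∀ x, π x = 0 ↔ x ∈ P) (x y : G) : π x = π y ↔ y - x ∈ P := by
  rw [← hk, map_sub, sub_eq_zero]
  exact eq_comm

variable (s f)

theorem q_image (hk : ∀ x, π x = 0 ↔ x ∈ P) :
    FS (s.filter fun i => f i ∉ P) (fun i => π (f i)) = (FS s f).image π := by
  ext x
  rw [mem_image]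
  constructor
  · intro hx
    obtain ⟨t, ht, rfl⟩ := mem_FS.1 hx
    refine ⟨∑ i ∈ t, f i, mem_FS.2 ⟨t, ht.trans (filter_subset _ _), rfl⟩, ?_⟩
    rw [map_sum]
  · rintro ⟨y, hy, rfl⟩
    obtain ⟨t, ht, rfl⟩ := mem_FS.1 hy
    refine mem_FS.2 ⟨t.filter fun i => f i ∉ P, filter_subset_filter _ ht, ?_⟩
    rw [map_sum]
    apply sum_filter_of_ne
    intro i _ hi h
    exact hi ((hk _).2 h)

theorem q_st (hk : ∀ x, π x = 0 ↔ x ∈ P) (T : Finset G) (x : G) :
    x ∈ st T P ↔ π x ∈ T.image π := by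
  simp only [st, Set.Finite.mem_toFinset, Set.mem_ofPred_eq, mem_image]
  exact exists_congr fun a => and_congr_right fun _ => (q_eq hk a x).symm

theorem q_card (hk : ∀ x, π x = 0 ↔ x ∈ P) :
    Nat.card P * (FS (s.filter fun i => f i ∉ P) (fun i => π (f i))).card =
      (st (FS s f) P).card := by
  obtain ⟨PF, hPF, hPc⟩ := fin_exists P
  rw [q_image s f hk, card_eq_sum_card_fiberwise (s := st (FS s f) P) (f := π)
    (t := (FS s f).image π) (fun x hx => by
      rw [mem_coe] at hx ⊢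
      exact (q_st hk _ x).1 hx)]
  rw [mul_comm, ← smul_eq_mul, ← sum_const]
  refine sum_congr rfl fun C hC => ?_
  obtain ⟨a, ha, rfl⟩ := mem_image.1 hC
  rw [← hPc]
  symm
  refine card_bij (fun x _ => x - a) ?_ (fun x _ y _ h => sub_left_injective h) ?_
  · intro x hx
    rw [hPF]
    exact (q_eq hk _ _).1 (mem_filter.1 hx).2.symm
  · intro y hy
    rw [hPF] at hy
    refine ⟨a + y, ?_, by abel⟩
    have h2 : π (a + y) = π a := by
      rw [map_add, (hk y).2 hy, add_zero]
    rw [mem_filter, q_st hk, h2]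
    exact ⟨hC, rfl⟩

theorem q_aper (hs : Function.Surjective π) (hk : ∀ x, π x = 0 ↔ x ∈ P)
    (h : ∀ g : G, (∀ x ∈ st (FS s f) P, x + g ∈ st (FS s f) P) → g ∈ P) :
    Aper (FS (s.filter fun i => f i ∉ P) (fun i => π (f i))) := by
  rw [q_image s f hk]
  intro g hg
  obtain ⟨g, rfl⟩ := hs g
  rw [hk]
  apply h
  intro x hx
  rw [q_st hk] at hx ⊢
  rw [map_add]
  exact hg _ hx

theorem q_ne (hk : ∀ x, π x = 0 ↔ x ∈ P) : ∀ i ∈ s.filter fun i => f i ∉ P, π (f i) ≠ 0 := by
  intro i hi h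
  exact (mem_filter.1 hi).2 ((hk _).1 h)

theorem q_cap (hs : Function.Surjective π) (hk : ∀ x, π x = 0 ↔ x ∈ P) (g : ℕ)
    (hC : Cap g s f) :
    Cap (g * Nat.card P) (s.filter fun i => f i ∉ P) (fun i => π (f i)) := by
  obtain ⟨PF, hPF, hPc⟩ := fin_exists P
  intro x
  obtain ⟨x, rfl⟩ := hs x
  have h2 : (PF.image (x + ·)).card = Nat.card P := by
    rw [card_image_of_injective _ (add_right_injective x), hPc]
  rw [← h2]
  refine card_le_mul_card_image_of_maps_to
    (f := fun i => if π (f i) = π x then f i else - f i) ?_ g ?_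
  · intro i hi
    rw [mem_filter] at hi
    rw [mem_image]
    by_cases h3 : π (f i) = π x
    · refine ⟨f i - x, ?_, by simp [h3]⟩
      rw [hPF, ← q_eq hk]
      exact h3.symm
    · have h4 : π (f i) = - π x := hi.2.resolve_left h3
      refine ⟨-f i - x, ?_, by simp [h3]⟩
      rw [hPF, ← q_eq hk, map_neg, h4, neg_neg]
  · intro y _
    refine (card_le_card ?_).trans (hC y)
    intro i hi
    rw [mem_filter, mem_filter, mem_filter] at hi
    rw [mem_filter]
    refine ⟨hi.1.1.1, ?_⟩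
    by_cases h3 : π (f i) = π x
    · left
      simpa [h3] using hi.2
    · right
      rw [← hi.2, if_neg h3, neg_neg]

theorem q_gen (hs : Function.Surjective π) (hk : ∀ x, π x = 0 ↔ x ∈ P) (hg : gen s f = ⊤) :
    gen (s.filter fun i => f i ∉ P) (fun i => π (f i)) = ⊤ := by
  rw [eq_top_iff]
  rintro y -
  obtain ⟨x, rfl⟩ := hs y
  have hx : x ∈ gen s f := by rw [hg]; trivial
  unfold gen at hx
  induction hx using AddSubgroup.closure_induction with
  | mem x hx =>
    obtain ⟨i, hi, rfl⟩ := hx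
    by_cases h1 : f i ∈ P
    · rw [(hk _).2 h1]
      exact AddSubgroup.zero_mem _
    · exact AddSubgroup.subset_closure ⟨i, mem_coe.2 (mem_filter.2 ⟨mem_coe.1 hi, h1⟩), rfl⟩
  | zero =>
    rw [map_zero]
    exact AddSubgroup.zero_mem _
  | add x y _ _ hx hy =>
    rw [map_add]
    exact AddSubgroup.add_mem _ hx hy
  | neg x _ hx =>
    rw [map_neg]
    exact AddSubgroup.neg_mem _ hx

/-- every class which meets the set of sums contains many sums -/
theorem q_fibre (hk : ∀ x, π x = 0 ↔ x ∈ P) : ∀ C ∈ (FS s f).image π,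
    (FS (s.filter fun i => f i ∈ P) f).card ≤ ((FS s f).filter fun x => π x = C).card := by
  intro C hC
  obtain ⟨a, ha, rfl⟩ := mem_image.1 hC
  have hLf : ∀ i ∈ s.filter fun i => f i ∈ P, f i ∈ P := fun i hi => (mem_filter.1 hi).2
  have h1 : FS s f = FS (s.filter fun i => f i ∈ P) f + FS (s.filter fun i => f i ∉ P) f := by
    have h2 := (all_Ba1 G ι f).1 (s.filter fun i => f i ∈ P) (s.filter fun i => f i ∉ P)
      (disjoint_filter_filter_not _ _ _)
    rw [← h2, filter_union_filter_not_eq]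
  rw [h1] at ha
  obtain ⟨u, hu, v, hv, rfl⟩ := mem_add.1 ha
  have hu' : u ∈ P := FS_subset_of_mem hLf hu
  refine card_le_card_of_injOn (fun x => x + v) ?_ (fun x _ y _ h => add_left_injective v h)
  intro x hx
  have hx' : x ∈ P := FS_subset_of_mem hLf hx
  rw [mem_coe, mem_filter]
  refine ⟨?_, ?_⟩
  · rw [h1]
    exact add_mem_add hx hv
  · rw [q_eq hk]
    have h3 : u + v - (x + v) = u - x := by abel
    rw [h3]
    exact P.sub_mem hu' hx'

theorem q_lam (hk : ∀ x, π x = 0 ↔ x ∈ P) (z : G) :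
    lam (FS (s.filter fun i => f i ∉ P) (fun i => π (f i))) (π z) *
      (FS (s.filter fun i => f i ∈ P) f).card ≤ lam (FS s f) z := by
  rw [q_image s f hk]
  unfold lam
  set T := FS s f with hT
  set B := (T.image π).filter fun b => b + π z ∉ T.image π with hB
  have h1 : ∑ C ∈ B, ((T.filter fun x => x + z ∉ T).filter fun x => π x = C).card ≤
      (T.filter fun x => x + z ∉ T).card := by
    rw [← card_biUnion]
    · exact card_le_card (biUnion_subset.2 fun C _ => filter_subset _ _)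
    · intro C _ C' _ hne
      rw [Function.onFun, disjoint_left]
      intro x hx hx'
      exact hne ((mem_filter.1 hx).2.symm.trans (mem_filter.1 hx').2)
  refine le_trans ?_ h1
  rw [← smul_eq_mul, ← sum_const]
  refine sum_le_sum fun C hC => ?_
  obtain ⟨hC1, hC2⟩ := mem_filter.1 hC
  refine (q_fibre s f hk C hC1).trans (card_le_card ?_)
  intro x hx
  obtain ⟨hx1, hx2⟩ := mem_filter.1 hx
  refine mem_filter.2 ⟨mem_filter.2 ⟨hx1, fun h2 => hC2 ?_⟩, hx2⟩
  rw [← hx2, ← map_add]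
  exact mem_image_of_mem π h2

end quot

/-! ### candidates -/

section cand

variable {G ι : Type} [AddCommGroup G] [Finite G]

/-- `P ≠ ⊤` is the group of periods of `T + L`, `L` generated by the members in `P` -/
def Cd (s : Finset ι) (f : ι → G) (P : AddSubgroup G) : Prop :=
  P ≠ ⊤ ∧ ∀ g, g ∈ P ↔ ∀ x ∈ st (FS s f) (gen (s.filter fun i => f i ∈ P) f),
    x + g ∈ st (FS s f) (gen (s.filter fun i => f i ∈ P) f)

theorem Cd_exists (s : Finset ι) (f : ι → G) (L : AddSubgroup G)
    (hL : gen (s.filter fun i => f i ∈ L) f = L) :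
    ∃ P : AddSubgroup G, L ≤ P ∧ (∀ g, g ∈ P ↔ ∀ x ∈ st (FS s f) L, x + g ∈ st (FS s f) L) ∧
      (P = ⊤ ∨ Cd s f P) := by
  obtain ⟨P, hP⟩ := P1_per (st (FS s f) L)
  have hLP : L ≤ P := by
    intro g hg
    rw [hP]
    intro x hx
    obtain ⟨a, ha, hx⟩ := P1_mem_st.1 hx
    refine P1_mem_st.2 ⟨a, ha, ?_⟩
    have : x + g - a = (x - a) + g := by abel
    rw [this]
    exact L.add_mem hx hg
  refine ⟨P, hLP, hP, ?_⟩
  by_cases hT : P = ⊤
  · exact Or.inl hT
  · right
    refine ⟨hT, ?_⟩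
    have hL1 : gen (s.filter fun i => f i ∈ P) f ≤ P := P1_gen_le s f P
    have hL0 : L ≤ gen (s.filter fun i => f i ∈ P) f := by
      conv_lhs => rw [← hL]
      unfold gen
      rw [AddSubgroup.closure_le]
      rintro _ ⟨i, hi, rfl⟩
      have hi' := Finset.mem_filter.1 (Finset.mem_coe.1 hi)
      exact P1_mem_gen (Finset.mem_filter.2 ⟨hi'.1, hLP hi'.2⟩)
    have h1 := P1_st (FS s f) L _ P hL0 hL1 hP
    rw [h1]
    exact hP

theorem Cd_st {s : Finset ι} {f : ι → G} {P : AddSubgroup G} (h : Cd s f P) :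
    st (FS s f) P = st (FS s f) (gen (s.filter fun i => f i ∈ P) f) :=
  P1_st (FS s f) _ P P (P1_gen_le s f P) le_rfl h.2

/-- the numbers of a candidate -/
theorem Cd_data {H : Type} [AddCommGroup H] [Finite H] {s : Finset ι} {f : ι → G}
    {P : AddSubgroup G} {π : G →+ H} (hs : Function.Surjective π) (hk : ∀ x, π x = 0 ↔ x ∈ P)
    (hC : Cd s f P) (h0 : ∀ i ∈ s, f i ≠ 0) (hA : Aper (FS s f)) (j : ℕ)
    (hj : ∀ i ∈ s, lam (FS s f) (f i) ≤ j) :
    Aper (FS (s.filter fun i => f i ∉ P) (fun i => π (f i))) ∧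
    Nat.card P * (FS (s.filter fun i => f i ∉ P) (fun i => π (f i))).card ≤
      (FS s f).card + j * (Nat.card P - (FS (s.filter fun i => f i ∈ P) f).card) ∧
    (FS (s.filter fun i => f i ∉ P) (fun i => π (f i))).card *
      (FS (s.filter fun i => f i ∈ P) f).card ≤ (FS s f).card ∧
    (s.filter fun i => f i ∈ P).card + 1 ≤ (FS (s.filter fun i => f i ∈ P) f).card ∧
    (P ≠ ⊥ → 1 ≤ (s.filter fun i => f i ∈ P).card ∧
      (FS (s.filter fun i => f i ∈ P) f).card + 1 ≤ Nat.card P) := by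
  have hsub : (s.filter fun i => f i ∈ P) ⊆ s := filter_subset _ _
  have hAP : Aper (FS (s.filter fun i => f i ∈ P) f) := (all_Ba1 G ι f).2.1 _ _ hsub hA
  have h0P : ∀ i ∈ s.filter (fun i => f i ∈ P), f i ≠ 0 := fun i hi => h0 i (hsub hi)
  have hfil : (s.filter fun i => f i ∈ gen (s.filter fun i => f i ∈ P) f) =
      s.filter fun i => f i ∈ P := P1_filter s f P
  have hLgen : gen (s.filter fun i => f i ∈ gen (s.filter fun i => f i ∈ P) f) f =
      gen (s.filter fun i => f i ∈ P) f := by rw [hfil]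
  have hLP : gen (s.filter fun i => f i ∈ P) f ≤ P := P1_gen_le s f P
  obtain ⟨hP1, hP2⟩ := all_Pc G ι s f (gen (s.filter fun i => f i ∈ P) f) j h0 hA hLgen
    (fun i hi _ => hj i hi)
  rw [hfil, ← Cd_st hC, ← q_card s f hk] at hP1 hP2
  have hcle : Nat.card (gen (s.filter fun i => f i ∈ P) f) ≤ Nat.card P :=
    AddSubgroup.card_le_of_le hLP
  have hPpos : 0 < Nat.card P := Nat.card_pos
  refine ⟨?_, ?_, ?_, ?_, ?_⟩
  · refine q_aper s f hs hk fun g hg => ?_
    rw [hC.2]
    rw [Cd_st hC] at hg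
    exact hg
  · refine hP1.trans (Nat.add_le_add_left (Nat.mul_le_mul_left _ (Nat.sub_le_sub_right hcle _)) _)
  · refine Nat.le_of_mul_le_mul_left ?_ hPpos
    rw [← mul_assoc]
    exact hP2.trans (Nat.mul_le_mul_right _ hcle)
  · exact (all_Sm G ι (s.filter fun i => f i ∈ P) f h0P hAP).1
  · intro hbot
    have h1 : 1 ≤ (s.filter fun i => f i ∈ P).card := by
      by_contra hcon
      have h2 : (s.filter fun i => f i ∈ P) = ∅ := by
        rw [← Finset.card_eq_zero]
        omega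
      apply hbot
      rw [eq_bot_iff]
      intro g hg
      have h3 := (hC.2 g).1 hg
      have h4 : gen (s.filter fun i => f i ∈ P) f = ⊥ := by
        rw [h2]
        simp [gen]
      rw [h4] at h3
      have h5 : st (FS s f) (⊥ : AddSubgroup G) = FS s f := by
        ext x
        rw [P1_mem_st]
        constructor
        · rintro ⟨a, ha, hx⟩
          rw [AddSubgroup.mem_bot, sub_eq_zero] at hx
          rw [hx]
          exact ha
        · intro hx
          exact ⟨x, hx, by rw [sub_self]; exact AddSubgroup.zero_mem _⟩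
      rw [h5] at h3
      rw [AddSubgroup.mem_bot]
      exact hA g h3
    refine ⟨h1, ?_⟩
    exact (all_Kn G).2.2.2 _ P ⟨0, zero_mem_FS _ _⟩ hbot
      (fun x hx => FS_subset_of_mem (fun i hi => (mem_filter.1 hi).2) hx) hAP

/-- the zero subgroup is a candidate -/
theorem Cd_bot {s : Finset ι} {f : ι → G} (h0 : ∀ i ∈ s, f i ≠ 0) (hA : Aper (FS s f))
    (hG : (⊥ : AddSubgroup G) ≠ ⊤) : Cd s f (⊥ : AddSubgroup G) := by
  refine ⟨hG, fun g => ?_⟩
  have h2 : (s.filter fun i => f i ∈ (⊥ : AddSubgroup G)) = ∅ := by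
    rw [Finset.filter_eq_empty_iff]
    intro i hi h
    exact h0 i hi ((AddSubgroup.mem_bot).1 h)
  have h4 : gen (s.filter fun i => f i ∈ (⊥ : AddSubgroup G)) f = ⊥ := by
    rw [h2]
    simp [gen]
  have h5 : st (FS s f) (⊥ : AddSubgroup G) = FS s f := by
    ext x
    rw [P1_mem_st]
    constructor
    · rintro ⟨a, ha, hx⟩
      rw [AddSubgroup.mem_bot, sub_eq_zero] at hx
      rw [hx]
      exact ha
    · intro hx
      exact ⟨x, hx, by rw [sub_self]; exact AddSubgroup.zero_mem _⟩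
  rw [h4, h5, AddSubgroup.mem_bot]
  constructor
  · rintro rfl x hx
    rwa [add_zero]
  · exact hA g

theorem two_le_card {s : Finset ι} {f : ι → G} {P : AddSubgroup G} (hP : P ≠ ⊤)
    (hg : ∀ i ∈ s, gen (s.erase i) f = ⊤) (hg' : gen s f = ⊤) :
    2 ≤ (s.filter fun i => f i ∉ P).card := by
  by_contra hcon
  have h1 : (s.filter fun i => f i ∉ P).card = 0 ∨ (s.filter fun i => f i ∉ P).card = 1 := by
    omega
  rcases h1 with h1 | h1
  · rw [Finset.card_eq_zero, Finset.filter_eq_empty_iff] at h1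
    apply hP
    rw [eq_top_iff, ← hg']
    unfold gen
    rw [AddSubgroup.closure_le]
    rintro _ ⟨i, hi, rfl⟩
    exact not_not.1 (h1 (mem_coe.1 hi))
  · obtain ⟨i, hi⟩ := Finset.card_eq_one.1 h1
    have hi' : i ∈ s.filter fun i => f i ∉ P := by rw [hi]; exact mem_singleton_self i
    apply hP
    rw [eq_top_iff, ← hg i (mem_filter.1 hi').1]
    unfold gen
    rw [AddSubgroup.closure_le]
    rintro _ ⟨k, hk, rfl⟩
    obtain ⟨hk1, hk2⟩ := mem_erase.1 (mem_coe.1 hk)
    by_contra h2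
    have h3 : k ∈ s.filter fun i => f i ∉ P := mem_filter.2 ⟨hk2, h2⟩
    rw [hi, mem_singleton] at h3
    exact hk1 h3

end cand

end Pool.Agent.SNW
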