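import Mathlib
import Pool.Agent.Helper64.Rho.Defs
import Pool.Agent.SSE.Main

set_option autoImplicit false

namespace Pool.Agent.SNW.CyclicOld

open Pool.Agent.Helper64.Rho

/-- `c h t = 1 + ∑_{i = 1}^t ⌈i / (2 h)⌉` (here `⌈i / (2 h)⌉` is written as `(i - 1) / (2 h) + 1`). -/
def c (h t : ℕ) : ℕ := 1 + ∑ i ∈ Finset.range t, (i / (2 * h) + 1)

/-- The least of the numbers `n` and `h * c h (max 1 (m + 1 - h))`, `h` a divisor of `n`, `1 ≤ h < n`. -/
noncomputable def bound (n m : ℕ) : ℕ :=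
  sInf ({n} ∪ {x | ∃ h, h ∣ n ∧ h < n ∧ 1 ≤ h ∧ x = h * c h (max 1 (m + 1 - h))})

/-- For every finite cyclic group `G` of order `n` and every `m ≥ 1`: there is a generating set of size `m`
that avoids `0` exactly if `m < n`, and then the least number of subset sums of such a set is `bound n m`. -/
theorem result : ∀ (G : Type) [AddCommGroup G] [Finite G], IsAddCyclic G → ∀ m : ℕ, 1 ≤ m →
    ((sizes G m).Nonempty ↔ m < Nat.card G) ∧ (m < Nat.card G → rho G m = bound (Nat.card G) m) := by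
  intro G _ _ hcyc m hm
  refine ⟨⟨?_, ?_⟩, ?_⟩
  · rintro ⟨k, A, h0, hA, -, -⟩
    have := Fintype.ofFinite G
    rw [← hA, Nat.card_eq_fintype_card]
    exact Finset.card_lt_univ_of_notMem h0
  · intro h
    exact ((Pool.Agent.SSE.all_FnE G hcyc (by omega)).2 m hm h).1
  · intro h
    exact ((Pool.Agent.SSE.all_FnE G hcyc (by omega)).2 m hm h).2

end Pool.Agent.SNW.CyclicOld
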