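import Pool.Agent.SNW.Cd

/-!
# SNW, module Lin (helper48): the linear bound in noncyclic groups, any multiplicities
-/

set_option autoImplicit false

noncomputable section

open Finset Pool.Agent.Helper64.Rho
open scoped Classical Pointwise

namespace Pool.Agent.SNW

open Pool.Agent.SDG

theorem cyc_of_le {G : Type} [AddCommGroup G] (g : G) (h : (⊤ : AddSubgroup G) ≤ AddSubgroup.zmultiples g) :
    IsAddCyclic G := by
  refine ⟨g, fun x => ?_⟩
  exact h (AddSubgroup.mem_top x)

/-- the numerical contradiction of the case `P ≠ ⊤` -/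
theorem Lin_num (r u v Y X Q : ℕ) (hu : 2 ≤ u) (hv : 1 ≤ v) (hY : v + 1 ≤ Y) (hYr : Y + 1 ≤ r)
    (hQ : u + 1 ≤ Q) (h1 : r * Q ≤ X + 1 * (r - Y)) : 2 * (u + v) ≤ X := by
  obtain ⟨a, rfl⟩ : ∃ a, r = Y + 1 + a := ⟨r - (Y + 1), by omega⟩
  obtain ⟨b, rfl⟩ : ∃ b, u = b + 2 := ⟨u - 2, by omega⟩
  have h2 := Nat.mul_le_mul_left (Y + 1 + a) hQ
  have h3 : Y + 1 + a - Y = a + 1 := by omega
  rw [h3] at h1
  obtain ⟨c, rfl⟩ : ∃ c, Y = v + 1 + c := ⟨Y - (v + 1), by omega⟩
  nlinarith [Nat.zero_le (v * b), Nat.zero_le (c * b), Nat.zero_le (a * b)]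

/-- if `T + ⟨x⟩` is everything and `lam T x ≤ 1`, then the complement of `T` lies in one coset -/
theorem Lin_coset {G : Type} [AddCommGroup G] [Finite G] (T : Finset G) (x : G)
    (h1 : lam T x ≤ 1) (h2 : ∀ g : G, ∃ a ∈ T, g - a ∈ AddSubgroup.zmultiples x) :
    ∀ y z : G, y ∉ T → z ∉ T → z - y ∈ AddSubgroup.zmultiples x := by
  have key : ∀ y : G, y ∉ T → ∃ b ∈ T, b + x ∉ T ∧ y - b ∈ AddSubgroup.zmultiples x := by
    intro y hy
    obtain ⟨a, ha, hya⟩ := h2 y
    -- some natural multiple
    obtain ⟨n, hn⟩ : ∃ n : ℕ, n • x = y - a := by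
      have h3 : y - a ∈ AddSubmonoid.multiples x := by
        rw [mem_multiples_iff_mem_zmultiples]
        exact hya
      exact h3
    -- the first exit
    by_contra hcon
    push Not at hcon
    have h4 : ∀ k : ℕ, a + k • x ∈ T := by
      intro k
      induction k with
      | zero => simpa using ha
      | succ k ih =>
        by_contra h5
        have h6 : a + k • x + x ∉ T := by
          intro h7
          apply h5
          rw [succ_nsmul, ← add_assoc]
          exact h7
        apply hcon _ ih h6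
        have h8 : y - (a + k • x) = (y - a) - k • x := by abel
        rw [h8]
        exact AddSubgroup.sub_mem _ hya (AddSubgroup.nsmul_mem _ (AddSubgroup.mem_zmultiples x) k)
    apply hy
    have h9 := h4 n
    rw [hn] at h9
    simpa using h9
  intro y z hy hz
  obtain ⟨b, hb, hbx, hyb⟩ := key y hy
  obtain ⟨c, hc, hcx, hzc⟩ := key z hz
  have hbc : b = c := by
    unfold lam at h1
    exact Finset.card_le_one.1 h1 b (mem_filter.2 ⟨hb, hbx⟩) c (mem_filter.2 ⟨hc, hcx⟩)
  subst hbc
  have : z - y = (z - b) - (y - b) := by abel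
  rw [this]
  exact AddSubgroup.sub_mem _ hzc hyb

/-- **Lin.** -/
theorem thm_Lin (t : ℕ) : ∀ (G ι : Type) [AddCommGroup G] [Finite G] (s : Finset ι) (f : ι → G),
    s.card = t → (∀ i ∈ s, f i ≠ 0) → Aper (FS s f) → gen s f = ⊤ → ¬ IsAddCyclic G →
      2 * t ≤ (FS s f).card ∨ Nat.card G ≤ (FS s f).card + 1 := by
  induction t with
  | zero =>
    intro G ι _ _ s f _ _ _ _ _
    left
    simp
  | succ t ih =>
    intro G ι _ _ s f hs h0 hA hg hcyc
    by_contra hcon
    push Not at hcon
    obtain ⟨hc1, hc2⟩ := hcon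
    have := Fintype.ofFinite G
    have hcard : ∀ i ∈ s, (s.erase i).card = t := by
      intro i hi
      rw [card_erase_of_mem hi, hs, Nat.add_sub_cancel]
    have hAe : ∀ i, Aper (FS (s.erase i) f) := fun i =>
      (all_Ba1 G ι f).2.1 s (s.erase i) (erase_subset _ _) hA
    have h0e : ∀ i, ∀ k ∈ s.erase i, f k ≠ 0 := fun i k hk => h0 k (erase_subset _ _ hk)
    have hge : ∀ i ∈ s, gen (s.erase i) f = ⊤ := by
      intro i hi
      rw [← hg]
      apply (all_Ba1 G ι f).2.2.2.2.2.1 s i hi
      by_contra hne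
      have h3 := (all_Ba1 G ι f).2.2.2.1 s i hi hne
      have h4 := (all_Sm G ι (s.erase i) f (h0e i) (hAe i)).1
      rw [hcard i hi] at h4
      omega
    have hlam1 : ∀ i ∈ s, 1 ≤ lam (FS s f) (f i) := by
      intro i hi
      by_contra hcon
      have h2 : lam (FS s f) (f i) = 0 := by omega
      apply h0 i hi
      apply hA
      intro x hx
      unfold lam at h2
      rw [Finset.card_eq_zero, Finset.filter_eq_empty_iff] at h2
      have := h2 hx
      push Not at this
      exact this
    have hlam : ∀ i ∈ s, lam (FS s f) (f i) ≤ 1 := by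
      intro i hi
      have h3 := (all_Ba1 G ι f).2.2.1 s i hi
      have h4 := hlam1 i hi
      rcases ih G ι (s.erase i) f (hcard i hi) (h0e i) (hAe i) (hge i hi) hcyc with h5 | h5
      · omega
      · omega
    obtain ⟨i0, hi0⟩ : s.Nonempty := by
      rw [← card_pos]
      omega
    have hL : gen (s.filter fun i => f i ∈ AddSubgroup.zmultiples (f i0)) f =
        AddSubgroup.zmultiples (f i0) := by
      refine le_antisymm (P1_gen_le s f _) ?_
      rw [AddSubgroup.zmultiples_le]
      exact P1_mem_gen (mem_filter.2 ⟨hi0, AddSubgroup.mem_zmultiples _⟩)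
    obtain ⟨P, hLP, hP, hcase⟩ := Cd_exists s f _ hL
    have hi0P : f i0 ∈ P := hLP (AddSubgroup.mem_zmultiples _)
    rcases hcase with htop | hC
    · -- `T + ⟨x⟩` is everything
      have h2 : ∀ g : G, ∃ a ∈ FS s f, g - a ∈ AddSubgroup.zmultiples (f i0) := by
        intro g
        have h3 : g ∈ P := by rw [htop]; trivial
        have h4 : (0 : G) ∈ st (FS s f) (AddSubgroup.zmultiples (f i0)) :=
          P1_mem_st.2 ⟨0, zero_mem_FS s f, by rw [sub_self]; exact AddSubgroup.zero_mem _⟩
        have h5 := (hP g).1 h3 0 h4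
        rw [zero_add] at h5
        exact P1_mem_st.1 h5
      have h3 := Lin_coset (FS s f) (f i0) (hlam i0 hi0) h2
      apply hcyc
      apply cyc_of_le (f i0)
      rw [← hg]
      unfold gen
      rw [AddSubgroup.closure_le]
      rintro _ ⟨i, hi, rfl⟩
      -- two points of the complement with difference `f i`
      have h4 : lam ((FS s f)ᶜ) (f i) ≤ 1 := by
        rw [lam_compl]
        exact hlam i (mem_coe.1 hi)
      have h5 : 1 < ((FS s f)ᶜ).card := by
        rw [card_compl, ← Nat.card_eq_fintype_card]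
        omega
      obtain ⟨z, hz, hz'⟩ : ∃ z ∈ (FS s f)ᶜ, z + f i ∈ (FS s f)ᶜ := by
        by_contra hcon
        push Not at hcon
        unfold lam at h4
        rw [Finset.filter_true_of_mem hcon] at h4
        omega
      have h6 := h3 z (z + f i) (mem_compl.1 hz) (mem_compl.1 hz')
      rwa [add_sub_cancel_left] at h6
    · -- a proper candidate
      obtain ⟨H, _, _, π, hπs, hπk, hπc⟩ := q_exists G P
      obtain ⟨d1, d2, d3, d4, d5⟩ := Cd_data hπs hπk hC h0 hA 1 hlam
      have hbot : P ≠ ⊥ := by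
        intro h
        rw [h, AddSubgroup.mem_bot] at hi0P
        exact h0 i0 hi0 hi0P
      obtain ⟨d6, d7⟩ := d5 hbot
      have hu := two_le_card hC.1 hge hg
      have hQ := (all_Sm H ι (s.filter fun i => f i ∉ P) (fun i => π (f i)) (q_ne s f hπk) d1).1
      have h7 := Lin_num _ _ _ _ _ _ hu d6 d4 d7 hQ d2
      have h8 : (s.filter fun i => f i ∉ P).card + (s.filter fun i => f i ∈ P).card = t + 1 := by
        rw [← hs, add_comm]
        exact Finset.card_filter_add_card_filter_not (s := s) (fun i => f i ∈ P)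
      rw [h8] at h7
      omega

/-- **Lin**, second form -/
theorem thm_Lin2 (G ι : Type) [AddCommGroup G] [Finite G] (s : Finset ι) (f : ι → G)
    (h0 : ∀ i ∈ s, f i ≠ 0) (hA : Aper (FS s f)) (hg : gen s f = ⊤) (hcyc : ¬ IsAddCyclic G) :
    2 * s.card ≤ (FS s f).card + 1 := by
  rcases thm_Lin s.card G ι s f rfl h0 hA hg hcyc with h1 | h1
  · omega
  · obtain ⟨i, hi⟩ : s.Nonempty := by
      rw [Finset.nonempty_iff_ne_empty]
      rintro rfl
      apply hcyc
      apply cyc_of_le (0 : G)
      rw [← hg]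
      simp [gen]
    have hAe : Aper (FS (s.erase i) f) := (all_Ba1 G ι f).2.1 s (s.erase i) (erase_subset _ _) hA
    have h0e : ∀ k ∈ s.erase i, f k ≠ 0 := fun k hk => h0 k (erase_subset _ _ hk)
    have hce : (s.erase i).card + 1 = s.card := card_erase_add_one hi
    by_cases hd : f i ∈ gen (s.erase i) f
    · have h2 := (all_Ba1 G ι f).2.2.2.2.2.1 s i hi hd
      rw [hg] at h2
      have h3 := (all_Ba1 G ι f).2.2.1 s i hi
      have h4 : 1 ≤ lam (FS s f) (f i) := by
        by_contra hcon
        have h2 : lam (FS s f) (f i) = 0 := by omega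
        apply h0 i hi
        apply hA
        intro x hx
        unfold lam at h2
        rw [Finset.card_eq_zero, Finset.filter_eq_empty_iff] at h2
        have := h2 hx
        push Not at this
        exact this
      rcases thm_Lin (s.erase i).card G ι (s.erase i) f rfl h0e hAe h2 hcyc with h5 | h5
      · omega
      · have h6 : (FS s f).card + 1 ≤ Nat.card G := by
          have h7 := (all_Kn G).2.2.2 (FS s f) ⊤ ⟨0, zero_mem_FS _ _⟩ (by
            intro h8
            apply hcyc
            apply cyc_of_le (0 : G)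
            rw [h8]
            exact bot_le) (fun _ _ => AddSubgroup.mem_top _) hA
          rwa [AddSubgroup.card_top] at h7
        omega
    · have h3 := (all_Ba1 G ι f).2.2.2.1 s i hi hd
      have h4 := (all_Sm G ι (s.erase i) f h0e hAe).1
      omega

end Pool.Agent.SNW
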