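import Pool.Agent.SNW.Up1

/-!
# SNW, module Up2 (helper48): the construction over a subgroup `H` and a cyclic part

`constr`: if every multiple of `x` in `H` has coefficient divisible by `e`, and `cf (2 h) t ≤ e`, `h = |H|`, then
there is a set of `t + |S|` elements around the multiples of `x` (`S` a set of nonzero elements of `H`)
whose sums lie in `W + 1 = cf (2 h) t` cosets of `H`.
-/

set_option autoImplicit false

noncomputable section

open Finset Pool.Agent.Helper64.Rho
open scoped Classical Pointwise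

namespace Pool.Agent.SNW

open Pool.Agent.SDG

def UpC (h i : ℕ) : ℤ :=
  if i % (2 * h) < h then ((i / (2 * h) + 1 : ℕ) : ℤ) else -((i / (2 * h) + 1 : ℕ) : ℤ)

theorem UpC_abs (h i : ℕ) : |UpC h i| = ((i / (2 * h) + 1 : ℕ) : ℤ) := by
  unfold UpC
  split_ifs
  · exact abs_of_nonneg (by positivity)
  · rw [abs_neg]; exact abs_of_nonneg (by positivity)

theorem UpC_sum (h t : ℕ) : ∑ i ∈ range t, |UpC h i| + 1 = ((cf (2 * h) t : ℕ) : ℤ) := by
  unfold cf
  simp_rw [UpC_abs]
  push_cast
  ring

theorem UpC_inj (h i j : ℕ) (hh : 1 ≤ h) (hC : UpC h i = UpC h j) (hij : i % h = j % h) : i = j := by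
  have hmi := Nat.mod_lt i (show 0 < 2 * h by omega)
  have hmj := Nat.mod_lt j (show 0 < 2 * h by omega)
  have hdi := Nat.div_add_mod i (2 * h)
  have hdj := Nat.div_add_mod j (2 * h)
  have h1 : i % (2 * h) % h = i % h := Nat.mod_mod_of_dvd i ⟨2, by ring⟩
  have h2 : j % (2 * h) % h = j % h := Nat.mod_mod_of_dvd j ⟨2, by ring⟩
  rw [← h1, ← h2] at hij
  unfold UpC at hC
  generalize i / (2 * h) = qi at hdi hC
  generalize j / (2 * h) = qj at hdj hC
  generalize i % (2 * h) = ri at hdi hC hij hmi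
  generalize j % (2 * h) = rj at hdj hC hij hmj
  by_cases hir : ri < h <;> by_cases hjr : rj < h
  · simp only [hir, hjr, if_true] at hC
    rw [Nat.mod_eq_of_lt hir, Nat.mod_eq_of_lt hjr] at hij
    have h10 : qi = qj := by omega
    rw [h10, hij] at hdi
    omega
  · simp only [hir, hjr, if_true, if_false] at hC
    push_cast at hC
    omega
  · simp only [hir, hjr, if_true, if_false] at hC
    push_cast at hC
    omega
  · simp only [hir, hjr, if_false] at hC
    push Not at hir hjr
    have h3 : ri % h = ri - h := by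
      rw [Nat.mod_eq_sub_mod hir, Nat.mod_eq_of_lt (by omega)]
    have h4 : rj % h = rj - h := by
      rw [Nat.mod_eq_sub_mod hjr, Nat.mod_eq_of_lt (by omega)]
    rw [h3, h4] at hij
    have h10 : qi = qj := by omega
    have h11 : ri = rj := by omega
    rw [h10, h11] at hdi
    omega

/-- an enumeration of a finite subgroup that starts with `0` -/
theorem enum_exists {G : Type} [AddCommGroup G] [Finite G] (H : AddSubgroup G) :
    ∃ u : ℕ → G, u 0 = 0 ∧ (∀ i, u i ∈ H) ∧
      ∀ i j, i < Nat.card H → j < Nat.card H → u i = u j → i = j := by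
  obtain ⟨e⟩ : Nonempty (Fin (Nat.card H) ≃ H) := ⟨(Finite.equivFin H).symm⟩
  have h0 : 0 < Nat.card H := Nat.card_pos
  refine ⟨fun i => if hi : i < Nat.card H then (e ⟨i, hi⟩ : G) - e ⟨0, h0⟩ else 0, ?_, ?_, ?_⟩
  · simp only [h0, dif_pos, sub_self]
  · intro i
    by_cases hi : i < Nat.card H
    · simp only [hi, dif_pos]
      exact AddSubgroup.sub_mem _ (e ⟨i, hi⟩).2 (e ⟨0, h0⟩).2
    · simp only [hi, dif_neg, not_false_iff]
      exact AddSubgroup.zero_mem _
  · intro i j hi hj hij
    simp only [hi, hj, dif_pos, sub_left_inj] at hij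
    have h1 := e.injective (Subtype.ext hij)
    exact Fin.mk.inj_iff.1 h1

/-- **The construction.** -/
theorem constr {G : Type} [AddCommGroup G] [Finite G] (H : AddSubgroup G) (x : G) (e t : ℕ)
    (ht : 1 ≤ t) (he : ∀ k : ℤ, k • x ∈ H → (e : ℤ) ∣ k) (hcf : cf (2 * Nat.card H) t ≤ e)
    (S : Finset G) (hS : ∀ z ∈ S, z ∈ H) (hS0 : (0 : G) ∉ S) :
    ∃ A : Finset G, (0 : G) ∉ A ∧ A.card = t + S.card ∧ x ∈ A ∧ S ⊆ A ∧
      (∀ z ∈ A, z ∈ AddSubgroup.zmultiples x ⊔ H) ∧
      (FS A id).card ≤ Nat.card H * cf (2 * Nat.card H) t := by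
  obtain ⟨u, hu0, huH, huinj⟩ := enum_exists H
  obtain ⟨h, hh⟩ : ∃ h, h = Nat.card H := ⟨_, rfl⟩
  have hh1 : 1 ≤ h := hh ▸ Nat.card_pos
  rw [← hh] at huinj hcf ⊢
  obtain ⟨F, hF⟩ : ∃ F : ℕ → G, F = fun i => UpC h i • x + u (i % h) := ⟨_, rfl⟩
  have hsum := UpC_sum h t
  have hone : ∀ i ∈ range t, |UpC h i| < e := by
    intro i hi
    have h1 : |UpC h i| ≤ ∑ k ∈ range t, |UpC h k| :=
      single_le_sum (f := fun i => |UpC h i|) (fun j _ => abs_nonneg _) hi
    have h2 : ∑ k ∈ range t, |UpC h k| < (e : ℤ) := by omega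
    exact lt_of_le_of_lt h1 h2
  have hpos : ∀ i, UpC h i ≠ 0 := by
    intro i h1
    have h2 := UpC_abs h i
    rw [h1, abs_zero] at h2
    have h3 : (0 : ℤ) < ((i / (2 * h) + 1 : ℕ) : ℤ) := by positivity
    rw [← h2] at h3
    exact lt_irrefl _ h3
  have hnH : ∀ i ∈ range t, F i ∉ H := by
    intro i hi h1
    rw [hF] at h1
    have h2 : UpC h i • x ∈ H := by
      have := AddSubgroup.sub_mem _ h1 (huH (i % h))
      rwa [add_sub_cancel_right] at this
    exact hpos i (Int.eq_zero_of_abs_lt_dvd (he _ h2) (hone i hi))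
  have htwo : ∀ i ∈ range t, ∀ j ∈ range t, i ≠ j → |UpC h i| + |UpC h j| < e := by
    intro i hi j hj hij
    have h1 : ∑ k ∈ ({i, j} : Finset ℕ), |UpC h k| ≤ ∑ k ∈ range t, |UpC h k| := by
      refine sum_le_sum_of_subset_of_nonneg ?_ fun _ _ _ => abs_nonneg _
      intro k hk
      rcases mem_insert.mp hk with rfl | hk
      · exact hi
      · rw [mem_singleton] at hk; rw [hk]; exact hj
    rw [sum_pair hij] at h1
    have h2 : ∑ k ∈ range t, |UpC h k| < (e : ℤ) := by omega
    exact lt_of_le_of_lt h1 h2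
  have hinj : Set.InjOn F ((range t : Finset ℕ) : Set ℕ) := by
    intro i hi j hj hij
    by_contra hne
    have hi' : i ∈ range t := by exact_mod_cast hi
    have hj' : j ∈ range t := by exact_mod_cast hj
    have h2 := htwo i hi' j hj' hne
    rw [hF] at hij
    simp only at hij
    have h3 : (UpC h i - UpC h j) • x = u (j % h) - u (i % h) := by
      rw [sub_smul, sub_eq_sub_iff_add_eq_add, hij, add_comm]
    have h4 : (UpC h i - UpC h j) • x ∈ H := by
      rw [h3]
      exact AddSubgroup.sub_mem _ (huH _) (huH _)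
    have h5 : UpC h i - UpC h j = 0 := by
      refine Int.eq_zero_of_abs_lt_dvd (he _ h4) ?_
      calc |UpC h i - UpC h j| ≤ |UpC h i| + |UpC h j| := abs_sub _ _
        _ < e := h2
    have h6 : UpC h i = UpC h j := by omega
    rw [h5, zero_smul] at h3
    have h7 := huinj (j % h) (i % h) (Nat.mod_lt _ hh1) (Nat.mod_lt _ hh1) (sub_eq_zero.1 h3.symm)
    exact hne (UpC_inj h i j hh1 h6 h7.symm)
  have hdisj : Disjoint ((range t).image F) S := by
    rw [Finset.disjoint_left]
    intro z hz hz'
    obtain ⟨i, hi, rfl⟩ := mem_image.1 hz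
    exact hnH i hi (hS _ hz')
  refine ⟨(range t).image F ∪ S, ?_, ?_, ?_, subset_union_right, ?_, ?_⟩
  · rw [mem_union, not_or]
    refine ⟨?_, hS0⟩
    intro h1
    obtain ⟨i, hi, hi0⟩ := mem_image.1 h1
    exact hnH i hi (by rw [hi0]; exact AddSubgroup.zero_mem _)
  · rw [card_union_of_disjoint hdisj, card_image_of_injOn hinj, card_range]
  · refine mem_union_left _ (mem_image.2 ⟨0, mem_range.2 ht, ?_⟩)
    have h1 : UpC h 0 = 1 := by
      unfold UpC
      simp only [Nat.zero_mod, Nat.zero_div]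
      rw [if_pos (by omega)]
      rfl
    rw [hF]
    simp only [h1, Nat.zero_mod, hu0, one_smul, add_zero]
  · intro z hz
    rcases mem_union.1 hz with h1 | h1
    · obtain ⟨i, -, rfl⟩ := mem_image.1 h1
      rw [hF]
      exact AddSubgroup.add_mem_sup (AddSubgroup.zsmul_mem_zmultiples x _) (huH _)
    · exact (le_sup_right : H ≤ _) (hS _ h1)
  · -- the sums
    set wp : ℤ := ∑ i ∈ range t, max (UpC h i) 0 with hwp
    set wm : ℤ := ∑ i ∈ range t, max (-UpC h i) 0 with hwm
    have hw : wp + wm + 1 = ((cf (2 * h) t : ℕ) : ℤ) := by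
      rw [← hsum, hwp, hwm, ← sum_add_distrib]
      congr 1
      refine sum_congr rfl fun i _ => ?_
      rcases le_total 0 (UpC h i) with h0 | h0
      · rw [max_eq_left h0, max_eq_right (by omega), abs_of_nonneg h0, add_zero]
      · rw [max_eq_right h0, max_eq_left (by omega), abs_of_nonpos h0, zero_add]
    have hwp0 : 0 ≤ wp := sum_nonneg fun i _ => le_max_right _ _
    have hwm0 : 0 ≤ wm := sum_nonneg fun i _ => le_max_right _ _
    have hfin : (H : Set G).Finite := Set.toFinite _
    have hsub : FS ((range t).image F ∪ S) id ⊆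
        ((Icc (-wm) wp) ×ˢ hfin.toFinset).image (fun p : ℤ × G => p.1 • x + p.2) := by
      intro z hz
      obtain ⟨B, hB, rfl⟩ := mem_FS.mp hz
      obtain ⟨I, hI⟩ : ∃ I, I = (range t).filter fun i => F i ∈ B := ⟨_, rfl⟩
      have hIt : I ⊆ range t := hI ▸ filter_subset _ _
      have hBe : I.image F ∪ (B ∩ S) = B := by
        ext y
        simp only [mem_union, mem_image, mem_inter, hI, mem_filter]
        constructor
        · rintro (⟨i, ⟨_, h1⟩, rfl⟩ | h1)
          · exact h1
          · exact h1.1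
        · intro hy
          rcases mem_union.1 (hB hy) with h1 | h1
          · obtain ⟨i, hi, rfl⟩ := mem_image.1 h1
            exact Or.inl ⟨i, ⟨hi, hy⟩, rfl⟩
          · exact Or.inr ⟨hy, h1⟩
      have hd2 : Disjoint (I.image F) (B ∩ S) :=
        Finset.disjoint_of_subset_left (image_subset_image hIt)
          (Finset.disjoint_of_subset_right inter_subset_right hdisj)
      have hval : ∑ b ∈ B, id b =
          (∑ i ∈ I, UpC h i) • x + (∑ i ∈ I, u (i % h) + ∑ b ∈ B ∩ S, b) := by
        conv_lhs => rw [← hBe]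
        rw [sum_union hd2, sum_image]
        · simp only [id]
          rw [hF]
          simp only
          rw [sum_add_distrib, ← sum_smul, add_assoc]
        · intro i hi j hj hij
          exact hinj (by exact_mod_cast hIt (by exact_mod_cast hi))
            (by exact_mod_cast hIt (by exact_mod_cast hj)) hij
      have hup : ∑ i ∈ I, UpC h i ≤ wp := by
        calc ∑ i ∈ I, UpC h i ≤ ∑ i ∈ I, max (UpC h i) 0 := sum_le_sum fun i _ => le_max_left _ _
          _ ≤ wp := sum_le_sum_of_subset_of_nonneg hIt fun i _ _ => le_max_right _ _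
      have hlo : -wm ≤ ∑ i ∈ I, UpC h i := by
        have h1 : ∑ i ∈ I, -UpC h i ≤ wm := by
          calc ∑ i ∈ I, -UpC h i ≤ ∑ i ∈ I, max (-UpC h i) 0 :=
                sum_le_sum fun i _ => le_max_left _ _
            _ ≤ wm := sum_le_sum_of_subset_of_nonneg hIt fun i _ _ => le_max_right _ _
        rw [sum_neg_distrib] at h1
        omega
      refine mem_image.2 ⟨(∑ i ∈ I, UpC h i, ∑ i ∈ I, u (i % h) + ∑ b ∈ B ∩ S, b), ?_, ?_⟩
      · simp only [mem_product, mem_Icc, Set.Finite.mem_toFinset, SetLike.mem_coe]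
        refine ⟨⟨hlo, hup⟩, AddSubgroup.add_mem _ (AddSubgroup.sum_mem _ fun i _ => huH _)
          (AddSubgroup.sum_mem _ fun b hb => hS b (mem_inter.1 hb).2)⟩
      · exact hval.symm
    calc _ ≤ (((Icc (-wm) wp) ×ˢ hfin.toFinset).image
          (fun p : ℤ × G => p.1 • x + p.2)).card := card_le_card hsub
      _ ≤ ((Icc (-wm) wp) ×ˢ hfin.toFinset).card := card_image_le
      _ = (wp + 1 - -wm).toNat * h := by
          rw [card_product, Int.card_Icc, hh]
          congr 1
          exact (Nat.card_eq_card_finite_toFinset hfin).symm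
      _ = h * cf (2 * h) t := by
          have h3 : (wp + 1 - -wm).toNat = cf (2 * h) t := by omega
          rw [h3, mul_comm]

/-- adding one more element outside doubles at most -/
theorem FS_insert_le {G : Type} [AddCommGroup G] (A : Finset G) (y : G) (hy : y ∉ A) :
    (FS (insert y A) id).card ≤ 2 * (FS A id).card := by
  have h1 : insert y A = {y} ∪ A := rfl
  have hd : Disjoint ({y} : Finset G) A := by
    rw [Finset.disjoint_singleton_left]
    exact hy
  have h2 : FS (insert y A) id = FS {y} id + FS A id := by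
    rw [h1]
    exact (all_Ba1 G G id).1 _ _ hd
  rw [h2]
  refine (card_add_le).trans (Nat.mul_le_mul_right _ ?_)
  have h3 : FS ({y} : Finset G) id ⊆ {0, y} := by
    intro z hz
    obtain ⟨B, hB, rfl⟩ := mem_FS.1 hz
    rcases subset_singleton_iff.1 hB with rfl | rfl
    · simp
    · simp
  exact (card_le_card h3).trans card_le_two

end Pool.Agent.SNW
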