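import Pool.Agent.SNW.Up2
import Pool.Agent.SNW.W2
import Pool.Agent.SNW.S

/-!
# SNW, module Up3 (helper48): small sets of sums in groups with two generators, over one subgroup `H`

`U1`: `G / H` cyclic; `U2`: `G / H` not cyclic; `U3_four`, `U3_six`: the two exceptional sizes with `H = 0`.
-/

set_option autoImplicit false

noncomputable section

open Finset Pool.Agent.Helper64.Rho
open scoped Classical Pointwise

namespace Pool.Agent.SNW

open Pool.Agent.SDG

theorem Up_num (h l t : ℕ) (hh : 1 ≤ h) (hl : 2 ≤ l) (ht : h * l + 1 ≤ t + h) :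
    l * cf (2 * (h * l)) (t + 1 + h - h * l) ≤ 2 * cf (2 * h) t := by
  have h1 := W2_upper h l (t + 1) hh (by omega) (by omega)
  have h2 := thm_Nm1.1 (2 * h) t
  rw [h2] at h1
  have h3 : t / (2 * h) + l ≤ cf (2 * h) t := by
    obtain ⟨k, rfl⟩ : ∃ k, l = k + 2 := ⟨l - 2, by omega⟩
    rcases Nat.lt_or_ge h 2 with h4 | h4
    · have : h = 1 := by omega
      subst this
      have e1 := thm_Nm1.2.2.1 t
      rw [mul_one, e1]
      rw [one_mul] at ht
      rcases Nat.even_or_odd' t with ⟨b, rfl | rfl⟩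
      · have f1 : (2 * b + 1) ^ 2 = 4 * (b * b + b) + 1 := by ring
        have f2 : (4 * (b * b + b) + 1) / 4 = b * b + b := by omega
        rw [f1, f2]
        obtain ⟨c, rfl⟩ : ∃ c, b = c + 1 := ⟨b - 1, by omega⟩
        have f3 : 2 * (c + 1) / 2 = c + 1 := by omega
        rw [f3]
        nlinarith
      · have f3 : (2 * b + 1 + 1) ^ 2 = 4 * (b * b + 2 * b + 1) := by ring
        have f4 : 4 * (b * b + 2 * b + 1) / 4 = b * b + 2 * b + 1 := by omega
        rw [f3, f4]
        have f5 : (2 * b + 1) / 2 = b := by omega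
        rw [f5]
        obtain ⟨c, rfl⟩ : ∃ c, b = c + 1 := ⟨b - 1, by omega⟩
        nlinarith
    · have h5 := thm_Nm1.2.2.2.2.2 (2 * h) t
      have h6 : t / (2 * h) ≤ t / 4 := Nat.div_le_div_left (by omega) (by norm_num)
      have h7 : h * (k + 1) ≤ t := by
        have : h * (k + 2) = h * (k + 1) + h := by ring
        omega
      have h8 := Nat.mul_le_mul_right (k + 1) h4
      omega
  omega

/-- the nonzero elements of `H` -/
def Hs {G : Type} [AddCommGroup G] [Finite G] (H : AddSubgroup G) : Finset G :=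
  ((Set.toFinite (H : Set G)).toFinset).erase 0

theorem mem_Hs {G : Type} [AddCommGroup G] [Finite G] (H : AddSubgroup G) (z : G) :
    z ∈ Hs H ↔ z ≠ 0 ∧ z ∈ H := by
  unfold Hs
  rw [mem_erase, Set.Finite.mem_toFinset, SetLike.mem_coe]

theorem card_Hs {G : Type} [AddCommGroup G] [Finite G] (H : AddSubgroup G) :
    (Hs H).card = Nat.card H - 1 := by
  unfold Hs
  rw [card_erase_of_mem]
  · congr 1
    exact (Nat.card_eq_card_finite_toFinset (Set.toFinite (H : Set G))).symm
  · rw [Set.Finite.mem_toFinset, SetLike.mem_coe]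
    exact AddSubgroup.zero_mem _

theorem ord_quot {G : Type} [AddCommGroup G] [Finite G] (H : AddSubgroup G) (x : G) (k : ℤ)
    (hk : k • x ∈ H) : ((addOrderOf (QuotientAddGroup.mk x : G ⧸ H) : ℕ) : ℤ) ∣ k := by
  rw [← QuotientAddGroup.eq_zero_iff, QuotientAddGroup.mk_zsmul] at hk
  exact addOrderOf_dvd_iff_zsmul_eq_zero.2 hk

theorem ord_gen {G : Type} [AddCommGroup G] [Finite G] (H : AddSubgroup G) (x : G)
    (h : ∀ z : G, ∃ k : ℤ, z - k • x ∈ H) :
    addOrderOf (QuotientAddGroup.mk x : G ⧸ H) = Nat.card (G ⧸ H) := by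
  refine addOrderOf_eq_card_of_forall_mem_zmultiples fun z => ?_
  obtain ⟨w, rfl⟩ := QuotientAddGroup.mk_surjective z
  obtain ⟨k, hk⟩ := h w
  rw [AddSubgroup.mem_zmultiples_iff]
  refine ⟨k, ?_⟩
  rw [← QuotientAddGroup.mk_zsmul, QuotientAddGroup.eq]
  rw [neg_add_eq_sub]
  exact hk

theorem cyc_gen {G : Type} [AddCommGroup G] (H : AddSubgroup G) (x : G)
    (h : ∀ z : G, ∃ k : ℤ, z - k • x ∈ H) : IsAddCyclic (G ⧸ H) := by
  refine ⟨⟨(QuotientAddGroup.mk x : G ⧸ H), ?_⟩⟩
  intro z
  obtain ⟨w, rfl⟩ := QuotientAddGroup.mk_surjective z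
  obtain ⟨k, hk⟩ := h w
  refine ⟨k, ?_⟩
  simp only
  rw [← QuotientAddGroup.mk_zsmul, QuotientAddGroup.eq, neg_add_eq_sub]
  exact hk

theorem two_le_index {G : Type} [AddCommGroup G] [Finite G] (H : AddSubgroup G) (hH : H ≠ ⊤) :
    2 ≤ Nat.card (G ⧸ H) := by
  have h1 : Nat.card (G ⧸ H) ≠ 0 := Nat.card_pos.ne'
  have h2 : Nat.card (G ⧸ H) ≠ 1 := by
    intro h3
    exact hH (AddSubgroup.index_eq_one.1 h3)
  omega

theorem U1 (G : Type) [AddCommGroup G] [Finite G] (H : AddSubgroup G) (hH : H ≠ ⊤)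
    (hc : IsAddCyclic (G ⧸ H)) (a b : G) (hab : AddSubgroup.closure {a, b} = ⊤) (m : ℕ)
    (hm : 2 ≤ m)
    (hV : Nat.card H * cf (2 * Nat.card H) (max 1 (m + 1 - Nat.card H)) ≤ Nat.card G) :
    ∃ A : Finset G, (0 : G) ∉ A ∧ A.card = m ∧ AddSubgroup.closure (A : Set G) = ⊤ ∧
      (FS A id).card ≤ Nat.card H * cf (2 * Nat.card H) (max 1 (m + 1 - Nat.card H)) := by
  have hG := AddSubgroup.card_eq_card_quotient_mul_card_addSubgroup H
  have hh0 : 0 < Nat.card H := Nat.card_pos
  have hN := two_le_index H hH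
  have hcN : cf (2 * Nat.card H) (max 1 (m + 1 - Nat.card H)) ≤ Nat.card (G ⧸ H) := by
    rw [hG, mul_comm] at hV
    exact Nat.le_of_mul_le_mul_right hV hh0
  rcases Nat.lt_or_ge m (Nat.card H) with hmh | hmh
  · obtain ⟨x, y, hxy, hyH⟩ := pair_cyc G a b hab H hc
    have hgen : ∀ z : G, ∃ k : ℤ, z - k • x ∈ H := by
      intro z
      obtain ⟨i, j, rfl⟩ := mem_pair hxy z
      refine ⟨i, ?_⟩
      rw [add_sub_cancel_left]
      exact AddSubgroup.zsmul_mem _ hyH j
    obtain ⟨S0, hS0⟩ : ∃ S0 : Finset G, S0 = if y = 0 then ∅ else {y} := ⟨_, rfl⟩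
    have hS0H : S0 ⊆ Hs H := by
      rw [hS0]
      split_ifs with h1
      · exact empty_subset _
      · rw [singleton_subset_iff, mem_Hs]
        exact ⟨h1, hyH⟩
    have hS0c : S0.card ≤ m - 1 := by
      rw [hS0]
      split_ifs
      · simp
      · rw [card_singleton]
        omega
    obtain ⟨S, hS1, hS2, hS3⟩ := Finset.exists_subsuperset_card_eq hS0H hS0c
      (by rw [card_Hs]; omega)
    have hmax : max 1 (m + 1 - Nat.card H) = 1 := by omega
    rw [hmax] at hcN ⊢
    obtain ⟨A, hA1, hA2, hA3, hA4, -, hA5⟩ := constr H x (Nat.card (G ⧸ H)) 1 le_rfl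
      (fun k hk => by
        have := ord_quot H x k hk
        rwa [ord_gen H x hgen] at this) hcN S
      (fun z hz => ((mem_Hs H z).1 (hS2 hz)).2) (fun hz => ((mem_Hs H 0).1 (hS2 hz)).1 rfl)
    refine ⟨A, hA1, by omega, ?_, hA5⟩
    rw [eq_top_iff, ← hxy, AddSubgroup.closure_le]
    intro z hz
    rcases hz with rfl | hz
    · exact AddSubgroup.subset_closure (by exact_mod_cast hA3)
    · rw [Set.mem_singleton_iff] at hz
      rw [hz]
      by_cases h1 : y = 0
      · rw [h1]
        exact AddSubgroup.zero_mem _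
      · refine AddSubgroup.subset_closure ?_
        have h2 : y ∈ S0 := by
          rw [hS0, if_neg h1]
          exact mem_singleton_self y
        exact_mod_cast hA4 (hS1 h2)
  · obtain ⟨g, hg⟩ := hc.exists_zsmul_surjective
    obtain ⟨x, rfl⟩ := QuotientAddGroup.mk_surjective g
    have hgen : ∀ z : G, ∃ k : ℤ, z - k • x ∈ H := by
      intro z
      obtain ⟨k, hk⟩ := hg (QuotientAddGroup.mk z : G ⧸ H)
      simp only at hk
      refine ⟨k, ?_⟩
      rw [← QuotientAddGroup.mk_zsmul, QuotientAddGroup.eq, neg_add_eq_sub] at hk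
      exact hk
    have hmax : max 1 (m + 1 - Nat.card H) = m + 1 - Nat.card H := by omega
    rw [hmax] at hcN ⊢
    obtain ⟨A, hA1, hA2, hA3, hA4, -, hA5⟩ := constr H x (Nat.card (G ⧸ H))
      (m + 1 - Nat.card H) (by omega)
      (fun k hk => by
        have := ord_quot H x k hk
        rwa [ord_gen H x hgen] at this) hcN (Hs H)
      (fun z hz => ((mem_Hs H z).1 hz).2) (fun hz => ((mem_Hs H 0).1 hz).1 rfl)
    refine ⟨A, hA1, by rw [hA2, card_Hs]; omega, ?_, hA5⟩
    have hHA : H ≤ AddSubgroup.closure (A : Set G) := by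
      intro z hz
      by_cases h1 : z = 0
      · rw [h1]
        exact AddSubgroup.zero_mem _
      · exact AddSubgroup.subset_closure (by exact_mod_cast hA4 ((mem_Hs H z).2 ⟨h1, hz⟩))
    rw [eq_top_iff]
    intro z _
    obtain ⟨k, hk⟩ := hgen z
    have h2 := AddSubgroup.add_mem _ (hHA hk) (AddSubgroup.zsmul_mem _
      (AddSubgroup.subset_closure (show x ∈ (A : Set G) by exact_mod_cast hA3)) k)
    rwa [sub_add_cancel] at h2

theorem U2 (G : Type) [AddCommGroup G] [Finite G] (H : AddSubgroup G)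
    (hc : ¬ IsAddCyclic (G ⧸ H)) (a b : G) (hab : AddSubgroup.closure {a, b} = ⊤) (m : ℕ)
    (hm : 2 ≤ m)
    (hV : 2 * Nat.card H * cf (2 * Nat.card H) (max 1 (m - Nat.card H)) ≤ Nat.card G) :
    ∃ A : Finset G, (0 : G) ∉ A ∧ A.card = m ∧ AddSubgroup.closure (A : Set G) = ⊤ ∧
      (FS A id).card ≤ 2 * Nat.card H * cf (2 * Nat.card H) (max 1 (m - Nat.card H)) := by
  have hG := AddSubgroup.card_eq_card_quotient_mul_card_addSubgroup H
  have hh0 : 0 < Nat.card H := Nat.card_pos
  have hcf1 : ∀ g, cf g 1 = 2 := fun g => by simp [cf]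
  rcases Nat.lt_or_ge (Nat.card H) m with hmh | hmh
  · -- lift a basis of `G / H`
    have hK : AddSubgroup.closure {(QuotientAddGroup.mk a : G ⧸ H), QuotientAddGroup.mk b} = ⊤ := by
      rw [eq_top_iff]
      intro z _
      obtain ⟨w, rfl⟩ := QuotientAddGroup.mk_surjective z
      obtain ⟨i, j, rfl⟩ := mem_pair hab w
      rw [AddSubgroup.mem_closure_pair]
      exact ⟨i, j, by rw [QuotientAddGroup.mk_add, QuotientAddGroup.mk_zsmul,
        QuotientAddGroup.mk_zsmul]⟩
    obtain ⟨x', y', hxy, hox, hoxy, hind⟩ := pair_basis (G ⧸ H) _ _ hK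
    obtain ⟨x, rfl⟩ := QuotientAddGroup.mk_surjective x'
    obtain ⟨y, rfl⟩ := QuotientAddGroup.mk_surjective y'
    have hxyH : ∀ z : G, ∃ i j : ℤ, z - (i • x + j • y) ∈ H := by
      intro z
      obtain ⟨i, j, hij⟩ := mem_pair hxy (QuotientAddGroup.mk z : G ⧸ H)
      refine ⟨i, j, ?_⟩
      rw [← QuotientAddGroup.mk_zsmul, ← QuotientAddGroup.mk_zsmul, ← QuotientAddGroup.mk_add,
        QuotientAddGroup.eq, neg_add_eq_sub] at hij
      exact hij
    have hmax : max 1 (m - Nat.card H) = m - Nat.card H := by omega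
    rw [hmax] at hV ⊢
    by_cases hce : cf (2 * Nat.card H) (m - Nat.card H) ≤
        addOrderOf (QuotientAddGroup.mk x : G ⧸ H)
    · obtain ⟨A, hA1, hA2, hA3, hA4, hA6, hA5⟩ := constr H x
        (addOrderOf (QuotientAddGroup.mk x : G ⧸ H)) (m - Nat.card H) (by omega)
        (fun k hk => ord_quot H x k hk) hce (Hs H)
        (fun z hz => ((mem_Hs H z).1 hz).2) (fun hz => ((mem_Hs H 0).1 hz).1 rfl)
      have hyn : y ∉ AddSubgroup.zmultiples x ⊔ H := by
        intro h1
        apply hc
        refine cyc_gen H x fun z => ?_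
        obtain ⟨i, j, hij⟩ := hxyH z
        rw [AddSubgroup.mem_sup] at h1
        obtain ⟨p, hp, q, hq, hpq⟩ := h1
        obtain ⟨r, rfl⟩ := AddSubgroup.mem_zmultiples_iff.1 hp
        refine ⟨i + j * r, ?_⟩
        have h2 := AddSubgroup.add_mem _ hij (AddSubgroup.zsmul_mem _ hq j)
        have h3 : z - (i + j * r) • x = z - (i • x + j • y) + j • q := by
          rw [← hpq, add_smul, mul_smul, smul_add]
          abel
        rw [h3]
        exact h2
      have hyA : y ∉ A := fun h1 => hyn (hA6 y h1)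
      refine ⟨insert y A, ?_, ?_, ?_, ?_⟩
      · rw [mem_insert, not_or]
        refine ⟨fun h1 => hyn (by rw [← h1]; exact AddSubgroup.zero_mem _), hA1⟩
      · rw [card_insert_of_notMem hyA, hA2, card_Hs]
        omega
      · have hsub : (A : Set G) ⊆ ((insert y A : Finset G) : Set G) := by
          exact_mod_cast subset_insert y A
        have hHA : H ≤ AddSubgroup.closure ((insert y A : Finset G) : Set G) := by
          intro z hz
          by_cases h1 : z = 0
          · rw [h1]
            exact AddSubgroup.zero_mem _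
          · exact AddSubgroup.subset_closure
              (hsub (by exact_mod_cast hA4 ((mem_Hs H z).2 ⟨h1, hz⟩)))
        have hxA : x ∈ AddSubgroup.closure ((insert y A : Finset G) : Set G) :=
          AddSubgroup.subset_closure (hsub (by exact_mod_cast hA3))
        have hyA' : y ∈ AddSubgroup.closure ((insert y A : Finset G) : Set G) :=
          AddSubgroup.subset_closure (by exact_mod_cast mem_insert_self y A)
        rw [eq_top_iff]
        intro z _
        obtain ⟨i, j, hij⟩ := hxyH z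
        have h2 := AddSubgroup.add_mem _ (hHA hij) (AddSubgroup.add_mem _
          (AddSubgroup.zsmul_mem _ hxA i) (AddSubgroup.zsmul_mem _ hyA' j))
        rwa [sub_add_cancel] at h2
      · refine (FS_insert_le A y hyA).trans ?_
        rw [mul_assoc]
        exact Nat.mul_le_mul_left 2 hA5
    · -- go to a bigger subgroup
      push Not at hce
      obtain ⟨l, hl⟩ : ∃ l, l = addOrderOf (QuotientAddGroup.mk y : G ⧸ H) := ⟨_, rfl⟩
      obtain ⟨e, he⟩ : ∃ e, e = addOrderOf (QuotientAddGroup.mk x : G ⧸ H) := ⟨_, rfl⟩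
      rw [← he] at hce hox
      rw [← he, ← hl] at hoxy
      have hle : l ≤ e := by
        rw [hl, hox]
        exact Nat.le_of_dvd (exp_pos (G ⧸ H)) (AddMonoid.addOrder_dvd_exponent _)
      obtain ⟨P, hP⟩ : ∃ P : AddSubgroup G, P =
        (AddSubgroup.zmultiples (QuotientAddGroup.mk y : G ⧸ H)).comap (QuotientAddGroup.mk' H) :=
        ⟨_, rfl⟩
      have hPm : ∀ z, z ∈ P ↔ ∃ k : ℤ, z - k • y ∈ H := by
        intro z
        rw [hP, AddSubgroup.mem_comap, AddSubgroup.mem_zmultiples_iff]
        refine exists_congr fun k => ?_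
        rw [QuotientAddGroup.mk'_apply, ← QuotientAddGroup.mk_zsmul, QuotientAddGroup.eq,
          neg_add_eq_sub]
      have hgP : ∀ z : G, ∃ k : ℤ, z - k • x ∈ P := by
        intro z
        obtain ⟨i, j, hij⟩ := hxyH z
        refine ⟨i, (hPm _).2 ⟨j, ?_⟩⟩
        rw [sub_sub]
        exact hij
      have hPc : IsAddCyclic (G ⧸ P) := cyc_gen P x hgP
      have hPT : P ≠ ⊤ := by
        intro h1
        apply hc
        refine cyc_gen H y fun z => ?_
        exact (hPm z).1 (h1 ▸ AddSubgroup.mem_top z)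
      have hPcard : Nat.card P = Nat.card H * l := by
        have h1 := Nat.card_congr (QuotientAddGroup.preimageMkEquivAddSubgroupProdSet H
          ((AddSubgroup.zmultiples (QuotientAddGroup.mk y : G ⧸ H) : Set (G ⧸ H))))
        rw [Nat.card_prod] at h1
        have h2 : Nat.card P = Nat.card ((QuotientAddGroup.mk ⁻¹'
          ((AddSubgroup.zmultiples (QuotientAddGroup.mk y : G ⧸ H) : Set (G ⧸ H)))) : Set G) := by
          rw [hP]
          rfl
        rw [h2, h1, hl, ← Nat.card_zmultiples]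
        rfl
      have hl2 : 2 ≤ l := by
        have h1 : l ≠ 0 := by
          rw [hl]
          exact (addOrderOf_pos _).ne'
        have h2 : l ≠ 1 := by
          intro h3
          apply hc
          rw [hl, AddMonoid.addOrderOf_eq_one_iff] at h3
          refine cyc_gen H x fun z => ?_
          obtain ⟨k, hk⟩ := hgP z
          obtain ⟨j, hj⟩ := (hPm _).1 hk
          refine ⟨k, ?_⟩
          have h4 := AddSubgroup.add_mem _ hj
            (AddSubgroup.zsmul_mem _ ((QuotientAddGroup.eq_zero_iff y).1 h3) j)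
          rwa [sub_add_cancel] at h4
        omega
      have hval : Nat.card P * cf (2 * Nat.card P) (max 1 (m + 1 - Nat.card P)) ≤
          2 * Nat.card H * cf (2 * Nat.card H) (m - Nat.card H) := by
        rw [hPcard]
        rcases Nat.lt_or_ge (Nat.card H * l + 1) (m + 1) with h1 | h1
        · have h2 : max 1 (m + 1 - Nat.card H * l) =
              (m - Nat.card H) + 1 + Nat.card H - Nat.card H * l := by omega
          rw [h2]
          have h3 := Up_num (Nat.card H) l (m - Nat.card H) hh0 hl2 (by omega)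
          calc _ = Nat.card H * (l * cf (2 * (Nat.card H * l))
                ((m - Nat.card H) + 1 + Nat.card H - Nat.card H * l)) := by ring
            _ ≤ Nat.card H * (2 * cf (2 * Nat.card H) (m - Nat.card H)) :=
                Nat.mul_le_mul_left _ h3
            _ = _ := by ring
        · have h2 : max 1 (m + 1 - Nat.card H * l) = 1 := by omega
          rw [h2, hcf1]
          have h3 : l ≤ cf (2 * Nat.card H) (m - Nat.card H) := by omega
          calc Nat.card H * l * 2 = 2 * Nat.card H * l := by ring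
            _ ≤ _ := Nat.mul_le_mul_left _ h3
      obtain ⟨A, hA1, hA2, hA3, hA4⟩ := U1 G P hPT hPc a b hab m hm (hval.trans hV)
      exact ⟨A, hA1, hA2, hA3, hA4.trans hval⟩
  · -- few elements
    have hmax : max 1 (m - Nat.card H) = 1 := by omega
    rw [hmax, hcf1]
    have hbn : b ∉ AddSubgroup.zmultiples a ⊔ H := by
      intro h1
      apply hc
      refine cyc_gen H a fun z => ?_
      obtain ⟨i, j, rfl⟩ := mem_pair hab z
      rw [AddSubgroup.mem_sup] at h1
      obtain ⟨p, hp, q, hq, hpq⟩ := h1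
      obtain ⟨r, rfl⟩ := AddSubgroup.mem_zmultiples_iff.1 hp
      refine ⟨i + j * r, ?_⟩
      have h3 : i • a + j • b - (i + j * r) • a = j • q := by
        rw [← hpq, add_smul, mul_smul, smul_add]
        abel
      rw [h3]
      exact AddSubgroup.zsmul_mem _ hq j
    have haH : a ∉ H := by
      intro h1
      apply hc
      refine cyc_gen H b fun z => ?_
      obtain ⟨i, j, rfl⟩ := mem_pair hab z
      refine ⟨j, ?_⟩
      rw [add_sub_cancel_right]
      exact AddSubgroup.zsmul_mem _ h1 i
    obtain ⟨S, hS1, hS2⟩ := Finset.exists_subset_card_eq (s := Hs H) (n := m - 2)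
      (by rw [card_Hs]; omega)
    have ho : 2 ≤ addOrderOf (QuotientAddGroup.mk a : G ⧸ H) := by
      have h1 : addOrderOf (QuotientAddGroup.mk a : G ⧸ H) ≠ 0 := (addOrderOf_pos _).ne'
      have h2 : addOrderOf (QuotientAddGroup.mk a : G ⧸ H) ≠ 1 := by
        intro h3
        rw [AddMonoid.addOrderOf_eq_one_iff] at h3
        exact haH ((QuotientAddGroup.eq_zero_iff a).1 h3)
      omega
    obtain ⟨A, hA1, hA2, hA3, hA4, hA6, hA5⟩ := constr H a
      (addOrderOf (QuotientAddGroup.mk a : G ⧸ H)) 1 le_rfl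
      (fun k hk => ord_quot H a k hk) (by rw [hcf1]; exact ho) S
      (fun z hz => ((mem_Hs H z).1 (hS1 hz)).2) (fun hz => ((mem_Hs H 0).1 (hS1 hz)).1 rfl)
    rw [hcf1] at hA5
    have hbA : b ∉ A := fun h1 => hbn (hA6 b h1)
    refine ⟨insert b A, ?_, ?_, ?_, ?_⟩
    · rw [mem_insert, not_or]
      refine ⟨fun h1 => hbn (by rw [← h1]; exact AddSubgroup.zero_mem _), hA1⟩
    · rw [card_insert_of_notMem hbA, hA2]
      omega
    · rw [eq_top_iff, ← hab, AddSubgroup.closure_le]
      intro z hz
      rcases hz with rfl | hz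
      · exact AddSubgroup.subset_closure (by exact_mod_cast mem_insert_of_mem hA3)
      · rw [Set.mem_singleton_iff] at hz
        rw [hz]
        exact AddSubgroup.subset_closure (by exact_mod_cast mem_insert_self b A)
    · refine (FS_insert_le A b hbA).trans ?_
      rw [mul_assoc]
      exact Nat.mul_le_mul_left 2 hA5

end Pool.Agent.SNW
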