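import Pool.Agent.SNW.Up3

/-!
# SNW, module Up4 (helper48): the upper bound for all finite abelian groups with two generators

`bd2 G m` is the least of `|G|` and the values `val2 m H` of the subgroups `H ≠ G`.  `thm_Up2`: if `G` has two
generators and `1 ≤ m < |G|` (`2 ≤ m` if `G` is not cyclic) then some generating set of `m` nonzero elements
has at most `bd2 G m` subset sums.
-/

set_option autoImplicit false

noncomputable section

open Finset Pool.Agent.Helper64.Rho
open scoped Classical Pointwise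

namespace Pool.Agent.SNW

open Pool.Agent.SDG

/-- the value of the subgroup `H` -/
def val2 {G : Type} [AddCommGroup G] (m : ℕ) (H : AddSubgroup G) : ℕ :=
  if IsAddCyclic (G ⧸ H) then Nat.card H * cf (2 * Nat.card H) (max 1 (m + 1 - Nat.card H))
  else if H = ⊥ then pn m
  else 2 * Nat.card H * cf (2 * Nat.card H) (max 1 (m - Nat.card H))

/-- the bound -/
def bd2 (G : Type) [AddCommGroup G] (m : ℕ) : ℕ :=
  sInf ({Nat.card G} ∪ {v | ∃ H : AddSubgroup G, H ≠ ⊤ ∧ v = val2 m H})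

/-- sums of pairs `{z, - z}` -/
theorem FS_pm {G : Type} [AddCommGroup G] (z : G) :
    FS ({z, -z} : Finset G) id ⊆ (Icc (-1 : ℤ) 1).image fun k : ℤ => k • z := by
  intro w hw
  obtain ⟨B, hB, rfl⟩ := mem_FS.1 hw
  by_cases hz : z = -z
  · have h1 : ({z, -z} : Finset G) = {z} := by
      rw [← hz]
      simp
    rw [h1] at hB
    rcases subset_singleton_iff.1 hB with rfl | rfl
    · exact mem_image.2 ⟨0, by simp, by simp⟩
    · exact mem_image.2 ⟨1, by simp, by simp⟩
  · have h2 : ∑ b ∈ B, id b = (if z ∈ B then z else 0) + (if -z ∈ B then -z else 0) := by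
      have h3 : ∑ b ∈ B, id b = ∑ b ∈ ({z, -z} : Finset G), if b ∈ B then b else 0 := by
        rw [← sum_filter]
        have h4 : (({z, -z} : Finset G).filter fun b => b ∈ B) = B := by
          ext y
          simp only [mem_filter]
          exact ⟨fun h => h.2, fun h => ⟨hB h, h⟩⟩
        rw [h4]
        rfl
      rw [h3, sum_pair hz]
    rw [h2]
    by_cases h3 : z ∈ B <;> by_cases h4 : -z ∈ B <;> simp only [h3, h4, if_true, if_false]
    · exact mem_image.2 ⟨0, by simp, by simp⟩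
    · exact mem_image.2 ⟨1, by simp, by simp⟩
    · exact mem_image.2 ⟨-1, by simp, by simp⟩
    · exact mem_image.2 ⟨0, by simp, by simp⟩

theorem small_coeff {G : Type} [AddCommGroup G] (x : G) (hx : 3 ≤ addOrderOf x) (i : ℤ)
    (h1 : -2 ≤ i) (h2 : i ≤ 2) (h3 : i • x = 0) : i = 0 := by
  have h4 := addOrderOf_dvd_iff_zsmul_eq_zero.2 h3
  refine Int.eq_zero_of_abs_lt_dvd h4 ?_
  have h5 : |i| ≤ 2 := abs_le.2 ⟨h1, h2⟩
  have h6 : (3 : ℤ) ≤ addOrderOf x := by exact_mod_cast hx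
  linarith

section grid
variable {G : Type} [AddCommGroup G] (x y : G)

theorem grid_inj (hx : 3 ≤ addOrderOf x) (hy : 3 ≤ addOrderOf y)
    (hind : ∀ i j : ℤ, i • x + j • y = 0 → i • x = 0 ∧ j • y = 0) (p q : ℤ × ℤ)
    (hp : p ∈ (Icc (-1 : ℤ) 1) ×ˢ (Icc (-1 : ℤ) 1)) (hq : q ∈ (Icc (-1 : ℤ) 1) ×ˢ (Icc (-1 : ℤ) 1))
    (h : p.1 • x + p.2 • y = q.1 • x + q.2 • y) : p = q := by
  rw [mem_product, mem_Icc, mem_Icc] at hp hq
  have h1 : (p.1 - q.1) • x + (p.2 - q.2) • y = 0 := by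
    rw [sub_smul, sub_smul]
    have h2 : p.1 • x - q.1 • x + (p.2 • y - q.2 • y) =
      (p.1 • x + p.2 • y) - (q.1 • x + q.2 • y) := by abel
    rw [h2, h, sub_self]
  obtain ⟨h2, h3⟩ := hind _ _ h1
  have h4 := small_coeff x hx _ (by omega) (by omega) h2
  have h5 := small_coeff y hy _ (by omega) (by omega) h3
  exact Prod.ext (by omega) (by omega)

end grid

/-- the set of the elements `i x + j y`, `(i, j) ∈ P` -/
def gridset {G : Type} [AddCommGroup G] (x y : G) (P : Finset (ℤ × ℤ)) : Finset G :=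
  P.image fun p => p.1 • x + p.2 • y

theorem gridset_data {G : Type} [AddCommGroup G] (x y : G) (hxy : AddSubgroup.closure {x, y} = ⊤)
    (hx : 3 ≤ addOrderOf x) (hy : 3 ≤ addOrderOf y)
    (hind : ∀ i j : ℤ, i • x + j • y = 0 → i • x = 0 ∧ j • y = 0) (P : Finset (ℤ × ℤ))
    (hP : P ⊆ (Icc (-1 : ℤ) 1) ×ˢ (Icc (-1 : ℤ) 1)) (h0 : (0, 0) ∉ P) (h1 : (1, 0) ∈ P)
    (h2 : (0, 1) ∈ P) :
    (0 : G) ∉ gridset x y P ∧ (gridset x y P).card = P.card ∧
      AddSubgroup.closure ((gridset x y P : Finset G) : Set G) = ⊤ := by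
  refine ⟨?_, ?_, ?_⟩
  · intro h3
    obtain ⟨p, hp, hp0⟩ := mem_image.1 h3
    have h4 : p = (0, 0) := grid_inj x y hx hy hind p (0, 0) (hP hp) (by simp) (by simpa using hp0)
    exact h0 (h4 ▸ hp)
  · refine card_image_of_injOn ?_
    intro p hp q hq hpq
    exact grid_inj x y hx hy hind p q (hP (by exact_mod_cast hp)) (hP (by exact_mod_cast hq)) hpq
  · rw [eq_top_iff, ← hxy, AddSubgroup.closure_le]
    intro z hz
    rcases hz with rfl | hz
    · refine AddSubgroup.subset_closure ?_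
      have : z ∈ gridset z y P := mem_image.2 ⟨(1, 0), h1, by simp⟩
      exact_mod_cast this
    · rw [Set.mem_singleton_iff] at hz
      rw [hz]
      refine AddSubgroup.subset_closure ?_
      have : y ∈ gridset x y P := mem_image.2 ⟨(0, 1), h2, by simp⟩
      exact_mod_cast this

theorem FS_union_sub {G : Type} [AddCommGroup G] (A B X Y : Finset G) (hd : Disjoint A B)
    (hA : FS A id ⊆ X) (hB : FS B id ⊆ Y) : FS (A ∪ B) id ⊆ X + Y := by
  rw [(all_Ba1 G G id).1 _ _ hd]
  exact Finset.add_subset_add hA hB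

theorem U3_four (G : Type) [AddCommGroup G] (x y : G)
    (hxy : AddSubgroup.closure {x, y} = ⊤) (hx : 3 ≤ addOrderOf x) (hy : 3 ≤ addOrderOf y)
    (hind : ∀ i j : ℤ, i • x + j • y = 0 → i • x = 0 ∧ j • y = 0) :
    ∃ A : Finset G, (0 : G) ∉ A ∧ A.card = 4 ∧ AddSubgroup.closure (A : Set G) = ⊤ ∧
      (FS A id).card ≤ 9 := by
  obtain ⟨h1, h2, h3⟩ := gridset_data x y hxy hx hy hind {(1, 0), (-1, 0), (0, 1), (0, -1)}
    (by decide) (by decide) (by decide) (by decide)
  refine ⟨_, h1, h2.trans (by decide), h3, ?_⟩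
  have e1 : gridset x y {(1, 0), (-1, 0), (0, 1), (0, -1)} = {x, -x} ∪ {y, -y} := by
    unfold gridset
    simp only [image_insert, image_singleton, one_smul, zero_smul, add_zero, zero_add, neg_smul,
      insert_union, singleton_union]
  have hd : Disjoint ({x, -x} : Finset G) {y, -y} := by
    rw [Finset.disjoint_left]
    intro z hz hz'
    have h4 : ∃ i : ℤ, (i = 1 ∨ i = -1) ∧ z = i • x := by
      rcases mem_insert.1 hz with rfl | h5
      · exact ⟨1, Or.inl rfl, (one_smul _ _).symm⟩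
      · rw [mem_singleton] at h5
        exact ⟨-1, Or.inr rfl, by rw [h5, neg_smul, one_smul]⟩
    have h5 : ∃ j : ℤ, z = j • y := by
      rcases mem_insert.1 hz' with rfl | h5
      · exact ⟨1, (one_smul _ _).symm⟩
      · rw [mem_singleton] at h5
        exact ⟨-1, by rw [h5, neg_smul, one_smul]⟩
    obtain ⟨i, hi, rfl⟩ := h4
    obtain ⟨j, hj⟩ := h5
    have h6 := (hind i (-j) (by rw [hj, neg_smul, add_neg_cancel])).1
    have h7 := small_coeff x hx i (by omega) (by omega) h6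
    omega
  rw [e1]
  have h4 := FS_union_sub _ _ _ _ hd (FS_pm x) (FS_pm y)
  refine (card_le_card h4).trans (card_add_le.trans ?_)
  have h5 : ∀ z : G, ((Icc (-1 : ℤ) 1).image fun k : ℤ => k • z).card ≤ 3 := fun z =>
    card_image_le.trans (by decide)
  exact Nat.mul_le_mul (h5 x) (h5 y)

theorem U3_six (G : Type) [AddCommGroup G] (x y : G)
    (hxy : AddSubgroup.closure {x, y} = ⊤) (hx : 3 ≤ addOrderOf x) (hy : 3 ≤ addOrderOf y)
    (hind : ∀ i j : ℤ, i • x + j • y = 0 → i • x = 0 ∧ j • y = 0) :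
    ∃ A : Finset G, (0 : G) ∉ A ∧ A.card = 6 ∧ AddSubgroup.closure (A : Set G) = ⊤ ∧
      (FS A id).card ≤ 19 := by
  obtain ⟨h1, h2, h3⟩ := gridset_data x y hxy hx hy hind
    {(1, 0), (-1, 0), (0, 1), (0, -1), (1, 1), (-1, -1)}
    (by decide) (by decide) (by decide) (by decide)
  refine ⟨_, h1, h2.trans (by decide), h3, ?_⟩
  have e1 : gridset x y {(1, 0), (-1, 0), (0, 1), (0, -1), (1, 1), (-1, -1)} =
      ({x, -x} ∪ {y, -y}) ∪ {x + y, -(x + y)} := by
    unfold gridset
    simp only [image_insert, image_singleton, one_smul, zero_smul, add_zero, zero_add, neg_smul]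
    have h4 : -x + -y = -(x + y) := by abel
    rw [h4]
    simp only [insert_union, singleton_union]
  have hgi := grid_inj x y hx hy hind
  have key : ∀ P Q : Finset (ℤ × ℤ), P ⊆ (Icc (-1 : ℤ) 1) ×ˢ (Icc (-1 : ℤ) 1) →
      Q ⊆ (Icc (-1 : ℤ) 1) ×ˢ (Icc (-1 : ℤ) 1) → Disjoint P Q →
      Disjoint (gridset x y P) (gridset x y Q) := by
    intro P Q hP hQ hPQ
    rw [Finset.disjoint_left]
    intro z hz hz'
    obtain ⟨p, hp, rfl⟩ := mem_image.1 hz
    obtain ⟨q, hq, hq'⟩ := mem_image.1 hz'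
    have h4 := hgi q p (hQ hq) (hP hp) hq'
    rw [h4] at hq
    exact Finset.disjoint_left.1 hPQ hp hq
  have ex : ({x, -x} : Finset G) = gridset x y {(1, 0), (-1, 0)} := by
    unfold gridset
    simp [image_insert]
  have ey : ({y, -y} : Finset G) = gridset x y {(0, 1), (0, -1)} := by
    unfold gridset
    simp [image_insert]
  have ez : ({x + y, -(x + y)} : Finset G) = gridset x y {(1, 1), (-1, -1)} := by
    unfold gridset
    simp only [image_insert, image_singleton, one_smul, neg_smul]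
    have h4 : -x + -y = -(x + y) := by abel
    rw [h4]
  have exy : ({x, -x} ∪ {y, -y} : Finset G) =
      gridset x y {(1, 0), (-1, 0), (0, 1), (0, -1)} := by
    rw [ex, ey]
    unfold gridset
    rw [← image_union]
    rfl
  have hd1 : Disjoint ({x, -x} : Finset G) {y, -y} := by
    rw [ex, ey]
    exact key _ _ (by decide) (by decide) (by decide)
  have hd2 : Disjoint ({x, -x} ∪ {y, -y} : Finset G) {x + y, -(x + y)} := by
    rw [exy, ez]
    exact key _ _ (by decide) (by decide) (by decide)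
  rw [e1]
  have h4 := FS_union_sub _ _ _ _ hd2 (FS_union_sub _ _ _ _ hd1 (FS_pm x) (FS_pm y))
    (FS_pm (x + y))
  have h5 : ((Icc (-1 : ℤ) 1).image (fun k : ℤ => k • x) +
      (Icc (-1 : ℤ) 1).image (fun k : ℤ => k • y)) +
      (Icc (-1 : ℤ) 1).image (fun k : ℤ => k • (x + y)) ⊆
      gridset x y (((Icc (-1 : ℤ) 1) ×ˢ ((Icc (-1 : ℤ) 1) ×ˢ (Icc (-1 : ℤ) 1))).image
        fun r => (r.1 + r.2.2, r.2.1 + r.2.2)) := by
    intro z hz
    obtain ⟨w, hw, c, hc, rfl⟩ := mem_add.1 hz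
    obtain ⟨a, ha, b, hb, rfl⟩ := mem_add.1 hw
    obtain ⟨i, hi, rfl⟩ := mem_image.1 ha
    obtain ⟨j, hj, rfl⟩ := mem_image.1 hb
    obtain ⟨k, hk, rfl⟩ := mem_image.1 hc
    refine mem_image.2 ⟨(i + k, j + k), mem_image.2 ⟨(i, j, k), ?_, rfl⟩, ?_⟩
    · exact mem_product.2 ⟨hi, mem_product.2 ⟨hj, hk⟩⟩
    · simp only [add_smul, smul_add]
      abel
  refine (card_le_card (h4.trans h5)).trans (card_image_le.trans ?_)
  decide

end Pool.Agent.SNW
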